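import Mathlib
import Pool.Agent.Helper950.BG.Grp

set_option autoImplicit false

/-! The Hurwitz action of the braid group on infinite tuples of elements of an involutory quandle,
the word `w0`, and the non-solvability of its normal closure. -/

namespace Pool.Agent.H29R2.QD

open Pool.Agent.Helper950.BG
open scoped commutatorElement

/-- involutory rack -/
structure Kei (Q : Type) where
  op : Q → Q → Q
  invol : ∀ x y, op x (op x y) = y
  dist : ∀ x y z, op x (op y z) = op (op x y) (op x z)

namespace Kei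
variable {Q : Type} (κ : Kei Q)

/-- `σ_i` on tuples: `(x, y) ↦ (x ⊳ y, x)` at the positions `i, i+1` -/
def act (i : ℕ) : Equiv.Perm (ℕ → Q) where
  toFun t k := if k = i then κ.op (t i) (t (i + 1)) else if k = i + 1 then t i else t k
  invFun t k := if k = i then t (i + 1) else if k = i + 1 then κ.op (t (i + 1)) (t i) else t k
  left_inv := by
    intro t
    funext k
    by_cases h1 : k = i
    · subst h1; simp
    · by_cases h2 : k = i + 1
      · subst h2; simp [κ.invol]
      · simp [h1, h2]
  right_inv := by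
    intro t
    funext k
    by_cases h1 : k = i
    · subst h1; simp [κ.invol]
    · by_cases h2 : k = i + 1
      · subst h2; simp
      · simp [h1, h2]

theorem act_apply (i : ℕ) (t : ℕ → Q) (k : ℕ) :
    κ.act i t k = if k = i then κ.op (t i) (t (i + 1)) else if k = i + 1 then t i else t k := rfl

theorem act_symm_apply (i : ℕ) (t : ℕ → Q) (k : ℕ) :
    (κ.act i)⁻¹ t k =
      if k = i then t (i + 1) else if k = i + 1 then κ.op (t (i + 1)) (t i) else t k := rfl

theorem act_braid (i : ℕ) :
    κ.act i * κ.act (i + 1) * κ.act i = κ.act (i + 1) * κ.act i * κ.act (i + 1) := by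
  apply Equiv.ext
  intro t
  funext k
  show κ.act i (κ.act (i + 1) (κ.act i t)) k = κ.act (i + 1) (κ.act i (κ.act (i + 1) t)) k
  have e1 : (i + 1 + 1 = i) = False := by simp only [eq_iff_iff, iff_false]; omega
  have e2 : (i + 1 = i) = False := by simp
  have e3 : (i = i + 1) = False := by simp
  have e4 : (i = i + 1 + 1) = False := by simp; omega
  have e5 : (i + 1 = i + 1 + 1) = False := by simp
  have e6 : (i + 1 + 1 = i + 1) = False := by simp
  by_cases h1 : k = i
  · subst h1
    simp only [act_apply, if_true, if_false, e1, e2, e3, e4, e5, e6]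
    exact (κ.dist _ _ _).symm
  · by_cases h2 : k = i + 1
    · subst h2
      simp only [act_apply, if_true, if_false, e1, e2, e3, e4, e5, e6]
    · by_cases h3 : k = i + 1 + 1
      · subst h3
        simp only [act_apply, if_true, if_false, e1, e2, e3, e4, e5, e6]
      · simp only [act_apply, h1, h2, h3, if_false]

theorem act_far (i j : ℕ) (h : i + 2 ≤ j) : κ.act i * κ.act j = κ.act j * κ.act i := by
  apply Equiv.ext
  intro t
  funext k
  show κ.act i (κ.act j t) k = κ.act j (κ.act i t) k
  have e1 : (i = j) = False := by simp; omega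
  have e2 : (i = j + 1) = False := by simp; omega
  have e3 : (i + 1 = j) = False := by simp; omega
  have e4 : (i + 1 = j + 1) = False := by simp; omega
  have e5 : (j = i) = False := by simp; omega
  have e6 : (j = i + 1) = False := by simp; omega
  have e7 : (j + 1 = i) = False := by simp; omega
  have e8 : (j + 1 = i + 1) = False := by simp; omega
  by_cases h1 : k = i
  · subst h1
    simp only [act_apply, if_true, if_false, e1, e2, e3, e4, e5, e6, e7, e8]
  · by_cases h2 : k = i + 1
    · subst h2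
      simp only [act_apply, if_true, if_false, e1, e2, e3, e4, e5, e6, e7, e8]
    · by_cases h3 : k = j
      · subst h3
        simp only [act_apply, if_true, if_false, e1, e2, e3, e4, e5, e6, e7, e8]
      · by_cases h4 : k = j + 1
        · subst h4
          simp only [act_apply, if_true, if_false, e1, e2, e3, e4, e5, e6, e7, e8]
        · simp only [act_apply, h1, h2, h3, h4, if_false]

theorem act_rels (n : ℕ) :
    ∀ r ∈ braidRels n, FreeGroup.lift (fun i : Fin (n - 1) => κ.act i) r = 1 := by
  intro r hr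
  rcases hr with ⟨i, j, h, rfl⟩ | ⟨i, j, h, rfl⟩
  · have hb := κ.act_braid (i : ℕ)
    simp only [map_mul, map_inv, FreeGroup.lift_apply_of]
    rw [mul_inv_eq_one, h]
    exact hb
  · have hb := κ.act_far (i : ℕ) (j : ℕ) h
    simp only [map_mul, map_inv, FreeGroup.lift_apply_of]
    rw [mul_inv_eq_one]
    exact hb

/-- the action of `B_n` on tuples -/
def actHom (n : ℕ) : BraidGroup n →* Equiv.Perm (ℕ → Q) :=
  PresentedGroup.toGroup (κ.act_rels n)

theorem actHom_sg (n m : ℕ) (hm : m < n - 1) : κ.actHom n (sg n m) = κ.act m := by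
  unfold sg actHom
  rw [dif_pos hm]
  exact PresentedGroup.toGroup.of (κ.act_rels n)

end Kei

/-- a letter `σ_i` (`true`) or `σ_i⁻¹` (`false`) -/
def letter (n : ℕ) (x : ℕ × Bool) : BraidGroup n := if x.2 then sg n x.1 else (sg n x.1)⁻¹

/-- product of a word -/
def wprod (n : ℕ) (l : List (ℕ × Bool)) : BraidGroup n := (l.map (letter n)).prod

theorem wprod_append (n : ℕ) (l l' : List (ℕ × Bool)) :
    wprod n (l ++ l') = wprod n l * wprod n l' := by
  simp [wprod]

/-- the transpositions of `S_4` as an involutory quandle -/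
def kop (a b : Fin 6) : Fin 6 :=
  (![![0, 2, 1, 3, 5, 4], ![2, 1, 0, 4, 3, 5], ![1, 0, 2, 5, 4, 3], ![0, 4, 5, 3, 1, 2],
    ![5, 3, 2, 1, 4, 0], ![4, 1, 3, 2, 0, 5]] : Fin 6 → Fin 6 → Fin 6) a b

def κ4 : Kei (Fin 6) where
  op := kop
  invol := by decide
  dist := by decide

/-- finite tuples -/
def emb (t : List (Fin 6)) : ℕ → Fin 6 := fun k => t.getD k 0

/-- one letter on finite tuples -/
def stepL (x : ℕ × Bool) (t : List (Fin 6)) : List (Fin 6) :=
  if x.2 then
    (t.set x.1 (kop (t.getD x.1 0) (t.getD (x.1 + 1) 0))).set (x.1 + 1) (t.getD x.1 0)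
  else
    (t.set x.1 (t.getD (x.1 + 1) 0)).set (x.1 + 1) (kop (t.getD (x.1 + 1) 0) (t.getD x.1 0))

theorem stepL_length (x : ℕ × Bool) (t : List (Fin 6)) : (stepL x t).length = t.length := by
  unfold stepL
  split_ifs <;> simp

def evalL (l : List (ℕ × Bool)) (t : List (Fin 6)) : List (Fin 6) := l.foldr stepL t

theorem evalL_length (l : List (ℕ × Bool)) (t : List (Fin 6)) : (evalL l t).length = t.length := by
  induction l with
  | nil => rfl
  | cons a l ih => rw [evalL, List.foldr_cons, stepL_length]; exact ih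

theorem getD_set' (t : List (Fin 6)) (i : ℕ) (a : Fin 6) (k : ℕ) (h : i < t.length) :
    (t.set i a).getD k 0 = if k = i then a else t.getD k 0 := by
  rw [List.getD_eq_getElem?_getD, List.getD_eq_getElem?_getD, List.getElem?_set]
  by_cases hk : i = k
  · subst hk
    simp [h]
  · rw [if_neg hk, if_neg (fun h => hk h.symm)]

theorem act_emb (n : ℕ) (x : ℕ × Bool) (t : List (Fin 6)) (h : x.1 + 1 < t.length)
    (hn : t.length ≤ n) : κ4.actHom n (letter n x) (emb t) = emb (stepL x t) := by
  obtain ⟨i, b⟩ := x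
  have hi : i < n - 1 := by simp at h; omega
  simp only at h
  cases b
  · simp only [letter, Bool.false_eq_true, if_false, map_inv]
    rw [Kei.actHom_sg _ _ _ hi]
    funext k
    rw [Kei.act_symm_apply]
    simp only [emb, stepL, Bool.false_eq_true, if_false]
    rw [getD_set' _ _ _ _ (by simpa using h), getD_set' _ _ _ _ (by omega)]
    by_cases h1 : k = i
    · subst h1; simp
    · by_cases h2 : k = i + 1
      · subst h2; simp [κ4]
      · simp [h1, h2]
  · simp only [letter, if_true]
    rw [Kei.actHom_sg _ _ _ hi]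
    funext k
    rw [Kei.act_apply]
    simp only [emb, stepL, if_true]
    rw [getD_set' _ _ _ _ (by simpa using h), getD_set' _ _ _ _ (by omega)]
    by_cases h1 : k = i
    · subst h1; simp [κ4]
    · by_cases h2 : k = i + 1
      · subst h2; simp
      · simp [h1, h2]

theorem act_wprod (n : ℕ) (l : List (ℕ × Bool)) (t : List (Fin 6))
    (h : ∀ x ∈ l, x.1 + 1 < t.length) (hn : t.length ≤ n) :
    κ4.actHom n (wprod n l) (emb t) = emb (evalL l t) := by
  induction l with
  | nil => simp [wprod, evalL]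
  | cons a l ih =>
    have h1 := ih (fun x hx => h x (List.mem_cons_of_mem _ hx))
    have h2 : wprod n (a :: l) = letter n a * wprod n l := by simp [wprod]
    rw [h2, map_mul, Equiv.Perm.mul_apply, h1, act_emb _ _ _ _ _]
    · rfl
    · rw [evalL_length]; exact h a (by simp)
    · rw [evalL_length]; exact hn

/-- the conjugating element -/
def xw (n : ℕ) : BraidGroup n :=
  (sg n 3 * (sg n 4)⁻¹ ^ 3 * sg n 3) * ((sg n 1)⁻¹ * sg n 0 ^ 3 * (sg n 1)⁻¹)

/-- the kernel element: the commutator of `σ_2` and `x σ_2 x⁻¹` -/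
def w0 (n : ℕ) : BraidGroup n := ⁅sg n 2, xw n * sg n 2 * (xw n)⁻¹⁆

/-- `w0` as a word -/
def w0L : List (ℕ × Bool) :=
  [(2, true), (3, true), (4, false), (4, false), (4, false), (3, true), (1, false), (0, true), (0, true), (0, true), (1, false), (2, true), (1, true), (0, false), (0, false), (0, false), (1, true), (3, false), (4, true), (4, true), (4, true), (3, false), (2, false), (3, true), (4, false), (4, false), (4, false), (3, true), (1, false), (0, true), (0, true), (0, true), (1, false), (2, false), (1, true), (0, false), (0, false), (0, false), (1, true), (3, false), (4, true), (4, true), (4, true), (3, false)]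

theorem w0_eq (n : ℕ) : wprod n w0L = w0 n := by
  have e : ∀ a : BraidGroup n, a ^ 3 = a * (a * a) := by
    intro a; rw [pow_succ, pow_two, mul_assoc]
  simp only [wprod, w0L, List.map_cons, List.map_nil, List.prod_cons, List.prod_nil, letter,
    if_true, Bool.false_eq_true, if_false, w0, xw, commutatorElement_def, e, mul_inv_rev, inv_inv,
    mul_assoc, mul_one]

/-- five tuples of transpositions -/
def tup (p : Fin 5) : List (Fin 6) :=
  (![[3, 0, 0, 0, 0, 2], [0, 3, 0, 0, 0, 2], [0, 0, 3, 0, 0, 2], [0, 0, 0, 3, 0, 2],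
    [0, 0, 0, 0, 3, 2]] : Fin 5 → List (Fin 6)) p

def pX : Fin 5 → Fin 5 := ![0, 3, 1, 2, 4]
def pX' : Fin 5 → Fin 5 := ![0, 2, 3, 1, 4]
def pY : Fin 5 → Fin 5 := ![4, 1, 0, 3, 2]
def pY' : Fin 5 → Fin 5 := ![2, 1, 4, 3, 0]

theorem evX : ∀ p, evalL ((0, true) :: (w0L ++ [(0, false)])) (tup p) = tup (pX p) := by
  decide +kernel

theorem evY : ∀ p, evalL ((3, true) :: (w0L ++ [(3, false)])) (tup p) = tup (pY p) := by
  decide +kernel

theorem tup_length (p : Fin 5) : (tup p).length = 6 := by
  revert p; decide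

theorem emb_tup_inj : Function.Injective (fun p => emb (tup p)) := by
  intro p q h
  have h0 := congrFun h 0
  have h1 := congrFun h 1
  have h2 := congrFun h 2
  have h3 := congrFun h 3
  have h4 := congrFun h 4
  simp only [emb] at h0 h1 h2 h3 h4
  clear h
  revert p q
  decide +kernel

/-- `h` acts on the family of tuples as `A` -/
def Rep {H : Type*} [Group H] (θ : H →* Equiv.Perm (ℕ → Fin 6)) (h : H) (A : Fin 5 → Fin 5) :
    Prop := ∀ v, θ h (emb (tup v)) = emb (tup (A v))

theorem Rep.mul {H : Type*} [Group H] {θ : H →* Equiv.Perm (ℕ → Fin 6)} {g h : H}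
    {A B : Fin 5 → Fin 5}
    (hg : Rep θ g A) (hh : Rep θ h B) : Rep θ (g * h) (fun v => A (B v)) := by
  intro v
  rw [map_mul, Equiv.Perm.mul_apply, hh v, hg]

theorem Rep.inv {H : Type*} [Group H] {θ : H →* Equiv.Perm (ℕ → Fin 6)} {g : H}
    {A B : Fin 5 → Fin 5}
    (hg : Rep θ g A) (hAB : ∀ v, A (B v) = v) : Rep θ g⁻¹ B := by
  intro v
  rw [map_inv, Equiv.Perm.inv_eq_iff_eq, hg, hAB]

/-- elements `X`, `Y` of the normal closure -/
def eX (n : ℕ) : BraidGroup n := sg n 0 * w0 n * (sg n 0)⁻¹
def eY (n : ℕ) : BraidGroup n := sg n 3 * w0 n * (sg n 3)⁻¹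

theorem rep_X (n : ℕ) (hn : 6 ≤ n) : Rep (κ4.actHom n) (eX n) pX := by
  intro v
  have h1 : eX n = wprod n ((0, true) :: (w0L ++ [(0, false)])) := by
    rw [show ((0, true) :: (w0L ++ [(0, false)]) : List (ℕ × Bool)) =
      [(0, true)] ++ w0L ++ [(0, false)] from rfl, wprod_append, wprod_append, w0_eq]
    simp [wprod, letter, eX]
  rw [h1, act_wprod _ _ _ _ (by rw [tup_length]; exact hn), evX]
  rw [tup_length]
  decide

theorem rep_Y (n : ℕ) (hn : 6 ≤ n) : Rep (κ4.actHom n) (eY n) pY := by
  intro v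
  have h1 : eY n = wprod n ((3, true) :: (w0L ++ [(3, false)])) := by
    rw [show ((3, true) :: (w0L ++ [(3, false)]) : List (ℕ × Bool)) =
      [(3, true)] ++ w0L ++ [(3, false)] from rfl, wprod_append, wprod_append, w0_eq]
    simp [wprod, letter, eY]
  rw [h1, act_wprod _ _ _ _ (by rw [tup_length]; exact hn), evY]
  rw [tup_length]
  decide

theorem XX' : ∀ v, pX (pX' v) = v := by decide
theorem YY' : ∀ v, pY (pY' v) = v := by decide

theorem idX : ∀ v, pY (pX (pY' (pY (pX (pY (pY (pX' (pY' (pY' (pX' (pY' v))))))))))) = pX v := by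
  decide
theorem idY : ∀ v, pX (pY (pX' (pX (pY (pX (pX (pY' (pX' (pX' (pY' (pX' v))))))))))) = pY v := by
  decide

/-- the iterated commutator subgroups of a subgroup -/
def DS {H : Type*} [Group H] (N : Subgroup H) : ℕ → Subgroup H
  | 0 => N
  | k + 1 => ⁅DS N k, DS N k⁆

/-- the normal closure of `w0` -/
def N0 (n : ℕ) : Subgroup (BraidGroup n) := Subgroup.normalClosure {w0 n}

instance N0_normal (n : ℕ) : (N0 n).Normal := Subgroup.normalClosure_normal

theorem w0_mem (n : ℕ) : w0 n ∈ N0 n :=
  Subgroup.subset_normalClosure (Set.mem_singleton _)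

theorem eX_mem (n : ℕ) : eX n ∈ N0 n :=
  (N0_normal n).conj_mem _ (w0_mem n) _

theorem eY_mem (n : ℕ) : eY n ∈ N0 n :=
  (N0_normal n).conj_mem _ (w0_mem n) _

theorem perf {H : Type*} [Group H] (θ : H →* Equiv.Perm (ℕ → Fin 6)) (N : Subgroup H) (a b : H)
    (haN : a ∈ N) (hbN : b ∈ N) (ha : Rep θ a pX) (hb : Rep θ b pY) (k : ℕ) :
    ∃ a' ∈ DS N k, ∃ b' ∈ DS N k, Rep θ a' pX ∧ Rep θ b' pY := by
  induction k with
  | zero => exact ⟨a, haN, b, hbN, ha, hb⟩
  | succ k ih =>
    obtain ⟨x, hx, y, hy, rx, ry⟩ := ih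
    have rx' := rx.inv XX'
    have ry' := ry.inv YY'
    refine ⟨⁅y * x * y⁻¹, y * x * y⁆, ?_, ⁅x * y * x⁻¹, x * y * x⁆, ?_, ?_, ?_⟩
    · exact Subgroup.commutator_mem_commutator (mul_mem (mul_mem hy hx) (inv_mem hy))
        (mul_mem (mul_mem hy hx) hy)
    · exact Subgroup.commutator_mem_commutator (mul_mem (mul_mem hx hy) (inv_mem hx))
        (mul_mem (mul_mem hx hy) hx)
    · intro v
      rw [← idX v]
      have := (ry.mul (rx.mul (ry'.mul (ry.mul (rx.mul (ry.mul (ry.mul (rx'.mul
        (ry'.mul (ry'.mul (rx'.mul ry'))))))))))) v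
      rw [← this]
      congr 2
      simp only [commutatorElement_def, mul_inv_rev, inv_inv, mul_assoc]
    · intro v
      rw [← idY v]
      have := (rx.mul (ry.mul (rx'.mul (rx.mul (ry.mul (rx.mul (rx.mul (ry'.mul
        (rx'.mul (rx'.mul (ry'.mul rx'))))))))))) v
      rw [← this]
      congr 2
      simp only [commutatorElement_def, mul_inv_rev, inv_inv, mul_assoc]

/-- the normal closure of `w0` is not solvable: no term of its derived series is trivial -/
theorem N0_not_solvable (n : ℕ) (hn : 6 ≤ n) (k : ℕ) : ¬ DS (N0 n) k ≤ ⊥ := by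
  intro h
  obtain ⟨x, hx, y, hy, rx, ry⟩ := perf (κ4.actHom n) (N0 n) (eX n) (eY n) (eX_mem n) (eY_mem n)
    (rep_X n hn) (rep_Y n hn) k
  have h1 := h hx
  rw [Subgroup.mem_bot] at h1
  have h2 := rx 1
  rw [h1, map_one, Equiv.Perm.one_apply] at h2
  have h3 := emb_tup_inj h2
  revert h3
  decide

end Pool.Agent.H29R2.QD
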