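import Mathlib
import Pool.Agent.Helper950.BG.LA

set_option autoImplicit false

/-! Linear algebra of representations with a perfect normal subgroup. -/

namespace Pool.Agent.H29R2.QD

open Module
open Pool.Agent.Helper950.BG
open scoped commutatorElement

section
variable {K V : Type*} [Field K] [AddCommGroup V] [Module K V] {H : Type*} [Group H]

theorem rho_mul_inv (ρ : H →* Module.End K V) (g : H) : ρ g * ρ g⁻¹ = 1 := by
  rw [← map_mul, mul_inv_cancel, map_one]

theorem rho_inv_mul (ρ : H →* Module.End K V) (g : H) : ρ g⁻¹ * ρ g = 1 := by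
  rw [← map_mul, inv_mul_cancel, map_one]

/-- a unipotent action (of length two) of a perfect group on the image of `T` is trivial -/
theorem perf_triv (ρ : H →* Module.End K V) (D : Subgroup H) (hD : ⁅D, D⁆ = D)
    (T : Module.End K V) (hT : ∀ g, T * ρ g = ρ g * T)
    (h : ∀ g ∈ D, ∀ k ∈ D, (ρ g - 1) * (ρ k - 1) * T = 0) : ∀ g ∈ D, (ρ g - 1) * T = 0 := by
  let S : Subgroup H :=
    { carrier := {g | ρ g * T = T}
      mul_mem' := by
        intro a b ha hb
        have ha' : ρ a * T = T := ha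
        have hb' : ρ b * T = T := hb
        show ρ (a * b) * T = T
        rw [map_mul, mul_assoc, hb', ha']
      one_mem' := by
        show ρ 1 * T = T
        rw [map_one, one_mul]
      inv_mem' := by
        intro a ha
        have ha' : ρ a * T = T := ha
        show ρ a⁻¹ * T = T
        conv_lhs => rw [← ha', ← mul_assoc, rho_inv_mul, one_mul] }
  have h1 : D ≤ S := by
    rw [← hD, Subgroup.commutator_le]
    intro g hg k hk
    show ρ ⁅g, k⁆ * T = T
    have e1 : ρ g * ρ k * T = ρ k * ρ g * T := by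
      have a1 := h g hg k hk
      have a2 := h k hk g hg
      have b1 : (ρ g - 1) * (ρ k - 1) * T = ρ g * ρ k * T - ρ g * T - ρ k * T + T := by
        noncomm_ring
      have b2 : (ρ k - 1) * (ρ g - 1) * T = ρ k * ρ g * T - ρ k * T - ρ g * T + T := by
        noncomm_ring
      have h3 : ρ g * ρ k * T - ρ g * T - ρ k * T + T =
          ρ k * ρ g * T - ρ k * T - ρ g * T + T := by rw [← b1, ← b2, a1, a2]
      calc ρ g * ρ k * T = (ρ g * ρ k * T - ρ g * T - ρ k * T + T) + ρ g * T + ρ k * T - T := by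
            abel
        _ = (ρ k * ρ g * T - ρ k * T - ρ g * T + T) + ρ g * T + ρ k * T - T := by rw [h3]
        _ = ρ k * ρ g * T := by abel
    have e2 : ⁅g, k⁆ = g * k * (k * g)⁻¹ := by rw [commutatorElement_def]; group
    have e3 : ρ ((k * g)⁻¹) * T = T * ρ ((k * g)⁻¹) := (hT _).symm
    rw [e2, map_mul, mul_assoc, e3, ← mul_assoc, map_mul, e1, ← map_mul, mul_assoc, hT,
      ← mul_assoc, rho_mul_inv, one_mul]
  intro g hg
  have h2 : ρ g * T = T := h1 hg
  rw [sub_mul, one_mul, h2, sub_self]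

/-- version with `T = 1` -/
theorem perf_triv' (ρ : H →* Module.End K V) (D : Subgroup H) (hD : ⁅D, D⁆ = D)
    (h : ∀ g ∈ D, ∀ k ∈ D, (ρ g - 1) * (ρ k - 1) = 0) : D ≤ ρ.ker := by
  intro g hg
  have := perf_triv ρ D hD 1 (by intro g; rw [one_mul, mul_one])
    (by intro g hg k hk; rw [mul_one]; exact h g hg k hk) g hg
  rw [mul_one, sub_eq_zero] at this
  exact this

theorem triv_apply (ρ : H →* Module.End K V) {g : H} (hg : g ∈ ρ.ker) (v : V) : ρ g v = v := by
  rw [MonoidHom.mem_ker] at hg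
  rw [hg]; rfl

/-- triviality on a subrepresentation and on the quotient implies triviality -/
theorem perf_split (ρ : H →* Module.End K V) (D : Subgroup H) (hD : ⁅D, D⁆ = D)
    (W : Submodule K V) (hW : ∀ g, ∀ v ∈ W, ρ g v ∈ W)
    (h1 : D ≤ (restr ρ W hW).ker) (h2 : D ≤ (quo ρ W hW).ker) : D ≤ ρ.ker := by
  apply perf_triv' ρ D hD
  intro g hg k hk
  ext v
  have a1 : ρ k v - v ∈ W := by
    have h3 := triv_apply _ (h2 hk) (W.mkQ v)
    have h4 : W.mkQ (ρ k v) = W.mkQ v := h3
    rw [← sub_eq_zero, ← map_sub] at h4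
    exact (Submodule.Quotient.mk_eq_zero W).1 h4
  have a2 := triv_apply _ (h1 hg) (⟨ρ k v - v, a1⟩ : W)
  have a3 : ρ g (ρ k v - v) = ρ k v - v := congrArg Subtype.val a2
  show ρ g (ρ k v - v) - (ρ k v - v) = 0
  rw [a3, sub_self]

/-- pairs of commuting perfect groups -/
theorem pair_ext {G : Type*} [Group G] (ρ : G →* Module.End K V) (τ : H →* Module.End K V)
    (hc : ∀ g h, ρ g * τ h = τ h * ρ g) (D : Subgroup G) (hD : ⁅D, D⁆ = D)
    (E : Subgroup H) (hE : ⁅E, E⁆ = E) (W : Submodule K V)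
    (h1 : ∀ g ∈ D, ∀ h ∈ E, ∀ w ∈ W, ((ρ g - 1) * (τ h - 1)) w = 0)
    (h2 : ∀ g ∈ D, ∀ h ∈ E, ∀ v, ((ρ g - 1) * (τ h - 1)) v ∈ W) :
    ∀ g ∈ D, ∀ h ∈ E, (ρ g - 1) * (τ h - 1) = 0 := by
  have cc : ∀ g h, (ρ g - 1) * (τ h - 1) = (τ h - 1) * (ρ g - 1) := by
    intro g h
    have : (ρ g - 1) * (τ h - 1) = ρ g * τ h - ρ g - τ h + 1 := by noncomm_ring
    rw [this, hc]; noncomm_ring
  have A : ∀ g1 ∈ D, ∀ g2 ∈ D, ∀ e1 ∈ E, ∀ e2 ∈ E,
      (ρ g1 - 1) * (ρ g2 - 1) * ((τ e1 - 1) * (τ e2 - 1)) = 0 := by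
    intro g1 hg1 g2 hg2 e1 he1 e2 he2
    have : (ρ g1 - 1) * (ρ g2 - 1) * ((τ e1 - 1) * (τ e2 - 1)) =
        ((ρ g1 - 1) * (τ e1 - 1)) * ((ρ g2 - 1) * (τ e2 - 1)) := by
      rw [mul_assoc, ← mul_assoc (ρ g2 - 1), cc g2 e1]; simp only [mul_assoc]
    rw [this]
    ext v
    exact h1 g1 hg1 e1 he1 _ (h2 g2 hg2 e2 he2 v)
  have B : ∀ e1 ∈ E, ∀ e2 ∈ E, ∀ g ∈ D, (ρ g - 1) * ((τ e1 - 1) * (τ e2 - 1)) = 0 := by
    intro e1 he1 e2 he2
    apply perf_triv ρ D hD
    · intro g
      have : ((τ e1 - 1) * (τ e2 - 1)) * ρ g =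
          τ e1 * (τ e2 * ρ g) - τ e1 * ρ g - τ e2 * ρ g + ρ g := by noncomm_ring
      rw [this, ← hc g e2, ← mul_assoc, ← hc g e1]; noncomm_ring
    · intro g hg k hk
      exact A g hg k hk e1 he1 e2 he2
  intro g hg h hh
  rw [cc]
  apply perf_triv τ E hE (ρ g - 1)
  · intro h
    rw [sub_mul, mul_sub, hc]; simp
  · intro e1 he1 e2 he2
    have := B e1 he1 e2 he2 g hg
    have e : (τ e1 - 1) * (τ e2 - 1) * (ρ g - 1) = (ρ g - 1) * ((τ e1 - 1) * (τ e2 - 1)) := by
      rw [mul_assoc, ← cc, ← mul_assoc, ← cc, mul_assoc]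
    rw [e, this]
  · exact hh

/-- generalised version of `ns_split` for the iterated commutators of a subgroup -/
theorem seq_split (D : ℕ → Subgroup H) (hD : ∀ k, D (k + 1) = ⁅D k, D k⁆)
    (hanti : ∀ k, D (k + 1) ≤ D k)
    (ρ : H →* Module.End K V) (W : Submodule K V)
    (hW : ∀ g, ∀ v ∈ W, ρ g v ∈ W) (h : ∀ k, ¬ D k ≤ ρ.ker) :
    (∀ k, ¬ D k ≤ (restr ρ W hW).ker) ∨ (∀ k, ¬ D k ≤ (quo ρ W hW).ker) := by
  by_contra hcon
  push Not at hcon
  obtain ⟨⟨a, ha⟩, ⟨b, hb⟩⟩ := hcon
  have anti : Antitone D := antitone_nat_of_succ_le hanti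
  have ha' : D (max a b) ≤ (restr ρ W hW).ker := (anti (le_max_left a b)).trans ha
  have hb' : D (max a b) ≤ (quo ρ W hW).ker := (anti (le_max_right a b)).trans hb
  apply h (max a b + 1)
  rw [hD, Subgroup.commutator_le]
  have k1 : ∀ g ∈ D (max a b), ∀ w ∈ W, ρ g w = w := by
    intro g hg w hw
    have := triv_apply _ (ha' hg) (⟨w, hw⟩ : W)
    exact congrArg Subtype.val this
  have k2 : ∀ g ∈ D (max a b), ∀ v : V, ρ g v - v ∈ W := by
    intro g hg v
    have h3 := triv_apply _ (hb' hg) (W.mkQ v)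
    have h4 : W.mkQ (ρ g v) = W.mkQ v := h3
    rw [← sub_eq_zero, ← map_sub] at h4
    exact (Submodule.Quotient.mk_eq_zero W).1 h4
  intro g hg k hk
  rw [MonoidHom.mem_ker]
  apply comm_ker
  ext v
  have e1 : ρ g (ρ k v) = ρ g v + (ρ k v - v) := by
    have : ρ k v = v + (ρ k v - v) := by abel
    conv_lhs => rw [this]
    rw [map_add, k1 g hg _ (k2 k hk v)]
  have e2 : ρ k (ρ g v) = ρ k v + (ρ g v - v) := by
    have : ρ g v = v + (ρ g v - v) := by abel
    conv_lhs => rw [this]
    rw [map_add, k1 k hk _ (k2 g hg v)]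
  rw [Module.End.mul_apply, Module.End.mul_apply, e1, e2]
  abel

/-- Schur's lemma on a minimal invariant subspace -/
theorem schur [IsAlgClosed K] [FiniteDimensional K V] (ρ : H →* Module.End K V)
    (U : Submodule K V) (hU : ∀ g, ∀ v ∈ U, ρ g v ∈ U) (hU0 : U ≠ ⊥)
    (hmin : ∀ W : Submodule K V, W ≤ U → (∀ g, ∀ v ∈ W, ρ g v ∈ W) → W = ⊥ ∨ W = U)
    (T : Module.End K U) (hT : ∀ g (u : U), ((T ⟨ρ g u, hU g u u.2⟩ : U) : V) = ρ g (T u)) :
    ∃ c : K, ∀ u, T u = c • u := by
  haveI : Nontrivial U := Submodule.nontrivial_iff_ne_bot.mpr hU0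
  obtain ⟨c, hc⟩ := Module.End.exists_eigenvalue T
  obtain ⟨u, hu⟩ := hc.exists_hasEigenvector
  refine ⟨c, ?_⟩
  have hW := hmin ((LinearMap.ker (T - c • 1)).map U.subtype) (Submodule.map_subtype_le _ _) (by
    rintro g v ⟨w, hw, rfl⟩
    refine ⟨⟨ρ g w, hU g w w.2⟩, ?_, rfl⟩
    have h2 : T w - c • w = 0 := hw
    show T ⟨ρ g w, hU g w w.2⟩ - c • (⟨ρ g w, hU g w w.2⟩ : U) = 0
    rw [sub_eq_zero] at h2 ⊢
    apply Subtype.ext
    rw [hT g w, h2]
    simp)
  rcases hW with h | h
  · exfalso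
    have h3 : (u : V) ∈ (LinearMap.ker (T - c • 1)).map U.subtype := by
      refine ⟨u, ?_, rfl⟩
      show T u - c • u = 0
      rw [hu.apply_eq_smul, sub_self]
    rw [h, Submodule.mem_bot] at h3
    exact hu.2 (Subtype.ext h3)
  · intro w
    have h3 : (w : V) ∈ (LinearMap.ker (T - c • 1)).map U.subtype := by rw [h]; exact w.2
    obtain ⟨w', hw', hww⟩ := h3
    have h4 : w' = w := Subtype.ext hww
    rw [h4] at hw'
    have : T w - c • w = 0 := hw'
    exact sub_eq_zero.1 this

/-- linearly independent equivariant maps have independent images -/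
theorem homU_indep [IsAlgClosed K] [FiniteDimensional K V] (ρ : H →* Module.End K V)
    (U : Submodule K V) (hU : ∀ g, ∀ v ∈ U, ρ g v ∈ U) (hU0 : U ≠ ⊥)
    (hmin : ∀ W : Submodule K V, W ≤ U → (∀ g, ∀ v ∈ W, ρ g v ∈ W) → W = ⊥ ∨ W = U) :
    ∀ (m : ℕ) (f : Fin m → (U →ₗ[K] V)) (_ : ∀ j, f j ∈ HomU ρ U hU)
      (_ : LinearIndependent K f) (u : Fin m → U), ∑ j, f j (u j) = 0 → u = 0 := by
  intro m
  induction m with
  | zero => intro f _ _ u _; exact Subsingleton.elim _ _
  | succ m ih =>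
    intro f hf hli u hu
    have hli' : LinearIndependent K (fun j : Fin m => f j.castSucc) :=
      hli.comp _ (Fin.castSucc_injective m)
    have ih' := ih (fun j => f j.castSucc) (fun j => hf _) hli'
    let L : (Fin m → U) →ₗ[K] V := ∑ j, (f j.castSucc).comp (LinearMap.proj j)
    have hL : ∀ w, L w = ∑ j, f j.castSucc (w j) := by
      intro w; simp [L, LinearMap.sum_apply]
    have hLinj : Function.Injective L := by
      rw [injective_iff_map_eq_zero]
      intro w hw
      rw [hL] at hw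
      exact ih' w hw
    have hLρ : ∀ g (w : Fin m → U), ρ g (L w) = L (fun j => ⟨ρ g (w j), hU g _ (w j).2⟩) := by
      intro g w
      rw [hL, hL, map_sum]
      apply Finset.sum_congr rfl
      intro j _
      exact (hf j.castSucc g (w j)).symm
    -- the submodule of vectors whose image under the last map is in the range of `L`
    let W : Submodule K V := ((LinearMap.range L).comap (f (Fin.last m))).map U.subtype
    have hWU : W ≤ U := Submodule.map_subtype_le _ _
    have hWinv : ∀ g, ∀ v ∈ W, ρ g v ∈ W := by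
      rintro g v ⟨w, hw, rfl⟩
      obtain ⟨z, hz⟩ := hw
      refine ⟨⟨ρ g w, hU g w w.2⟩, ?_, rfl⟩
      refine ⟨fun j => ⟨ρ g (z j), hU g _ (z j).2⟩, ?_⟩
      rw [← hLρ, hz, hf (Fin.last m) g w]
    have hsum : ∑ j : Fin m, f j.castSucc (u j.castSucc) + f (Fin.last m) (u (Fin.last m)) = 0 := by
      rw [← Fin.sum_univ_castSucc (fun j => f j (u j))]; exact hu
    rcases hmin W hWU hWinv with hW | hW
    · -- last component is zero
      have h1 : (u (Fin.last m) : V) ∈ W := by
        refine ⟨u (Fin.last m), ?_, rfl⟩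
        refine ⟨fun j => - u j.castSucc, ?_⟩
        rw [hL]
        simp only [map_neg, Finset.sum_neg_distrib]
        rw [neg_eq_iff_add_eq_zero]
        exact hsum
      rw [hW, Submodule.mem_bot] at h1
      have h2 : u (Fin.last m) = 0 := Subtype.ext h1
      rw [h2, map_zero, add_zero] at hsum
      have h3 := ih' _ hsum
      funext j
      refine Fin.lastCases ?_ (fun i => ?_) j
      · exact h2
      · exact congrFun h3 i
    · -- all images in the range: contradiction
      exfalso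
      have hle : ∀ w : U, f (Fin.last m) w ∈ LinearMap.range L := by
        intro w
        have : (w : V) ∈ W := by rw [hW]; exact w.2
        obtain ⟨w', hw', he⟩ := this
        have : w' = w := Subtype.ext he
        rw [← this]; exact hw'
      let e := LinearEquiv.ofInjective L hLinj
      let T : U →ₗ[K] (Fin m → U) :=
        e.symm.toLinearMap ∘ₗ ((f (Fin.last m)).codRestrict (LinearMap.range L) hle)
      have hT : ∀ w, L (T w) = f (Fin.last m) w := by
        intro w
        have h5 : e (T w) = (f (Fin.last m)).codRestrict (LinearMap.range L) hle w := by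
          change e (e.symm _) = _
          rw [LinearEquiv.apply_symm_apply]
        have h6 := congrArg Subtype.val h5
        rw [LinearMap.codRestrict_apply] at h6
        rw [← h6]; rfl
      have hTe : ∀ g (w : U), T ⟨ρ g w, hU g w w.2⟩ = fun j => ⟨ρ g (T w j), hU g _ (T w j).2⟩ := by
        intro g w
        apply hLinj
        rw [hT, ← hLρ, hT]
        exact hf (Fin.last m) g w
      have hsc : ∀ j : Fin m, ∃ c : K, ∀ w, T w j = c • w := by
        intro j
        apply schur ρ U hU hU0 hmin ((LinearMap.proj j).comp T)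
        intro g w
        show ((T ⟨ρ g w, hU g w w.2⟩ j : U) : V) = ρ g (T w j)
        rw [hTe g w]
      choose c hc using hsc
      have hlast : f (Fin.last m) = ∑ j : Fin m, c j • f j.castSucc := by
        ext w
        rw [← hT w, hL]
        rw [LinearMap.sum_apply]
        apply Finset.sum_congr rfl
        intro j _
        rw [hc j w, map_smul, LinearMap.smul_apply]
      have h7 := Fintype.linearIndependent_iff.1 hli (Fin.lastCases (-1) c) (by
        rw [Fin.sum_univ_castSucc]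
        simp only [Fin.lastCases_castSucc, Fin.lastCases_last]
        rw [← hlast]; simp) (Fin.last m)
      rw [Fin.lastCases_last] at h7
      exact one_ne_zero (neg_eq_zero.1 h7)

theorem finrank_mul_homU [IsAlgClosed K] [FiniteDimensional K V] (ρ : H →* Module.End K V)
    (U : Submodule K V) (hU : ∀ g, ∀ v ∈ U, ρ g v ∈ U) (hU0 : U ≠ ⊥)
    (hmin : ∀ W : Submodule K V, W ≤ U → (∀ g, ∀ v ∈ W, ρ g v ∈ W) → W = ⊥ ∨ W = U) :
    finrank K U * finrank K (HomU ρ U hU) ≤ finrank K V := by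
  set m := finrank K (HomU ρ U hU) with hm
  let b := finBasis K (HomU ρ U hU)
  let f : Fin m → (U →ₗ[K] V) := fun j => (b j : U →ₗ[K] V)
  have hf : ∀ j, f j ∈ HomU ρ U hU := fun j => (b j).2
  have hli : LinearIndependent K f :=
    b.linearIndependent.map' (HomU ρ U hU).subtype (Submodule.ker_subtype _)
  let L : (Fin m → U) →ₗ[K] V := ∑ j, (f j).comp (LinearMap.proj j)
  have hL : Function.Injective L := by
    rw [injective_iff_map_eq_zero]
    intro w hw
    apply homU_indep ρ U hU hU0 hmin m f hf hli w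
    rw [← hw]
    simp [L, LinearMap.sum_apply]
  have h1 := LinearMap.finrank_le_finrank_of_injective hL
  rw [finrank_pi_fintype, Finset.sum_const, Finset.card_univ, Fintype.card_fin, smul_eq_mul,
    mul_comm] at h1
  exact h1

end

end Pool.Agent.H29R2.QD
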