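import Mathlib
import Pool.Agent.Helper950.BG.Grp

set_option autoImplicit false

/-! Group theory of the braid group: rotation element, block homomorphisms, perfectness. -/

namespace Pool.Agent.H29R2.QD

open Pool.Agent.Helper950.BG
open scoped commutatorElement

theorem sg_comm (n i j : ℕ) (h : i + 2 ≤ j ∨ j + 2 ≤ i) : Commute (sg n i) (sg n j) := by
  rcases h with h | h
  · exact sg_far n i j h
  · exact (sg_far n j i h).symm

/-- `σ_0 σ_1 ⋯ σ_{k-1}` -/
def dl (n : ℕ) : ℕ → BraidGroup n
  | 0 => 1
  | k + 1 => dl n k * sg n k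

theorem dl_far (n k l : ℕ) (h : k + 1 ≤ l) : Commute (dl n k) (sg n l) := by
  induction k with
  | zero => exact Commute.one_left _
  | succ k ih => exact (ih (by omega)).mul_left (sg_far n k l (by omega))

theorem dl_shift (n : ℕ) : ∀ k i : ℕ, k ≤ n - 1 → i + 1 < k →
    dl n k * sg n i = sg n (i + 1) * dl n k := by
  intro k
  induction k with
  | zero => intro i _ h; omega
  | succ k ih =>
    intro i hk hi
    by_cases h : i + 1 < k
    · have h1 := ih i (by omega) h
      have h2 : Commute (sg n i) (sg n k) := sg_far n i k (by omega)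
      calc dl n (k + 1) * sg n i = dl n k * (sg n k * sg n i) := by simp only [dl, mul_assoc]
        _ = dl n k * (sg n i * sg n k) := by rw [h2.eq]
        _ = (dl n k * sg n i) * sg n k := by rw [mul_assoc]
        _ = sg n (i + 1) * (dl n k * sg n k) := by rw [h1, mul_assoc]
    · have hki : k = i + 1 := by omega
      subst hki
      have h2 := sg_braid n i (by omega)
      have h3 : Commute (dl n i) (sg n (i + 1)) := dl_far n i (i + 1) le_rfl
      calc dl n (i + 1 + 1) * sg n i = dl n i * (sg n i * sg n (i + 1) * sg n i) := by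
            simp only [dl, mul_assoc]
        _ = dl n i * sg n (i + 1) * (sg n i * sg n (i + 1)) := by rw [h2]; simp only [mul_assoc]
        _ = sg n (i + 1) * dl n i * (sg n i * sg n (i + 1)) := by rw [h3.eq]
        _ = sg n (i + 1) * dl n (i + 1 + 1) := by simp only [dl, mul_assoc]

theorem dl_sq (n : ℕ) : ∀ k : ℕ, k + 1 ≤ n - 1 →
    dl n (k + 1) * dl n (k + 1) * sg n k = sg n 0 * (dl n (k + 1) * dl n (k + 1)) := by
  intro k
  induction k with
  | zero => intro _; simp [dl, mul_assoc]
  | succ k ih =>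
    intro hk
    have h1 := ih (by omega)
    have h2 := sg_braid n k (by omega)
    have h3 : Commute (dl n k) (sg n (k + 1)) := dl_far n k (k + 1) le_rfl
    have e : dl n (k + 1 + 1) * dl n (k + 1 + 1) =
        dl n (k + 1) * dl n (k + 1) * (sg n (k + 1) * sg n k) := by
      calc dl n (k + 1 + 1) * dl n (k + 1 + 1)
          = dl n (k + 1) * (sg n (k + 1) * dl n k) * (sg n k * sg n (k + 1)) := by
            simp only [dl, mul_assoc]
        _ = dl n (k + 1) * (dl n k * sg n (k + 1)) * (sg n k * sg n (k + 1)) := by rw [h3.eq]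
        _ = dl n (k + 1) * dl n k * (sg n (k + 1) * sg n k * sg n (k + 1)) := by
            simp only [mul_assoc]
        _ = dl n (k + 1) * dl n k * (sg n k * sg n (k + 1) * sg n k) := by rw [h2]
        _ = dl n (k + 1) * dl n (k + 1) * (sg n (k + 1) * sg n k) := by
            simp only [dl, mul_assoc]
    calc dl n (k + 1 + 1) * dl n (k + 1 + 1) * sg n (k + 1)
        = dl n (k + 1) * dl n (k + 1) * (sg n (k + 1) * sg n k * sg n (k + 1)) := by
          rw [e]; simp only [mul_assoc]
      _ = dl n (k + 1) * dl n (k + 1) * sg n k * (sg n (k + 1) * sg n k) := by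
          rw [← h2]; simp only [mul_assoc]
      _ = sg n 0 * (dl n (k + 1) * dl n (k + 1) * (sg n (k + 1) * sg n k)) := by
          rw [h1]; simp only [mul_assoc]
      _ = sg n 0 * (dl n (k + 1 + 1) * dl n (k + 1 + 1)) := by rw [e]

/-- the rotation -/
def dd (n : ℕ) : BraidGroup n := dl n (n - 1)

theorem dd_shift (n i : ℕ) (h : i + 1 < n - 1) : dd n * sg n i = sg n (i + 1) * dd n :=
  dl_shift n (n - 1) i le_rfl h

theorem dd_sq (n : ℕ) (h : 2 ≤ n) :
    dd n * dd n * sg n (n - 2) = sg n 0 * (dd n * dd n) := by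
  have h1 := dl_sq n (n - 2) (by omega)
  rw [show n - 2 + 1 = n - 1 by omega] at h1
  exact h1

/-- cyclic generators -/
def sc (n : ℕ) (a : ℤ) : BraidGroup n := dd n ^ a * sg n 0 * dd n ^ (-a)

theorem sc_zero (n : ℕ) : sc n 0 = sg n 0 := by simp [sc]

theorem sc_conj (n : ℕ) (a b : ℤ) : dd n ^ b * sc n a * dd n ^ (-b) = sc n (a + b) := by
  unfold sc
  rw [add_comm, neg_add, zpow_add, zpow_add]
  have : dd n ^ (-b) * dd n ^ (-a) = dd n ^ (-a) * dd n ^ (-b) := by
    rw [← zpow_add, ← zpow_add, add_comm]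
  rw [this]
  simp only [mul_assoc]

theorem sc_nat (n : ℕ) (i : ℕ) (h : i < n - 1) : sc n i = sg n i := by
  induction i with
  | zero => simp [sc]
  | succ i ih =>
    have h1 := ih (by omega)
    have h2 := dd_shift n i h
    have h3 := sc_conj n i 1
    rw [zpow_neg, zpow_one] at h3
    push_cast
    rw [← h3, h1, h2, mul_inv_cancel_right]

theorem sc_period (n : ℕ) (hn : 2 ≤ n) (a : ℤ) : sc n (a + n) = sc n a := by
  have h1 : sc n ((n : ℤ) - 2) = sg n (n - 2) := by
    have := sc_nat n (n - 2) (by omega)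
    rw [← this]
    congr 1
    omega
  have h2 : sc n (n : ℤ) = sg n 0 := by
    have h3 := sc_conj n ((n : ℤ) - 2) 2
    rw [h1, sub_add_cancel, zpow_neg] at h3
    have e : dd n ^ (2 : ℤ) = dd n * dd n := by
      rw [show (2 : ℤ) = 1 + 1 by norm_num, zpow_add, zpow_one]
    rw [e, dd_sq n hn] at h3
    rw [← h3, mul_inv_cancel_right]
  have h4 := sc_conj n (n : ℤ) a
  have h5 := sc_conj n 0 a
  rw [h2] at h4
  rw [sc_zero, zero_add] at h5
  rw [add_comm, ← h4, h5]

theorem sc_mod (n : ℕ) (hn : 2 ≤ n) (a : ℤ) : sc n (a % n) = sc n a := by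
  have h : ∀ (k : ℕ) (b : ℤ), sc n (b + k * n) = sc n b := by
    intro k
    induction k with
    | zero => intro b; simp
    | succ k ih =>
      intro b
      have : b + ((k + 1 : ℕ) : ℤ) * n = (b + k * n) + n := by push_cast; ring
      rw [this, sc_period n hn, ih]
  have h' : ∀ (k : ℤ) (b : ℤ), sc n (b + k * n) = sc n b := by
    intro k b
    rcases Int.eq_nat_or_neg k with ⟨m, rfl | rfl⟩
    · exact h m b
    · have := h m (b + -(m : ℤ) * n)
      rw [← this]
      congr 1
      ring
  have := h' (a / n) (a % n)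
  rw [← this]
  congr 1
  rw [mul_comm]
  exact Int.emod_add_mul_ediv a n

/-- commutation of the cyclic generators -/
theorem sc_comm (n : ℕ) (a b : ℤ) (d : ℕ) (hd : 2 ≤ d) (hd' : d + 2 ≤ n) (h : b = a + d) :
    Commute (sc n a) (sc n b) := by
  have h1 : Commute (sc n 0) (sc n d) := by
    rw [sc_zero, sc_nat n d (by omega)]
    exact sg_far n 0 d (by omega)
  have h2 := sc_conj n 0 a
  have h3 := sc_conj n d a
  rw [zero_add] at h2
  rw [h, add_comm a, ← h3, ← h2]
  show _ * _ = _ * _
  rw [zpow_neg]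
  calc dd n ^ a * sc n 0 * (dd n ^ a)⁻¹ * (dd n ^ a * sc n d * (dd n ^ a)⁻¹)
      = dd n ^ a * (sc n 0 * sc n d) * (dd n ^ a)⁻¹ := by group
    _ = dd n ^ a * (sc n d * sc n 0) * (dd n ^ a)⁻¹ := by rw [h1.eq]
    _ = dd n ^ a * sc n d * (dd n ^ a)⁻¹ * (dd n ^ a * sc n 0 * (dd n ^ a)⁻¹) := by group

/-- braid relation for the cyclic generators -/
theorem sc_braid (n : ℕ) (hn : 3 ≤ n) (a : ℤ) :
    sc n a * sc n (a + 1) * sc n a = sc n (a + 1) * sc n a * sc n (a + 1) := by
  have h1 : sc n 0 * sc n (0 + 1) * sc n 0 = sc n (0 + 1) * sc n 0 * sc n (0 + 1) := by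
    have e : sc n (0 + 1) = sg n 1 := by
      have := sc_nat n 1 (by omega)
      rw [← this]; norm_num
    rw [e, sc_zero]
    exact sg_braid n 0 (by omega)
  have h2 := sc_conj n 0 a
  have h3 := sc_conj n (0 + 1) a
  rw [zero_add] at h2
  rw [zero_add, add_comm 1 a] at h3
  rw [zero_add] at h1
  rw [← h2, ← h3, zpow_neg]
  calc dd n ^ a * sc n 0 * (dd n ^ a)⁻¹ * (dd n ^ a * sc n 1 * (dd n ^ a)⁻¹) *
        (dd n ^ a * sc n 0 * (dd n ^ a)⁻¹)
      = dd n ^ a * (sc n 0 * sc n 1 * sc n 0) * (dd n ^ a)⁻¹ := by group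
    _ = dd n ^ a * (sc n 1 * sc n 0 * sc n 1) * (dd n ^ a)⁻¹ := by rw [h1]
    _ = _ := by group

/-- every cyclic generator is a standard generator or `δ⁻¹ σ_0 δ` -/
theorem sc_cases (n : ℕ) (hn : 2 ≤ n) (a : ℤ) :
    (∃ r : ℕ, r < n - 1 ∧ sc n a = sg n r) ∨ sc n a = (dd n)⁻¹ * sg n 0 * dd n := by
  have h0 : 0 ≤ a % n := Int.emod_nonneg _ (by omega)
  have h1 : a % n < n := Int.emod_lt_of_pos _ (by omega)
  obtain ⟨r, hr⟩ := Int.eq_ofNat_of_zero_le h0
  rw [hr] at h1
  by_cases h : r < n - 1
  · left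
    refine ⟨r, h, ?_⟩
    rw [← sc_mod n hn a, hr, sc_nat n r h]
  · right
    have hrn : r = n - 1 := by omega
    have : ((n - 1 : ℕ) : ℤ) = -1 + n := by omega
    rw [← sc_mod n hn a, hr, hrn]
    show sc n ((n - 1 : ℕ) : ℤ) = _
    rw [this, sc_period n hn (-1)]
    simp [sc]

/-- generation by `σ_0` and `δ` -/
theorem gen_top (n : ℕ) (S : Subgroup (BraidGroup n)) (h : ∀ i, i < n - 1 → sg n i ∈ S) :
    ∀ g, g ∈ S := by
  intro g
  have : Subgroup.closure (Set.range (PresentedGroup.of (rels := braidRels n))) ≤ S := by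
    rw [Subgroup.closure_le]
    rintro _ ⟨i, rfl⟩
    have := h i i.2
    unfold sg at this
    rw [dif_pos i.2] at this
    exact this
  rw [PresentedGroup.closure_range_of] at this
  exact this (Subgroup.mem_top g)

theorem hom_ext {n : ℕ} {M : Type*} [Monoid M] (f g : BraidGroup n →* M)
    (h : ∀ i, i < n - 1 → f (sg n i) = g (sg n i)) : f = g := by
  have h1 : ∀ x, x ∈ f.eqLocus g := gen_top n (f.eqLocus g) h
  exact MonoidHom.ext h1

/-- block embedding `σ_i ↦ σ_{i+a}` -/
def sh {n m : ℕ} (a : ℕ) (h : a + m ≤ n) : BraidGroup m →* BraidGroup n :=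
  PresentedGroup.toGroup (f := fun i : Fin (m - 1) => sg n (i + a)) (by
    intro r hr
    rcases hr with ⟨i, j, hij, rfl⟩ | ⟨i, j, hij, rfl⟩
    · have hi := i.2
      have hj := j.2
      simp only [map_mul, map_inv, FreeGroup.lift_apply_of]
      rw [mul_inv_eq_one, hij, show (i : ℕ) + 1 + a = i + a + 1 by omega]
      exact sg_braid n (i + a) (by omega)
    · simp only [map_mul, map_inv, FreeGroup.lift_apply_of]
      rw [mul_inv_eq_one]
      exact (sg_far n (i + a) (j + a) (by omega)).eq)

theorem sh_sg {n m a : ℕ} (h : a + m ≤ n) (i : ℕ) (hi : i < m - 1) :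
    sh a h (sg m i) = sg n (i + a) := by
  unfold sh
  have e : sg m i = PresentedGroup.of ⟨i, hi⟩ := by unfold sg; rw [dif_pos hi]
  rw [e, PresentedGroup.toGroup.of]

/-- an element commuting with all generators of the block commutes with the block -/
theorem sh_commute {n m a : ℕ} (h : a + m ≤ n) (x : BraidGroup n)
    (hx : ∀ i, i < m - 1 → Commute x (sg n (i + a))) (g : BraidGroup m) :
    Commute x (sh a h g) := by
  have : ∀ g : BraidGroup m, g ∈ (Subgroup.centralizer {x}).comap (sh a h) := by
    apply gen_top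
    intro i hi
    rw [Subgroup.mem_comap, sh_sg h i hi, Subgroup.mem_centralizer_singleton_iff]
    exact (hx i hi).eq.symm
  have h1 := this g
  rw [Subgroup.mem_comap, Subgroup.mem_centralizer_singleton_iff] at h1
  exact h1.symm

theorem sh_sh_commute {n m m' a b : ℕ} (h : a + m ≤ n) (h' : b + m' ≤ n) (hab : a + m ≤ b)
    (g : BraidGroup m) (g' : BraidGroup m') : Commute (sh a h g) (sh b h' g') := by
  apply sh_commute
  intro i hi
  apply Commute.symm
  apply sh_commute
  intro j hj
  exact sg_comm n _ _ (by omega)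

/-- conjugation of blocks -/
theorem sh_conj {n m a b : ℕ} (h : a + m ≤ n) (h' : b + m ≤ n) (x : BraidGroup n)
    (hx : ∀ i, i < m - 1 → x * sg n (i + a) = sg n (i + b) * x) (g : BraidGroup m) :
    x * sh a h g = sh b h' g * x := by
  have : ((MulAut.conj x).toMonoidHom).comp (sh a h) = sh b h' := by
    apply hom_ext
    intro i hi
    rw [MonoidHom.comp_apply, sh_sg h i hi, sh_sg h' i hi]
    show x * sg n (i + a) * x⁻¹ = _
    rw [hx i hi, mul_inv_cancel_right]
  have h1 := congrArg (fun f => f g) this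
  have h2 : x * sh a h g * x⁻¹ = sh b h' g := h1
  rw [← h2, inv_mul_cancel_right]

theorem sh_dd {n m a : ℕ} (h : a + 1 + m ≤ n) (g : BraidGroup m) :
    dd n * sh a (by omega) g = sh (a + 1) h g * dd n := by
  apply sh_conj
  intro i hi
  rw [dd_shift n (i + a) (by omega)]
  rfl

/-- the local shift `σ_b σ_{b+1} ⋯ σ_{b+m-1}` -/
def ls (n b m : ℕ) : BraidGroup n := if h : b + (m + 1) ≤ n then sh b h (dd (m + 1)) else 1

theorem ls_shift {n b m : ℕ} (h : b + (m + 1) ≤ n) (g : BraidGroup m) :
    ls n b m * sh b (by omega) g = sh (b + 1) (by omega) g * ls n b m := by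
  apply sh_conj
  intro i hi
  rw [ls, dif_pos h]
  have h1 := dd_shift (m + 1) i (by omega)
  have h2 := congrArg (sh b h) h1
  rw [map_mul, map_mul, sh_sg h i (by omega), sh_sg h (i + 1) (by omega)] at h2
  rw [h2, show i + 1 + b = i + (b + 1) by omega]

theorem ls_comm {n b m a m' : ℕ} (h' : a + m' ≤ n) (hab : a + m' ≤ b) (g : BraidGroup m') :
    Commute (ls n b m) (sh a h' g) := by
  unfold ls
  split_ifs with h
  · exact (sh_sh_commute h' h hab g _).symm
  · exact Commute.one_left _

theorem sh_comp {n k m a : ℕ} (h : a + k ≤ n) (hk : 0 + m ≤ k) (g : BraidGroup m) :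
    sh a h (sh 0 hk g) = sh a (by omega) g := by
  have : (sh a h).comp (sh 0 hk) = sh (m := m) a (by omega) := by
    apply hom_ext
    intro i hi
    rw [MonoidHom.comp_apply, sh_sg hk i hi, sh_sg h (i + 0) (by omega), sh_sg _ i hi]
    rfl
  exact congrArg (fun f => f g) this

/-- the element `σ_i σ_{i+1}⁻¹` is a commutator -/
theorem diff_mem (n i : ℕ) (h : i + 1 < n - 1) :
    sg n i * (sg n (i + 1))⁻¹ ∈ commutator (BraidGroup n) := by
  have h1 := sg_braid n i h
  have h2 : sg n i * (sg n (i + 1))⁻¹ = ⁅sg n i, sg n i * sg n (i + 1)⁆ := by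
    rw [commutatorElement_def, mul_inv_rev]
    have h3 : sg n (i + 1) = (sg n i * sg n (i + 1)) * sg n i * (sg n (i + 1))⁻¹ * (sg n i)⁻¹ := by
      rw [h1]; group
    conv_lhs => rw [h3]
    group
  rw [h2]
  exact Subgroup.commutator_mem_commutator (Subgroup.mem_top _) (Subgroup.mem_top _)

/-- commuting images of adjacent generators are equal -/
theorem eq_of_comm {n : ℕ} {M : Type*} [Monoid M] (f : BraidGroup n →* M) (j : ℕ)
    (hj : j + 1 < n - 1) (hc : f (sg n j) * f (sg n (j + 1)) = f (sg n (j + 1)) * f (sg n j)) :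
    f (sg n j) = f (sg n (j + 1)) := by
  have h1 := congrArg f (sg_braid n j hj)
  rw [map_mul, map_mul, map_mul, map_mul] at h1
  rw [mul_assoc, ← hc, ← mul_assoc] at h1
  have u1 : ∀ k, f (sg n k) * f ((sg n k)⁻¹) = 1 := by
    intro k; rw [← map_mul, mul_inv_cancel, map_one]
  have u2 : ∀ k, f ((sg n k)⁻¹) * f (sg n k) = 1 := by
    intro k; rw [← map_mul, inv_mul_cancel, map_one]
  have h3 : f (sg n j) * f (sg n j) * f (sg n (j + 1)) =
      f (sg n j) * f (sg n (j + 1)) * f (sg n (j + 1)) := h1
  calc f (sg n j) = f ((sg n j)⁻¹) * (f (sg n j) * f (sg n j) * f (sg n (j + 1))) *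
        f ((sg n (j + 1))⁻¹) := by
        rw [mul_assoc (f (sg n j)) (f (sg n j)), ← mul_assoc (f ((sg n j)⁻¹)), u2, one_mul,
          mul_assoc, u1, mul_one]
    _ = f ((sg n j)⁻¹) * (f (sg n j) * f (sg n (j + 1)) * f (sg n (j + 1))) *
        f ((sg n (j + 1))⁻¹) := by rw [h3]
    _ = f (sg n (j + 1)) := by
        rw [mul_assoc (f (sg n j)) (f (sg n (j + 1))), ← mul_assoc (f ((sg n j)⁻¹)), u2,
          one_mul, mul_assoc, u1, mul_one]

/-- if two adjacent generators have equal images, the image is cyclic -/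
theorem adj_eq {n : ℕ} {M : Type*} [Monoid M] (f : BraidGroup n →* M) (i : ℕ)
    (hi : i + 1 < n - 1) (h : f (sg n i) = f (sg n (i + 1))) :
    ∀ j, j < n - 1 → f (sg n j) = f (sg n i) := by
  have key : ∀ j, j + 1 < n - 1 → f (sg n j) * f (sg n (j + 1)) = f (sg n (j + 1)) * f (sg n j) →
      f (sg n j) = f (sg n (j + 1)) := fun j hj hc => eq_of_comm f j hj hc
  have up : ∀ k, i + k + 1 < n - 1 → f (sg n (i + k + 1)) = f (sg n i) := by
    intro k
    induction k with
    | zero => intro _; exact h.symm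
    | succ k ih =>
      intro hk
      have h1 := ih (by omega)
      have h2 := key (i + k + 1) (by omega) (by
        rw [h1]
        rw [← map_mul, ← map_mul]
        exact congrArg f (sg_far n i (i + k + 1 + 1) (by omega)).eq)
      rw [← h1, h2]
      rfl
  have down : ∀ k, k ≤ i → f (sg n (i - k)) = f (sg n i) := by
    intro k
    induction k with
    | zero => intro _; rfl
    | succ k ih =>
      intro hk
      have h1 := ih (by omega)
      have e : i - (k + 1) + 1 = i - k := by omega
      have h2 := key (i - (k + 1)) (by omega) (by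
        rw [e, h1, h]
        rw [← map_mul, ← map_mul]
        exact congrArg f (sg_far n (i - (k + 1)) (i + 1) (by omega)).eq)
      rw [h2, e, h1]
  intro j hj
  rcases Nat.lt_or_ge i j with hij | hij
  · have := up (j - i - 1) (by omega)
    rw [show i + (j - i - 1) + 1 = j by omega] at this
    exact this
  · have := down (i - j) (by omega)
    rw [show i - (i - j) = j by omega] at this
    exact this

/-- if two adjacent generators have equal images, the commutator subgroup is in the kernel -/
theorem adj_comm {n : ℕ} {M : Type*} [Monoid M] (f : BraidGroup n →* M) (i : ℕ)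
    (hi : i + 1 < n - 1) (h : f (sg n i) = f (sg n (i + 1))) :
    commutator (BraidGroup n) ≤ f.ker := by
  have h1 := adj_eq f i hi h
  -- all images commute with each other
  have hc : ∀ j, j < n - 1 → ∀ g : BraidGroup n, f (sg n j) * f g = f g * f (sg n j) := by
    intro j hj
    let S : Subgroup (BraidGroup n) :=
      { carrier := {g | f (sg n j) * f g = f g * f (sg n j)}
        mul_mem' := by
          intro a b ha hb
          simp only [Set.mem_ofPred_eq] at *
          rw [map_mul, ← mul_assoc, ha, mul_assoc, hb, mul_assoc]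
        one_mem' := by simp
        inv_mem' := by
          intro a ha
          simp only [Set.mem_ofPred_eq] at *
          have u1 : f a * f a⁻¹ = 1 := by rw [← map_mul, mul_inv_cancel, map_one]
          have u2 : f a⁻¹ * f a = 1 := by rw [← map_mul, inv_mul_cancel, map_one]
          calc f (sg n j) * f a⁻¹ = (f a⁻¹ * f a) * f (sg n j) * f a⁻¹ := by rw [u2, one_mul]
            _ = f a⁻¹ * (f (sg n j) * f a) * f a⁻¹ := by rw [ha]; simp only [mul_assoc]
            _ = f a⁻¹ * f (sg n j) := by simp only [mul_assoc]; rw [u1, mul_one] }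
    have : ∀ g, g ∈ S := by
      apply gen_top
      intro i' hi'
      show f (sg n j) * f (sg n i') = f (sg n i') * f (sg n j)
      rw [h1 j hj, h1 i' hi']
    exact this
  have hc' : ∀ g' g : BraidGroup n, f g' * f g = f g * f g' := by
    intro g' g
    let S : Subgroup (BraidGroup n) :=
      { carrier := {g' | f g' * f g = f g * f g'}
        mul_mem' := by
          intro a b ha hb
          simp only [Set.mem_ofPred_eq] at *
          rw [map_mul, mul_assoc, hb, ← mul_assoc, ha, mul_assoc]
        one_mem' := by simp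
        inv_mem' := by
          intro a ha
          simp only [Set.mem_ofPred_eq] at *
          have u1 : f a * f a⁻¹ = 1 := by rw [← map_mul, mul_inv_cancel, map_one]
          have u2 : f a⁻¹ * f a = 1 := by rw [← map_mul, inv_mul_cancel, map_one]
          calc f a⁻¹ * f g = f a⁻¹ * (f g * f a) * f a⁻¹ := by
                rw [mul_assoc, mul_assoc, u1, mul_one]
            _ = f a⁻¹ * (f a * f g) * f a⁻¹ := by rw [ha]
            _ = f g * f a⁻¹ := by rw [← mul_assoc, u2, one_mul] }
    have : ∀ g', g' ∈ S := by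
      apply gen_top
      intro i' hi'
      exact hc i' hi' g
    exact this g'
  rw [commutator_def, Subgroup.commutator_le]
  intro a _ b _
  rw [MonoidHom.mem_ker, commutatorElement_def]
  rw [show a * b * a⁻¹ * b⁻¹ = (a * b) * (b * a)⁻¹ by group, map_mul]
  have : f (a * b) = f (b * a) := by rw [map_mul, map_mul, hc']
  rw [this, ← map_mul, mul_inv_cancel, map_one]

/-- perfectness of the commutator subgroup -/
theorem perfect (n : ℕ) (hn : 5 ≤ n) :
    ⁅commutator (BraidGroup n), commutator (BraidGroup n)⁆ = commutator (BraidGroup n) := by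
  apply le_antisymm
  · exact Subgroup.commutator_le_left _ _
  · have hN : (⁅commutator (BraidGroup n), commutator (BraidGroup n)⁆).Normal := inferInstance
    set N := ⁅commutator (BraidGroup n), commutator (BraidGroup n)⁆ with hNdef
    let f : BraidGroup n →* BraidGroup n ⧸ N := QuotientGroup.mk' N
    have hker : f.ker = N := QuotientGroup.ker_mk' N
    -- images of elements of the commutator subgroup commute
    have hcc : ∀ a ∈ commutator (BraidGroup n), ∀ b ∈ commutator (BraidGroup n),
        f a * f b = f b * f a := by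
      intro a ha b hb
      have h1 : ⁅a, b⁆ ∈ f.ker := by
        rw [hker]; exact Subgroup.commutator_mem_commutator ha hb
      rw [MonoidHom.mem_ker, map_commutatorElement, commutatorElement_eq_one_iff_mul_comm] at h1
      exact h1
    -- `σ_0` commutes with `u = σ_2 σ_3⁻¹`
    have hu : sg n 2 * (sg n 3)⁻¹ ∈ commutator (BraidGroup n) := diff_mem n 2 (by omega)
    have h02 : sg n 0 * (sg n 2)⁻¹ ∈ commutator (BraidGroup n) := by
      have e : sg n 0 * (sg n 2)⁻¹ = (sg n 0 * (sg n 1)⁻¹) * (sg n 1 * (sg n 2)⁻¹) := by group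
      rw [e]
      exact mul_mem (diff_mem n 0 (by omega)) (diff_mem n 1 (by omega))
    have c1 : Commute (sg n 0) (sg n 2 * (sg n 3)⁻¹) :=
      (sg_far n 0 2 le_rfl).mul_right (sg_far n 0 3 (by omega)).inv_right
    have c2 := hcc _ h02 _ hu
    -- hence `σ_2` commutes with `u` modulo `N`
    have c3 : f (sg n 2) * f (sg n 2 * (sg n 3)⁻¹) = f (sg n 2 * (sg n 3)⁻¹) * f (sg n 2) := by
      have c1' : f (sg n 0) * f (sg n 2 * (sg n 3)⁻¹) = f (sg n 2 * (sg n 3)⁻¹) * f (sg n 0) := by
        rw [← map_mul, ← map_mul, c1.eq]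
      have e : f (sg n 2) = (f (sg n 0 * (sg n 2)⁻¹))⁻¹ * f (sg n 0) := by
        rw [← map_inv, ← map_mul]; congr 1; group
      have c2' : Commute (f (sg n 0 * (sg n 2)⁻¹)) (f (sg n 2 * (sg n 3)⁻¹)) := c2
      have c1'' : Commute (f (sg n 0)) (f (sg n 2 * (sg n 3)⁻¹)) := c1'
      rw [e]
      exact (c2'.inv_left.mul_left c1'').eq
    have c4 : f (sg n 2) * f (sg n 3) = f (sg n 3) * f (sg n 2) := by
      have c3' : Commute (f (sg n 2)) (f (sg n 2 * (sg n 3)⁻¹)) := c3
      have e : f (sg n 3) = (f (sg n 2 * (sg n 3)⁻¹))⁻¹ * f (sg n 2) := by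
        rw [← map_inv, ← map_mul]; congr 1; group
      rw [e]
      exact (c3'.inv_right.mul_right (Commute.refl _)).eq
    have c5 : f (sg n 2) = f (sg n 3) := by
      have h1 := congrArg f (sg_braid n 2 (by omega))
      rw [map_mul, map_mul, map_mul, map_mul, show 2 + 1 = 3 from rfl] at h1
      rw [mul_assoc, ← c4, ← mul_assoc] at h1
      exact mul_left_cancel (mul_right_cancel h1)
    have := adj_comm f 2 (by omega) c5
    rwa [hker] at this

end Pool.Agent.H29R2.QD
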