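import Mathlib
import Pool.Agent.H29R2.QD.LinA
import Pool.Agent.H29R2.QD.Rot

set_option autoImplicit false

/-! Representations of the braid group `B_m` of dimension less than about `m` are abelian. -/

namespace Pool.Agent.H29R2.QD

open Module
open Pool.Agent.Helper950.BG
open scoped commutatorElement

universe u v w

section
variable {K V : Type*} [Field K] [AddCommGroup V] [Module K V] {H : Type*} [Group H]

theorem end_comm_of_le_one [FiniteDimensional K V] (h : finrank K V ≤ 1) (f g : Module.End K V) :
    f * g = g * f := by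
  obtain ⟨v, hv⟩ := finrank_le_one_iff.1 h
  ext w
  obtain ⟨c, rfl⟩ := hv w
  obtain ⟨a, ha⟩ := hv (f v)
  obtain ⟨b, hb⟩ := hv (g v)
  simp only [Module.End.mul_apply, map_smul, ← ha, ← hb]
  rw [smul_comm a b v]

/-- a perfect group commuting with `T` acts nontrivially on an eigenspace of `T` -/
theorem eig_lemma [IsAlgClosed K] [FiniteDimensional K V] (τ : H →* Module.End K V)
    (E : Subgroup H) (hE : ⁅E, E⁆ = E) (T : Module.End K V) (hT : ∀ g, τ g * T = T * τ g)
    (h : ¬ E ≤ τ.ker) :
    ∃ (c : K) (hW : ∀ g, ∀ v ∈ Module.End.eigenspace T c, τ g v ∈ Module.End.eigenspace T c),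
      ¬ E ≤ (restr τ (Module.End.eigenspace T c) hW).ker := by
  have hTv : ∀ g v, τ g (T v) = T (τ g v) := fun g v => LinearMap.congr_fun (hT g) v
  have inv1 : ∀ c : K, ∀ g, ∀ v ∈ Module.End.eigenspace T c, τ g v ∈ Module.End.eigenspace T c := by
    intro c g v hv
    rw [Module.End.mem_eigenspace_iff] at hv ⊢
    rw [← hTv, hv, map_smul]
  by_contra hcon
  push Not at hcon
  apply h
  have triv1 : ∀ c : K, ∀ g ∈ E, ∀ v, T v = c • v → τ g v = v := by
    intro c g hg v hv
    have h1 := triv_apply _ (hcon c (inv1 c) hg) (⟨v, by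
      rw [Module.End.mem_eigenspace_iff]; exact hv⟩ : Module.End.eigenspace T c)
    exact congrArg Subtype.val h1
  have key : ∀ (c : K) (k : ℕ), ∀ g ∈ E, ∀ v, ((T - c • 1) ^ k) v = 0 → τ g v = v := by
    intro c k
    induction k with
    | zero =>
      intro g _ v hv
      have : v = 0 := hv
      rw [this, map_zero]
    | succ k ih =>
      have comm : ∀ g, ∀ m : ℕ, τ g * (T - c • 1) ^ m = (T - c • 1) ^ m * τ g := by
        intro g m
        have : Commute (τ g) (T - c • 1) := by
          show τ g * (T - c • 1) = (T - c • 1) * τ g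
          rw [mul_sub, sub_mul, hT]; simp
        exact (this.pow_right m).eq
      have hWi : ∀ g, ∀ v ∈ LinearMap.ker ((T - c • 1) ^ (k + 1)),
          τ g v ∈ LinearMap.ker ((T - c • 1) ^ (k + 1)) := by
        intro g v hv
        rw [LinearMap.mem_ker] at hv ⊢
        have := LinearMap.congr_fun (comm g (k + 1)) v
        rw [Module.End.mul_apply, Module.End.mul_apply] at this
        rw [← this, hv, map_zero]
      have h1 := perf_triv' (restr τ _ hWi) E hE (by
        intro g hg k' hk'
        apply LinearMap.ext
        rintro ⟨v, hv⟩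
        apply Subtype.ext
        show τ g (τ k' v - v) - (τ k' v - v) = 0
        rw [sub_eq_zero]
        apply triv1 c g hg
        -- (T - c) v is in the kernel of the k-th power
        have h2 : τ k' ((T - c • 1) v) = (T - c • 1) v := by
          apply ih k' hk'
          rw [LinearMap.mem_ker, pow_succ] at hv
          exact hv
        have h3 : τ k' ((T - c • 1) v) = (T - c • 1) (τ k' v) := by
          have := LinearMap.congr_fun (comm k' 1) v
          rw [pow_one] at this
          exact this
        have h4 : (T - c • 1) (τ k' v) - (T - c • 1) v = 0 := by rw [← h3, h2, sub_self]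
        have h5 : (T - c • 1) (τ k' v - v) = 0 := by rw [map_sub]; exact h4
        have h6 : T (τ k' v - v) - c • (τ k' v - v) = 0 := h5
        exact sub_eq_zero.1 h6)
      intro g hg v hv
      have h2 := triv_apply _ (h1 hg) (⟨v, hv⟩ : LinearMap.ker ((T - c • 1) ^ (k + 1)))
      exact congrArg Subtype.val h2
  intro g hg
  rw [MonoidHom.mem_ker]
  ext v
  have hv : v ∈ ⨆ c : K, T.maxGenEigenspace c := by
    rw [Module.End.iSup_maxGenEigenspace_eq_top]; exact Submodule.mem_top
  show τ g v = v
  induction hv using Submodule.iSup_induction' with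
  | mem c x hx =>
    rw [Module.End.mem_maxGenEigenspace] at hx
    obtain ⟨k, hk⟩ := hx
    exact key c k g hg x hk
  | zero => simp
  | add x y _ _ hx hy => rw [map_add, hx, hy]

/-- commuting operators of rank at most one with nonzero product are proportional -/
theorem rank_one_prop [FiniteDimensional K V] (s t : Module.End K V) (hst : s * t = t * s)
    (hs : finrank K (LinearMap.range s) ≤ 1) (ht : finrank K (LinearMap.range t) ≤ 1)
    (h : s * t ≠ 0) : ∃ c : K, t = c • s := by
  obtain ⟨v, hv⟩ := finrank_le_one_iff.1 hs
  obtain ⟨w, hw⟩ := finrank_le_one_iff.1 ht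
  obtain ⟨x, hx⟩ : ∃ x, s (t x) ≠ 0 := by
    by_contra hcon
    push Not at hcon
    exact h (LinearMap.ext hcon)
  have hxt : s (t x) = t (s x) := LinearMap.congr_fun hst x
  set a := s (t x) with ha
  -- every value of `s` and `t` is a multiple of `a`
  have hsa : ∀ y, ∃ c : K, s y = c • a := by
    intro y
    obtain ⟨c1, h1⟩ := hv ⟨a, ⟨t x, rfl⟩⟩
    obtain ⟨c2, h2⟩ := hv ⟨s y, ⟨y, rfl⟩⟩
    have h1' : c1 • (v : V) = a := congrArg Subtype.val h1
    have h2' : c2 • (v : V) = s y := congrArg Subtype.val h2
    have hc1 : c1 ≠ 0 := by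
      rintro rfl
      rw [zero_smul] at h1'
      exact hx h1'.symm
    refine ⟨c2 * c1⁻¹, ?_⟩
    rw [← h2', ← h1', smul_smul, mul_assoc, inv_mul_cancel₀ hc1, mul_one]
  have hta : ∀ y, ∃ c : K, t y = c • a := by
    intro y
    obtain ⟨c1, h1⟩ := hw ⟨a, ⟨s x, hxt.symm⟩⟩
    obtain ⟨c2, h2⟩ := hw ⟨t y, ⟨y, rfl⟩⟩
    have h1' : c1 • (w : V) = a := congrArg Subtype.val h1
    have h2' : c2 • (w : V) = t y := congrArg Subtype.val h2
    have hc1 : c1 ≠ 0 := by
      rintro rfl
      rw [zero_smul] at h1'
      exact hx h1'.symm
    refine ⟨c2 * c1⁻¹, ?_⟩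
    rw [← h2', ← h1', smul_smul, mul_assoc, inv_mul_cancel₀ hc1, mul_one]
  choose α hα using hsa
  choose β hβ using hta
  have ha0 : a ≠ 0 := hx
  have hαa : α a ≠ 0 := by
    intro h0
    have h1 : s (t x) = (β x * α a) • a := by
      rw [hβ x, map_smul, hα a, smul_smul]
    rw [h0, mul_zero, zero_smul] at h1
    exact hx h1
  refine ⟨β a / α a, ?_⟩
  ext y
  have h1 : s (t y) = (β y * α a) • a := by rw [hβ y, map_smul, hα a, smul_smul]
  have h2 : t (s y) = (α y * β a) • a := by rw [hα y, map_smul, hβ a, smul_smul]
  have h3 : s (t y) = t (s y) := LinearMap.congr_fun hst y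
  rw [h1, h2] at h3
  have h4 : β y * α a = α y * β a := by
    have := sub_eq_zero.2 h3
    rw [← sub_smul] at this
    rcases smul_eq_zero.1 this with h | h
    · exact sub_eq_zero.1 h
    · exact absurd h ha0
  rw [LinearMap.smul_apply, hβ y, hα y, smul_smul]
  congr 1
  field_simp
  rw [h4, mul_comm]

/-- if `(B-c)(A-c) = 0` for images `A, B` of adjacent generators then `A = B` -/
theorem adj_zero {n : ℕ} (ρ : BraidGroup n →* Module.End K V) (j : ℕ) (hj : j + 1 < n - 1)
    (c : K) (hc : c ≠ 0)
    (h : (ρ (sg n (j + 1)) - c • 1) * (ρ (sg n j) - c • 1) = 0) :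
    ρ (sg n j) = ρ (sg n (j + 1)) := by
  set A := ρ (sg n j) with hA
  set B := ρ (sg n (j + 1)) with hB
  set A' := ρ (sg n j)⁻¹ with hA'
  set B' := ρ (sg n (j + 1))⁻¹ with hB'
  have a1 : A * A' = 1 := rho_mul_inv ρ _
  have a2 : A' * A = 1 := rho_inv_mul ρ _
  have b1 : B * B' = 1 := rho_mul_inv ρ _
  have b2 : B' * B = 1 := rho_inv_mul ρ _
  have br : A * B * A = B * A * B := by
    have := congrArg ρ (sg_braid n j hj)
    simpa only [map_mul] using this
  obtain ⟨a, ha⟩ : ∃ a, a = A - c • 1 := ⟨_, rfl⟩
  obtain ⟨b, hb⟩ : ∃ b, b = B - c • 1 := ⟨_, rfl⟩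
  rw [← ha, ← hb] at h
  have eA : A = c • 1 + a := by rw [ha]; abel
  have eB : B = c • 1 + b := by rw [hb]; abel
  have br2 : c ^ 2 • a + c • (a * a) = c ^ 2 • b + c • (b * b) := by
    have e1 : A * B * A = c ^ 3 • 1 + c ^ 2 • (a + a + b) + c • (a * b + b * a + a * a) +
        a * (b * a) := by
      rw [eA, eB]
      simp only [add_mul, mul_add, smul_mul_assoc, mul_smul_comm, one_mul, mul_one, smul_add,
        smul_smul, mul_assoc]
      simp only [pow_succ, pow_zero, one_mul, mul_assoc]
      abel
    have e2 : B * A * B = c ^ 3 • 1 + c ^ 2 • (b + b + a) + c • (a * b + b * a + b * b) +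
        b * a * b := by
      rw [eA, eB]
      simp only [add_mul, mul_add, smul_mul_assoc, mul_smul_comm, one_mul, mul_one, smul_add,
        smul_smul, mul_assoc]
      simp only [pow_succ, pow_zero, one_mul, mul_assoc]
      abel
    rw [e1, e2, h, mul_zero, zero_mul] at br
    have := br
    simp only [smul_add] at this
    have h5 := congrArg (fun x => x - c ^ 3 • (1 : Module.End K V) - c ^ 2 • a - c ^ 2 • b -
      c • (a * b) - c • (0 : Module.End K V)) this
    have e3 : c ^ 2 • a + c • (a * a) = c ^ 3 • (1 : Module.End K V) + (c ^ 2 • a + c ^ 2 • a + c ^ 2 • b) +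
      (c • (a * b) + c • 0 + c • (a * a)) + 0 - c ^ 3 • (1 : Module.End K V) - c ^ 2 • a - c ^ 2 • b -
      c • (a * b) - c • (0 : Module.End K V) := by abel
    have e4 : c ^ 2 • b + c • (b * b) = c ^ 3 • (1 : Module.End K V) + (c ^ 2 • b + c ^ 2 • b + c ^ 2 • a) +
      (c • (a * b) + c • 0 + c • (b * b)) + 0 - c ^ 3 • (1 : Module.End K V) - c ^ 2 • a - c ^ 2 • b -
      c • (a * b) - c • (0 : Module.End K V) := by abel
    rw [e3, e4]
    exact h5
  -- `a A = b B`
  have h1 : a * A = b * B := by
    have e1 : c • (a * A) = c ^ 2 • a + c • (a * a) := by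
      rw [eA, mul_add, smul_add, mul_smul_comm, mul_one, smul_smul, pow_two]
    have e2 : c • (b * B) = c ^ 2 • b + c • (b * b) := by
      rw [eB, mul_add, smul_add, mul_smul_comm, mul_one, smul_smul, pow_two]
    have e3 : c • (a * A) = c • (b * B) := by rw [e1, e2, br2]
    exact smul_right_injective _ hc e3
  have h2 : b * b = 0 := by
    have : b * (b * B) = 0 := by rw [← h1, ← mul_assoc, h, zero_mul]
    calc b * b = b * (b * B) * B' := by
          rw [mul_assoc, mul_assoc, b1, mul_one]
      _ = 0 := by rw [this, zero_mul]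
  have comA : a * A = A * a := by
    rw [eA, mul_add, add_mul]; simp
  have h3 : a * a = 0 := by
    have e : b * B = c • b := by
      rw [eB, mul_add, h2, add_zero, mul_smul_comm, mul_one]
    have : (a * A) * a = 0 := by rw [h1, e, smul_mul_assoc, h, smul_zero]
    have e4 : a * A * a = A * (a * a) := by rw [comA, mul_assoc]
    rw [e4] at this
    calc a * a = A' * (A * (a * a)) := by rw [← mul_assoc, a2, one_mul]
      _ = 0 := by rw [this, mul_zero]
  rw [h2, h3, smul_zero, add_zero, add_zero] at br2
  have h4 : a = b := smul_right_injective _ (pow_ne_zero 2 hc) br2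
  rw [eA, eB, h4]

end

/-- lower bound for the dimension of a nonabelian representation -/
def eB (m : ℕ) : ℕ := 2 * ((m - 3) / 2)

/-- an annihilating configuration forces large dimension -/
theorem chain_bound {K V : Type*} [Field K] [AddCommGroup V] [Module K V] [FiniteDimensional K V]
    (m : ℕ) (s : ℕ → Module.End K V)
    (h0 : ∀ j i, j + 2 ≤ i → i < m - 1 → s i * s j = 0)
    (h1 : ∀ j, j + 1 < m - 1 → s (j + 1) * s j ≠ 0) : m - 2 ≤ finrank K V := by
  let Kj : ℕ → Submodule K V := fun j =>
    { carrier := {v | ∀ i, j ≤ i → i < m - 1 → s i v = 0}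
      add_mem' := by
        intro a b ha hb i hi hi'
        rw [map_add, ha i hi hi', hb i hi hi', add_zero]
      zero_mem' := by intro i _ _; exact map_zero _
      smul_mem' := by
        intro c a ha i hi hi'
        rw [map_smul, ha i hi hi', smul_zero] }
  have key : ∀ j, j ≤ m - 2 → j ≤ finrank K (Kj (j + 1)) := by
    intro j
    induction j with
    | zero => intro _; exact Nat.zero_le _
    | succ j ih =>
      intro hj
      have h2 := ih (by omega)
      have h3 : Kj (j + 1) < Kj (j + 1 + 1) := by
        rw [SetLike.lt_iff_le_and_exists]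
        refine ⟨?_, ?_⟩
        · intro v hv i hi hi'
          exact hv i (by omega) hi'
        · obtain ⟨x, hx⟩ : ∃ x, s (j + 1) (s j x) ≠ 0 := by
            by_contra hcon
            push Not at hcon
            exact h1 j (by omega) (LinearMap.ext hcon)
          refine ⟨s j x, ?_, ?_⟩
          · intro i hi hi'
            exact LinearMap.congr_fun (h0 j i (by omega) hi') x
          · intro hcon
            exact hx (hcon (j + 1) le_rfl (by omega))
      have h4 := Submodule.finrank_lt_finrank_of_lt h3
      omega
  have := key (m - 2) le_rfl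
  exact this.trans (Submodule.finrank_le _)

theorem eB_min {K : Type u} [Field K] [IsAlgClosed K] : ∀ m : ℕ, 5 ≤ m →
    ∀ (V : Type u) [AddCommGroup V] [Module K V] [FiniteDimensional K V]
      (ρ : BraidGroup m →* Module.End K V), finrank K V < eB m →
      commutator (BraidGroup m) ≤ ρ.ker := by
  intro m
  induction m using Nat.strong_induction_on with
  | _ m ih =>
    intro hm V _ _ _ ρ hd
    by_cases hm7 : m < 7
    · -- base
      have hd' : finrank K V ≤ 1 := by
        unfold eB at hd; omega
      rw [commutator_def, Subgroup.commutator_le]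
      intro g _ k _
      rw [MonoidHom.mem_ker]
      apply comm_ker
      exact end_comm_of_le_one hd' _ _
    · by_contra hnt
      have hsh : 2 + (m - 2) ≤ m := by omega
      -- the block on the last m-2 strands
      let τ : BraidGroup (m - 2) →* Module.End K V := ρ.comp (sh 2 hsh)
      have hτ : ¬ commutator (BraidGroup (m - 2)) ≤ τ.ker := by
        intro hcon
        apply hnt
        have h1 := hcon (diff_mem (m - 2) 0 (by omega))
        rw [MonoidHom.mem_ker, map_mul] at h1
        have e0 : τ (sg (m - 2) 0) = ρ (sg m 2) := by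
          show ρ (sh 2 hsh (sg (m - 2) 0)) = _
          rw [sh_sg hsh 0 (by omega)]
        have e1 : τ (sg (m - 2) 1) = ρ (sg m 3) := by
          show ρ (sh 2 hsh (sg (m - 2) 1)) = _
          rw [sh_sg hsh 1 (by omega)]
        have h2 : τ (sg (m - 2) 0) = τ (sg (m - 2) 1) := by
          calc τ (sg (m - 2) 0) = τ (sg (m - 2) 0) * (τ (sg (m - 2) (0 + 1))⁻¹ *
                τ (sg (m - 2) (0 + 1))) := by rw [rho_inv_mul, mul_one]
            _ = τ (sg (m - 2) 1) := by rw [← mul_assoc, h1, one_mul]
        rw [e0, e1] at h2
        exact adj_comm ρ 2 (by omega) h2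
      have hcom : ∀ g, τ g * ρ (sg m 0) = ρ (sg m 0) * τ g := by
        intro g
        show ρ (sh 2 hsh g) * ρ (sg m 0) = ρ (sg m 0) * ρ (sh 2 hsh g)
        rw [← map_mul, ← map_mul]
        congr 1
        exact (sh_commute hsh (sg m 0) (fun i hi => sg_far m 0 (i + 2) (by omega)) g).eq.symm
      obtain ⟨c, hW, hE⟩ := eig_lemma τ (commutator (BraidGroup (m - 2)))
        (perfect (m - 2) (by omega)) (ρ (sg m 0)) hcom hτ
      set W := Module.End.eigenspace (ρ (sg m 0)) c with hWdef
      have hWd : eB (m - 2) ≤ finrank K W := by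
        by_contra hcon
        exact hE (ih (m - 2) (by omega) (by omega) W (restr τ W hW) (by omega))
      -- c is not zero
      have hc0 : c ≠ 0 := by
        rintro rfl
        apply hE
        have hWb : W = ⊥ := by
          rw [Submodule.eq_bot_iff]
          intro v hv
          rw [hWdef, Module.End.mem_eigenspace_iff, zero_smul] at hv
          have := LinearMap.congr_fun (rho_inv_mul ρ (sg m 0)) v
          rw [Module.End.mul_apply, hv, map_zero] at this
          exact this.symm
        intro g _
        rw [MonoidHom.mem_ker]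
        ext ⟨v, hv⟩
        have h0 : v = 0 := by
          have hv' : v ∈ W := hv
          rw [hWb] at hv'; exact (Submodule.mem_bot K).1 hv'
        subst h0
        have : (⟨0, hv⟩ : W) = 0 := rfl
        rw [this, map_zero, map_zero]
      let s : ℕ → Module.End K V := fun i => ρ (sg m i) - c • 1
      have hker : LinearMap.ker (s 0) = W := by
        ext v
        rw [LinearMap.mem_ker, hWdef, Module.End.mem_eigenspace_iff]
        show ρ (sg m 0) v - c • v = 0 ↔ _
        rw [sub_eq_zero]
      have hr0 : finrank K (LinearMap.range (s 0)) ≤ 1 := by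
        have h1 := LinearMap.finrank_range_add_finrank_ker (s 0)
        rw [hker] at h1
        have h2 : eB m = eB (m - 2) + 2 := by
          unfold eB; omega
        omega
      have conj : ∀ i, i + 1 < m - 1 → ρ (dd m) * s i = s (i + 1) * ρ (dd m) := by
        intro i hi
        have := congrArg ρ (dd_shift m i hi)
        rw [map_mul, map_mul] at this
        simp only [s]
        rw [mul_sub, sub_mul, this]; simp
      have hr : ∀ i, i < m - 1 → finrank K (LinearMap.range (s i)) ≤ 1 := by
        intro i
        induction i with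
        | zero => intro _; exact hr0
        | succ i ihi =>
          intro hi
          have h1 := ihi (by omega)
          have h2 : s (i + 1) = ρ (dd m) * (s i * ρ (dd m)⁻¹) := by
            rw [← mul_assoc, conj i hi, mul_assoc, rho_mul_inv, mul_one]
          have h3 : LinearMap.range (s (i + 1)) ≤ (LinearMap.range (s i)).map (ρ (dd m)) := by
            rw [h2]
            rintro _ ⟨x, rfl⟩
            exact ⟨s i (ρ (dd m)⁻¹ x), ⟨_, rfl⟩, rfl⟩
          exact ((Submodule.finrank_mono h3).trans (Submodule.finrank_map_le _ _)).trans h1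
      -- commutation of `s i` with group elements
      have scomm : ∀ i (x : BraidGroup m), Commute x (sg m i) → ρ x * s i = s i * ρ x := by
        intro i x hx
        simp only [s]
        rw [mul_sub, sub_mul, ← map_mul, hx.eq, map_mul]; simp
      have sscomm : ∀ i j, i + 2 ≤ j → s i * s j = s j * s i := by
        intro i j hij
        have h1 := scomm j (sg m i) (sg_far m i j hij)
        have e1 : s i * s j = ρ (sg m i) * s j - c • s j := by
          show (ρ (sg m i) - c • 1) * s j = _
          rw [sub_mul, smul_mul_assoc, one_mul]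
        have e2 : s j * s i = s j * ρ (sg m i) - c • s j := by
          show s j * (ρ (sg m i) - c • 1) = _
          rw [mul_sub, mul_smul_comm, mul_one]
        rw [e1, e2, h1]
      -- conjugation by t = σ_i σ_{i+1}
      have tconj : ∀ i, i + 1 < m - 1 → ρ (sg m i * sg m (i + 1)) * s i =
          s (i + 1) * ρ (sg m i * sg m (i + 1)) := by
        intro i hi
        have h1 : (sg m i * sg m (i + 1)) * sg m i = sg m (i + 1) * (sg m i * sg m (i + 1)) := by
          rw [sg_braid m i hi, mul_assoc]
        have h2 := congrArg ρ h1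
        rw [map_mul, map_mul _ (sg m (i + 1))] at h2
        simp only [s]
        rw [mul_sub, sub_mul, h2]; simp
      have tcom : ∀ i, 2 ≤ i → ρ (sg m i * sg m (i + 1)) * s 0 =
          s 0 * ρ (sg m i * sg m (i + 1)) := by
        intro i hi
        apply scomm
        exact (sg_far m 0 i (by omega)).symm.mul_left (sg_far m 0 (i + 1) (by omega)).symm
      by_cases h02 : s 0 * s 2 = 0
      · -- all far products vanish
        have h0i : ∀ i, i + 2 < m - 1 → s 0 * s (i + 2) = 0 := by
          intro i
          induction i with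
          | zero => intro _; exact h02
          | succ i ihi =>
            intro hi
            have h1 := ihi (by omega)
            have h2 := tconj (i + 2) (by omega)
            have h3 := tcom (i + 2) (by omega)
            have h4 : s 0 * s (i + 2 + 1) * ρ (sg m (i + 2) * sg m (i + 2 + 1)) = 0 := by
              rw [mul_assoc, ← h2, ← mul_assoc, ← h3, mul_assoc, h1, mul_zero]
            calc s 0 * s (i + 1 + 2) = s 0 * s (i + 2 + 1) *
                  ρ (sg m (i + 2) * sg m (i + 2 + 1)) *
                  ρ (sg m (i + 2) * sg m (i + 2 + 1))⁻¹ := by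
                  rw [mul_assoc _ (ρ (sg m (i + 2) * sg m (i + 2 + 1))), rho_mul_inv, mul_one]
              _ = 0 := by rw [h4, zero_mul]
        have hji : ∀ j i, j + i + 2 < m - 1 → s j * s (j + i + 2) = 0 := by
          intro j
          induction j with
          | zero => intro i hi; rw [zero_add]; exact h0i i (by omega)
          | succ j ihj =>
            intro i hi
            have h1 := ihj i (by omega)
            have h2 := conj j (by omega)
            have h3 := conj (j + i + 2) (by omega)
            have h4 : s (j + 1) * s (j + i + 2 + 1) * ρ (dd m) = 0 := by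
              rw [mul_assoc, ← h3, ← mul_assoc, ← h2, mul_assoc, h1, mul_zero]
            calc s (j + 1) * s (j + 1 + i + 2) = s (j + 1) * s (j + i + 2 + 1) * ρ (dd m) *
                  ρ (dd m)⁻¹ := by
                  rw [mul_assoc _ (ρ (dd m)), rho_mul_inv, mul_one,
                    show j + 1 + i + 2 = j + i + 2 + 1 by omega]
              _ = 0 := by rw [h4, zero_mul]
        have hch := chain_bound m s (by
          intro j i hji' hi
          have h1 := hji j (i - j - 2) (by omega)
          rw [show j + (i - j - 2) + 2 = i by omega] at h1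
          rw [← sscomm j i hji', h1]) (by
          intro j hj hz
          apply hnt
          exact adj_comm ρ j hj (adj_zero ρ j hj c hc0 hz))
        unfold eB at hd
        omega
      · -- rank one operators with nonzero product
        have h03 : s 0 * s 3 ≠ 0 := by
          intro h1
          apply h02
          have h2 := tconj 2 (by omega)
          have h3 := tcom 2 le_rfl
          have h4 : ρ (sg m 2 * sg m (2 + 1)) * (s 0 * s 2) = 0 := by
            rw [← mul_assoc, h3, mul_assoc, h2, ← mul_assoc]
            show s 0 * s 3 * _ = 0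
            rw [h1, zero_mul]
          calc s 0 * s 2 = ρ (sg m 2 * sg m (2 + 1))⁻¹ *
                (ρ (sg m 2 * sg m (2 + 1)) * (s 0 * s 2)) := by
                rw [← mul_assoc, rho_inv_mul, one_mul]
            _ = 0 := by rw [h4, mul_zero]
        obtain ⟨a, ha⟩ := rank_one_prop (s 0) (s 2) (sscomm 0 2 le_rfl) (hr 0 (by omega))
          (hr 2 (by omega)) h02
        obtain ⟨b, hb⟩ := rank_one_prop (s 0) (s 3) (sscomm 0 3 (by omega)) (hr 0 (by omega))
          (hr 3 (by omega)) h03
        have h23 : s 2 * s 3 = s 3 * s 2 := by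
          rw [ha, hb]
          simp only [smul_mul_assoc, mul_smul_comm]
          rw [smul_comm]
        apply hnt
        apply adj_comm ρ 2 (by omega)
        apply eq_of_comm ρ 2 (by omega)
        have e2 : ρ (sg m 2) = s 2 + c • 1 := by simp [s]
        have e3 : ρ (sg m (2 + 1)) = s 3 + c • 1 := by simp [s]
        rw [e2, e3]
        simp only [add_mul, mul_add, h23, smul_mul_assoc, mul_smul_comm, one_mul, mul_one,
          smul_add]
        abel

end Pool.Agent.H29R2.QD
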