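import Mathlib
import Pool.Agent.H29R2.QD.LinA

set_option autoImplicit false

/-! Many commuting actions of a group with perfect normal subgroup `D`: if many pairs of them
interact, the dimension is large. -/

namespace Pool.Agent.H29R2.QD

open Module
open Pool.Agent.Helper950.BG
open scoped commutatorElement

universe u v w

section
variable {K V : Type*} [Field K] [AddCommGroup V] [Module K V] {H : Type*} [Group H]

/-- `D` acts trivially on `isoU` if it acts trivially on `U` -/
theorem triv_iso (ρ : H →* Module.End K V) (U : Submodule K V) (hU : ∀ g, ∀ v ∈ U, ρ g v ∈ U)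
    (ht : isoU ρ U hU = ⊤) (D : Subgroup H) (h : D ≤ (restr ρ U hU).ker) : D ≤ ρ.ker := by
  intro g hg
  rw [MonoidHom.mem_ker]
  apply iso_ext ρ U hU ht
  intro f hf u
  have h1 := triv_apply _ (h hg) u
  have h2 : (⟨ρ g u, hU g u u.2⟩ : U) = u := h1
  rw [← hf g u, h2]; rfl

/-- span of `(g-1)v` -/
def brk (ρ : H →* Module.End K V) (D : Subgroup H) : Submodule K V :=
  Submodule.span K {x | ∃ g ∈ D, ∃ v, x = ρ g v - v}

theorem brk_inv (ρ : H →* Module.End K V) (D : Subgroup H) (hN : D.Normal) (h : H) (x : V)
    (hx : x ∈ brk ρ D) : ρ h x ∈ brk ρ D := by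
  unfold brk at *
  induction hx using Submodule.span_induction with
  | mem x hx =>
    obtain ⟨g, hg, v, rfl⟩ := hx
    refine Submodule.subset_span ⟨h * g * h⁻¹, hN.conj_mem g hg h, ρ h v, ?_⟩
    have e : ρ (h * g * h⁻¹) (ρ h v) = ρ h (ρ g v) := by
      rw [← Module.End.mul_apply, ← map_mul, ← Module.End.mul_apply, ← map_mul]
      congr 2; group
    rw [e, map_sub]
  | zero => simp
  | add x y _ _ hx hy => rw [map_add]; exact Submodule.add_mem _ hx hy
  | smul c x _ hx => rw [map_smul]; exact Submodule.smul_mem _ c hx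

theorem brk_inv' (ρ : H →* Module.End K V) (D : Subgroup H) (T : Module.End K V)
    (hT : ∀ g, ρ g * T = T * ρ g) (x : V)
    (hx : x ∈ brk ρ D) : T x ∈ brk ρ D := by
  unfold brk at *
  induction hx using Submodule.span_induction with
  | mem x hx =>
    obtain ⟨g, hg, v, rfl⟩ := hx
    refine Submodule.subset_span ⟨g, hg, T v, ?_⟩
    have := LinearMap.congr_fun (hT g) v
    rw [Module.End.mul_apply, Module.End.mul_apply] at this
    rw [map_sub, this]
  | zero => simp
  | add x y _ _ hx hy => rw [map_add]; exact Submodule.add_mem _ hx hy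
  | smul c x _ hx => rw [map_smul]; exact Submodule.smul_mem _ c hx

theorem brk_bot (ρ : H →* Module.End K V) (D : Subgroup H) (h : brk ρ D = ⊥) : D ≤ ρ.ker := by
  intro g hg
  rw [MonoidHom.mem_ker]
  ext v
  have : ρ g v - v ∈ brk ρ D := Submodule.subset_span ⟨g, hg, v, rfl⟩
  rw [h, Submodule.mem_bot, sub_eq_zero] at this
  rw [this]; rfl

theorem brk_kill (ρ : H →* Module.End K V) (D : Subgroup H) (T : Module.End K V)
    (h : ∀ g ∈ D, T * (ρ g - 1) = 0) (x : V) (hx : x ∈ brk ρ D) : T x = 0 := by
  unfold brk at hx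
  induction hx using Submodule.span_induction with
  | mem x hx =>
    obtain ⟨g, hg, v, rfl⟩ := hx
    exact LinearMap.congr_fun (h g hg) v
  | zero => simp
  | add x y _ _ hx hy => rw [map_add, hx, hy, add_zero]
  | smul c x _ hx => rw [map_smul, hx, smul_zero]

end

/-- arithmetic of the induction step -/
theorem arith_step (m a c dM dV : ℕ) (ha : 3 ≤ a) (hm : 2 ≤ m) (hc : c ≤ m * m - m)
    (h1 : a * dM ≤ dV) (h2 : a ≤ dM) (h3 : ((m - 1) * (m - 1) - (m - 1)) * a ^ 2 ≤ 2 * dM) :
    c * a ^ 2 ≤ 2 * dV := by
  obtain ⟨k, rfl⟩ : ∃ k, m = k + 2 := ⟨m - 2, by omega⟩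
  have e1 : (k + 2) * (k + 2) - (k + 2) = (k + 2) * (k + 1) := by
    rw [← Nat.mul_sub_one]; rfl
  have e2 : (k + 2 - 1) * (k + 2 - 1) - (k + 2 - 1) = (k + 1) * k := by
    rw [show k + 2 - 1 = k + 1 by omega, ← Nat.mul_sub_one]; rfl
  rw [e1] at hc
  rw [e2] at h3
  have h4 : c * a ^ 2 ≤ (k + 2) * (k + 1) * a ^ 2 := Nat.mul_le_mul_right _ hc
  rcases Nat.eq_zero_or_pos k with hk | hk
  · subst hk
    have : a * a ≤ a * dM := Nat.mul_le_mul_left _ h2
    nlinarith
  · have h5 : (k + 2) * (k + 1) ≤ 3 * ((k + 1) * k) := by nlinarith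
    have h6 : 3 * ((k + 1) * k) * a ^ 2 ≤ a * (((k + 1) * k) * a ^ 2) := by
      have : 3 * (((k + 1) * k) * a ^ 2) ≤ a * (((k + 1) * k) * a ^ 2) :=
        Nat.mul_le_mul_right _ ha
      nlinarith
    have h7 : a * (((k + 1) * k) * a ^ 2) ≤ a * (2 * dM) := Nat.mul_le_mul_left _ h3
    have h8 : (k + 2) * (k + 1) * a ^ 2 ≤ 3 * ((k + 1) * k) * a ^ 2 := Nat.mul_le_mul_right _ h5
    nlinarith

/-- Main dimension bound. -/
theorem blocks {K : Type u} [Field K] [IsAlgClosed K] {H : Type v} [Group H]
    (D : Subgroup H) (hDn : D.Normal) (hD : ⁅D, D⁆ = D) (a : ℕ) (ha : 3 ≤ a)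
    (hmin : ∀ (V : Type u) [AddCommGroup V] [Module K V] [FiniteDimensional K V]
      (σ : H →* Module.End K V), finrank K V < a → D ≤ σ.ker)
    {ι : Type w} [DecidableEq ι] (n : ℕ) :
    ∀ (V : Type u) [AddCommGroup V] [Module K V] [FiniteDimensional K V]
      (ρ : ι → H →* Module.End K V) (s : Finset (ι × ι)),
      (∀ i j, i ≠ j → ∀ g h, ρ i g * ρ j h = ρ j h * ρ i g) →
      (∀ p ∈ s, p.1 ≠ p.2 ∧ ∃ g ∈ D, ∃ h ∈ D, (ρ p.1 g - 1) * (ρ p.2 h - 1) ≠ 0) →
      finrank K V ≤ n → s.card * a ^ 2 ≤ 2 * finrank K V := by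
  induction n with
  | zero =>
    intro V _ _ _ ρ s hc hs hn
    have h0 : finrank K V = 0 := by omega
    have hsub : Subsingleton V := finrank_zero_iff.mp h0
    have : s = ∅ := by
      rw [Finset.eq_empty_iff_forall_notMem]
      intro p hp
      obtain ⟨_, g, _, h, _, hne⟩ := hs p hp
      exact hne (Subsingleton.elim _ _)
    simp [this]
  | succ n ih =>
    intro V _ _ _ ρ s hc hs hn
    classical
    by_cases hirr : ∀ W : Submodule K V, (∀ i g, ∀ v ∈ W, ρ i g v ∈ W) → W = ⊥ ∨ W = ⊤
    · rcases s.eq_empty_or_nonempty with hse | ⟨p0, hp0⟩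
      · simp [hse]
      obtain ⟨hp0ne, g0, hg0, h0, hh0, hne0⟩ := hs p0 hp0
      set i0 := p0.1 with hi0
      have hnt : Nontrivial V := by
        by_contra hcon
        rw [not_nontrivial_iff_subsingleton] at hcon
        exact hne0 (Subsingleton.elim _ _)
      -- nontrivial actions
      have ntr : ∀ p ∈ s, (¬ D ≤ (ρ p.1).ker) ∧ (¬ D ≤ (ρ p.2).ker) := by
        intro p hp
        obtain ⟨_, g, hg, h, hh, hne⟩ := hs p hp
        constructor
        · intro hcon
          have h1 : ρ p.1 g = 1 := hcon hg
          apply hne; rw [h1, sub_self, zero_mul]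
        · intro hcon
          have h1 : ρ p.2 h = 1 := hcon hh
          apply hne; rw [h1, sub_self, mul_zero]
      -- on an irreducible space two nontrivial actions interact
      have inter : ∀ i j, i ≠ j → (¬ D ≤ (ρ i).ker) → (¬ D ≤ (ρ j).ker) →
          ∃ g ∈ D, ∃ h ∈ D, (ρ i g - 1) * (ρ j h - 1) ≠ 0 := by
        intro i j hij hi hj
        by_contra hcon
        push Not at hcon
        have h1 : brk (ρ j) D = ⊤ := by
          rcases hirr (brk (ρ j) D) (by
            intro k g v hv
            by_cases hk : j = k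
            · subst hk; exact brk_inv (ρ j) D hDn g v hv
            · exact brk_inv' (ρ j) D (ρ k g) (fun g' => hc j k hk g' g) v hv) with h | h
          · exact absurd (brk_bot _ _ h) hj
          · exact h
        apply hi
        intro g hg
        rw [MonoidHom.mem_ker]
        ext v
        have h2 := brk_kill (ρ j) D (ρ i g - 1) (fun h hh => hcon g hg h hh) v
          (by rw [h1]; exact Submodule.mem_top)
        have h3 : ρ i g v - v = 0 := h2
        rw [sub_eq_zero.1 h3]; rfl
      obtain ⟨U, hU0, hU, hUmin⟩ := exists_min (ρ i0)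
      have ht : isoU (ρ i0) U hU = ⊤ := by
        rcases hirr (isoU (ρ i0) U hU) (by
          intro i g v hv
          by_cases hi : i0 = i
          · subst hi; exact isoU_inv _ U hU g v hv
          · exact isoU_inv' (ρ i0) U hU (ρ i) (hc i0 i hi) g v hv) with h | h
        · exact absurd h (isoU_ne (ρ i0) U hU hU0)
        · exact h
      have hi0nt : ¬ D ≤ (ρ i0).ker := (ntr p0 hp0).1
      have hUa : a ≤ finrank K U := by
        by_contra hcon
        exact hi0nt (triv_iso (ρ i0) U hU ht D (hmin U (restr (ρ i0) U hU) (by omega)))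
      have hprod := finrank_mul_homU (ρ i0) U hU hU0 hUmin
      set M := HomU (ρ i0) U hU with hM
      -- action on M
      let ρ' : ι → H →* Module.End K M := fun i =>
        if hi : i0 = i then 1 else actM (ρ i0) U hU (ρ i) (hc i0 i hi)
      have hc' : ∀ i j, i ≠ j → ∀ g h, ρ' i g * ρ' j h = ρ' j h * ρ' i g := by
        intro i j hij g h
        by_cases hi : i0 = i
        · simp [ρ', hi]
        · by_cases hj : i0 = j
          · simp [ρ', hj]
          · simp only [ρ', hi, hj, dif_neg, not_false_eq_true]
            apply LinearMap.ext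
            intro f
            apply Subtype.ext
            apply LinearMap.ext
            intro u
            exact LinearMap.congr_fun (hc i j hij g h) (f.1 u)
      -- transfer of nontriviality to M
      have tr1 : ∀ j, i0 ≠ j → (¬ D ≤ (ρ j).ker) → ¬ D ≤ (ρ' j).ker := by
        intro j hj hjn hcon
        apply hjn
        intro g hg
        have h1 := hcon hg
        rw [MonoidHom.mem_ker] at h1 ⊢
        apply iso_ext (ρ i0) U hU ht
        intro f hf u
        have h2 := congrArg (fun q : M => q.1 u) (LinearMap.congr_fun h1 ⟨f, hf⟩)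
        simp only [ρ', hj, dif_neg, not_false_eq_true] at h2
        exact h2
      have tr2 : ∀ i j, i0 ≠ i → i0 ≠ j → ∀ g h, (ρ i g - 1) * (ρ j h - 1) ≠ 0 →
          (ρ' i g - 1) * (ρ' j h - 1) ≠ 0 := by
        intro i j hi hj g h hne hcon
        apply hne
        apply iso_ext (ρ i0) U hU ht
        intro f hf u
        have h2 := congrArg (fun q : M => q.1 u) (LinearMap.congr_fun hcon ⟨f, hf⟩)
        simp only [ρ', hi, hj, dif_neg, not_false_eq_true] at h2
        exact h2
      -- the index set
      let S : Finset ι := s.image Prod.fst ∪ s.image Prod.snd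
      have hSmem : ∀ i ∈ S, ¬ D ≤ (ρ i).ker := by
        intro i hi
        rcases Finset.mem_union.1 hi with h | h
        · obtain ⟨p, hp, rfl⟩ := Finset.mem_image.1 h
          exact (ntr p hp).1
        · obtain ⟨p, hp, rfl⟩ := Finset.mem_image.1 h
          exact (ntr p hp).2
      have hi0S : i0 ∈ S := Finset.mem_union_left _ (Finset.mem_image_of_mem _ hp0)
      have hj0S : p0.2 ∈ S := Finset.mem_union_right _ (Finset.mem_image_of_mem _ hp0)
      have hsS : s ⊆ S.offDiag := by
        intro p hp
        rw [Finset.mem_offDiag]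
        exact ⟨Finset.mem_union_left _ (Finset.mem_image_of_mem _ hp),
          Finset.mem_union_right _ (Finset.mem_image_of_mem _ hp), (hs p hp).1⟩
      have hcard : s.card ≤ S.card * S.card - S.card := by
        rw [← Finset.offDiag_card]
        exact Finset.card_le_card hsS
      have hScard : 2 ≤ S.card := by
        have : ({i0, p0.2} : Finset ι) ⊆ S := by
          intro x hx
          rw [Finset.mem_insert, Finset.mem_singleton] at hx
          rcases hx with rfl | rfl
          · exact hi0S
          · exact hj0S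
        have h1 := Finset.card_le_card this
        rwa [Finset.card_pair hp0ne] at h1
      have hMa : a ≤ finrank K M := by
        by_contra hcon
        exact tr1 p0.2 hp0ne (ntr p0 hp0).2 (hmin M (ρ' p0.2) (by omega))
      have hlt : finrank K M ≤ n := by nlinarith
      have hIH := ih M ρ' ((S.erase i0).offDiag) hc' (by
        intro p hp
        rw [Finset.mem_offDiag] at hp
        obtain ⟨h1, h2, h3⟩ := hp
        rw [Finset.mem_erase] at h1 h2
        refine ⟨h3, ?_⟩
        obtain ⟨g, hg, h, hh, hne⟩ := inter p.1 p.2 h3 (hSmem _ h1.2) (hSmem _ h2.2)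
        exact ⟨g, hg, h, hh, tr2 p.1 p.2 (Ne.symm h1.1) (Ne.symm h2.1) g h hne⟩) hlt
      rw [Finset.offDiag_card, Finset.card_erase_of_mem hi0S] at hIH
      exact arith_step S.card a s.card (finrank K M) (finrank K V) ha hScard hcard
        (le_trans (Nat.mul_le_mul_right _ hUa) hprod) hMa hIH
    · push Not at hirr
      obtain ⟨W, hW, hb, htop⟩ := hirr
      have hWi : ∀ i, ∀ g, ∀ v ∈ W, ρ i g v ∈ W := fun i g v hv => hW i g v hv
      have hlt : finrank K W < finrank K V := Submodule.finrank_lt htop
      have hq : finrank K (V ⧸ W) + finrank K W = finrank K V :=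
        Submodule.finrank_quotient_add_finrank W
      have hWpos : 0 < finrank K W := by
        rw [Module.finrank_pos_iff]
        exact Submodule.nontrivial_iff_ne_bot.mpr hb
      let P1 : ι × ι → Prop := fun p => ∃ g ∈ D, ∃ h ∈ D,
        ((restr (ρ p.1) W (hWi p.1)) g - 1) * ((restr (ρ p.2) W (hWi p.2)) h - 1) ≠ 0
      let P2 : ι × ι → Prop := fun p => ∃ g ∈ D, ∃ h ∈ D,
        ((quo (ρ p.1) W (hWi p.1)) g - 1) * ((quo (ρ p.2) W (hWi p.2)) h - 1) ≠ 0
      have h1 := ih W (fun i => restr (ρ i) W (hWi i)) (s.filter P1)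
        (by
          intro i j hij g h
          apply LinearMap.ext
          intro v
          apply Subtype.ext
          exact LinearMap.congr_fun (hc i j hij g h) v.1)
        (by
          intro p hp
          rw [Finset.mem_filter] at hp
          exact ⟨(hs p hp.1).1, hp.2⟩) (by omega)
      have h2 := ih (V ⧸ W) (fun i => quo (ρ i) W (hWi i)) (s.filter P2)
        (by
          intro i j hij g h
          apply LinearMap.ext
          intro v
          obtain ⟨v, rfl⟩ := Submodule.mkQ_surjective W v
          have := LinearMap.congr_fun (hc i j hij g h) v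
          exact congrArg W.mkQ this)
        (by
          intro p hp
          rw [Finset.mem_filter] at hp
          exact ⟨(hs p hp.1).1, hp.2⟩) (by omega)
      have h3 : s.card ≤ (s.filter P1).card + (s.filter P2).card := by
        refine le_trans (Finset.card_le_card ?_) (Finset.card_union_le _ _)
        intro p hp
        rw [Finset.mem_union, Finset.mem_filter, Finset.mem_filter]
        by_contra hcon
        push Not at hcon
        obtain ⟨hc1, hc2⟩ := hcon
        have n1 := hc1 hp
        have n2 := hc2 hp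
        simp only [P1, P2] at n1 n2
        push Not at n1 n2
        obtain ⟨hpne, g, hg, h, hh, hne⟩ := hs p hp
        apply hne
        apply pair_ext (ρ p.1) (ρ p.2) (hc p.1 p.2 hpne) D hD D hD W _ _ g hg h hh
        · intro g hg h hh w hw
          have := LinearMap.congr_fun (n1 g hg h hh) (⟨w, hw⟩ : W)
          exact congrArg Subtype.val this
        · intro g hg h hh v
          have := LinearMap.congr_fun (n2 g hg h hh) (W.mkQ v)
          have h4 : W.mkQ (((ρ p.1 g - 1) * (ρ p.2 h - 1)) v) = 0 := this
          exact (Submodule.Quotient.mk_eq_zero W).1 h4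
      nlinarith

end Pool.Agent.H29R2.QD
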