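import Mathlib

set_option autoImplicit false

/-! The algebraic identity behind the kernel of the Burau representation of `B_6`. -/

namespace Pool.Agent.H29R2.QD

/-- The identity `s₂ x s₂ = 0` in the algebra of operators `s_i = σ_i - 1` satisfying
`s_i s_j = 0` for `|i - j| ≥ 2` and `s_i s_j s_i = - s_i (1 + s_i)` for `|i - j| = 1`. -/
theorem alg_identity {R : Type*} [Ring R] (a b c d e b' e' u : R)
    (hb'' : b' * (1 + b) = 1)
    (he'' : e' * (1 + e) = 1)
    (hu : (1 + c) * u = 1)
    (hac : a * c = 0) (hda : d * a = 0) (hdb : d * b = 0) (hea : e * a = 0) (heb : e * b = 0)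
    (hca : c * a = 0) (hec : e * c = 0) (hce : c * e = 0)
    (haba : a * b * a = -(a * (1 + a))) (hbab : b * a * b = -(b * (1 + b)))
    (hbcb : b * c * b = -(b * (1 + b))) (hcbc : c * b * c = -(c * (1 + c)))
    (hcdc : c * d * c = -(c * (1 + c))) (hdcd : d * c * d = -(d * (1 + d)))
    (hded : d * e * d = -(d * (1 + d))) (hede : e * d * e = -(e * (1 + e))) :
    c * (((1 + d) * e' ^ 3 * (1 + d)) * (b' * (1 + a) ^ 3 * b')) * c = 0 := by
  -- quadratic relations
  have aab : a * a * b = a * b * b := by
    have h1 : a * (b * a * b) = a * b * a * b := by noncomm_ring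
    rw [hbab, haba] at h1
    have h2 : a * a * b - a * b * b = a * -(b * (1 + b)) - -(a * (1 + a)) * b := by noncomm_ring
    rw [h1, sub_self, sub_eq_zero] at h2
    exact h2
  have bbc : b * b * c = b * c * c := by
    have h1 : b * (c * b * c) = b * c * b * c := by noncomm_ring
    rw [hcbc, hbcb] at h1
    have h2 : b * b * c - b * c * c = b * -(c * (1 + c)) - -(b * (1 + b)) * c := by noncomm_ring
    rw [h1, sub_self, sub_eq_zero] at h2
    exact h2
  have ddc : d * d * c = d * c * c := by
    have h1 : d * (c * d * c) = d * c * d * c := by noncomm_ring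
    rw [hcdc, hdcd] at h1
    have h2 : d * d * c - d * c * c = d * -(c * (1 + c)) - -(d * (1 + d)) * c := by noncomm_ring
    rw [h1, sub_self, sub_eq_zero] at h2
    exact h2
  have eed : e * e * d = e * d * d := by
    have h1 : e * (d * e * d) = e * d * e * d := by noncomm_ring
    rw [hded, hede] at h1
    have h2 : e * e * d - e * d * d = e * -(d * (1 + d)) - -(e * (1 + e)) * d := by noncomm_ring
    rw [h1, sub_self, sub_eq_zero] at h2
    exact h2
  have cu : ∀ y : R, y * (1 + c) * u = y := by
    intro y; rw [mul_assoc, hu, mul_one]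
  have inv1 : ∀ y z : R, (1 + b) * z = y → b' * y = z := by
    intro y z h; rw [← h, ← mul_assoc, hb'', one_mul]
  have inv2 : ∀ y z : R, (1 + e) * z = y → e' * y = z := by
    intro y z h; rw [← h, ← mul_assoc, he'', one_mul]
  -- action of `b'`
  have r1 : b' * c = c - b * c * u := by
    apply inv1
    have h1 : (1 + b) * (c - b * c * u) = c + b * c - (b * c + b * b * c) * u := by noncomm_ring
    rw [h1, bbc]
    have h2 : (b * c + b * c * c) * u = b * c * (1 + c) * u := by noncomm_ring
    rw [h2, cu]; abel
  have r2 : b' * (b * c) = b * c * u := by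
    apply inv1
    have h1 : (1 + b) * (b * c * u) = (b * c + b * b * c) * u := by noncomm_ring
    rw [h1, bbc]
    have h2 : (b * c + b * c * c) * u = b * c * (1 + c) * u := by noncomm_ring
    rw [h2, cu]
  have r3 : b' * (a * b * c) = a * b * c + b * c := by
    apply inv1
    have h1 : (1 + b) * (a * b * c + b * c) = a * b * c + b * c + b * a * b * c + b * b * c := by
      noncomm_ring
    rw [h1, hbab]; noncomm_ring
  -- action of `1 + a`
  have p1 : (1 + a) * c = c := by rw [add_mul, one_mul, hac, add_zero]
  have p2 : (1 + a) * (b * c) = b * c + a * b * c := by noncomm_ring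
  have p3 : (1 + a) * (a * b * c) = a * b * c * (1 + c) := by
    have h1 : (1 + a) * (a * b * c) = a * b * c + a * a * b * c := by noncomm_ring
    rw [h1, aab]
    have h2 : a * b * b * c = a * (b * b * c) := by noncomm_ring
    rw [h2, bbc]; noncomm_ring
  have P1 : (1 + a) ^ 3 * c = c := by
    rw [pow_succ, pow_two, mul_assoc, mul_assoc, p1, p1, p1]
  have P2 : (1 + a) ^ 3 * (b * c) =
      b * c + a * b * c + a * b * c * (1 + c) + a * b * c * (1 + c) * (1 + c) := by
    rw [pow_succ, pow_two, mul_assoc, mul_assoc, p2]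
    have h1 : (1 + a) * (b * c + a * b * c) = b * c + a * b * c + a * b * c * (1 + c) := by
      rw [mul_add, p2, p3]
    rw [h1]
    have h2 : (1 + a) * (b * c + a * b * c + a * b * c * (1 + c)) =
        (1 + a) * (b * c) + (1 + a) * (a * b * c) + (1 + a) * (a * b * c) * (1 + c) := by
      noncomm_ring
    rw [h2, p2, p3]
  -- `P c`
  have Pc : (b' * (1 + a) ^ 3 * b') * c = c - b * c * u - b * c * u * u -
      (a * b * c + b * c) * (u + 1 + (1 + c)) := by
    have h1 : (b' * (1 + a) ^ 3 * b') * c = b' * ((1 + a) ^ 3 * (b' * c)) := by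
      simp only [mul_assoc]
    rw [h1, r1]
    have h2 : (1 + a) ^ 3 * (c - b * c * u) = (1 + a) ^ 3 * c - (1 + a) ^ 3 * (b * c) * u := by
      rw [mul_sub, mul_assoc _ (b * c) u]
    rw [h2, P1, P2]
    have h3 : b' * (c - (b * c + a * b * c + a * b * c * (1 + c) +
        a * b * c * (1 + c) * (1 + c)) * u) = b' * c - b' * (b * c) * u - b' * (a * b * c) * u -
        b' * (a * b * c) * ((1 + c) * u) - b' * (a * b * c) * (1 + c) * ((1 + c) * u) := by
      noncomm_ring
    rw [h3, r1, r2, r3, hu]; noncomm_ring
  -- action of `d`, `e'`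
  have q1 : ∀ y : R, (1 + d) * (b * y) = b * y := by
    intro y
    have : (1 + d) * (b * y) = b * y + d * b * y := by noncomm_ring
    rw [this, hdb, zero_mul, add_zero]
  have q2 : ∀ y : R, (1 + d) * (a * y) = a * y := by
    intro y
    have : (1 + d) * (a * y) = a * y + d * a * y := by noncomm_ring
    rw [this, hda, zero_mul, add_zero]
  have q3 : ∀ y : R, e' * (b * y) = b * y := by
    intro y
    apply inv2
    have : (1 + e) * (b * y) = b * y + e * b * y := by noncomm_ring
    rw [this, heb, zero_mul, add_zero]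
  have q4 : ∀ y : R, e' * (a * y) = a * y := by
    intro y
    apply inv2
    have : (1 + e) * (a * y) = a * y + e * a * y := by noncomm_ring
    rw [this, hea, zero_mul, add_zero]
  have q5 : e' * c = c := by
    apply inv2
    rw [add_mul, one_mul, hec, add_zero]
  have q6 : e' * (d * c) = d * c - e * d * c * u := by
    apply inv2
    have h1 : (1 + e) * (d * c - e * d * c * u) =
        d * c + e * d * c - (e * d * c + e * e * d * c) * u := by noncomm_ring
    rw [h1, eed]
    have h2 : e * d * d * c = e * (d * d * c) := by noncomm_ring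
    rw [h2, ddc]
    have h3 : (e * d * c + e * (d * c * c)) * u = e * d * c * (1 + c) * u := by noncomm_ring
    rw [h3, cu]; abel
  have q7 : e' * (e * d * c) = e * d * c * u := by
    apply inv2
    have h1 : (1 + e) * (e * d * c * u) = (e * d * c + e * e * d * c) * u := by noncomm_ring
    rw [h1, eed]
    have h2 : e * d * d * c = e * (d * d * c) := by noncomm_ring
    rw [h2, ddc]
    have h3 : (e * d * c + e * (d * c * c)) * u = e * d * c * (1 + c) * u := by noncomm_ring
    rw [h3, cu]
  -- `Q` fixes `b y` and `a y`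
  have Qb : ∀ y : R, ((1 + d) * e' ^ 3 * (1 + d)) * (b * y) = b * y := by
    intro y
    have : ((1 + d) * e' ^ 3 * (1 + d)) * (b * y) =
        (1 + d) * (e' * (e' * (e' * ((1 + d) * (b * y))))) := by
      simp only [pow_succ, pow_zero, one_mul, mul_assoc]
    rw [this, q1, q3, q3, q3, q1]
  have Qa : ∀ y : R, ((1 + d) * e' ^ 3 * (1 + d)) * (a * y) = a * y := by
    intro y
    have : ((1 + d) * e' ^ 3 * (1 + d)) * (a * y) =
        (1 + d) * (e' * (e' * (e' * ((1 + d) * (a * y))))) := by
      simp only [pow_succ, pow_zero, one_mul, mul_assoc]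
    rw [this, q2, q4, q4, q4, q2]
  have Qc : ((1 + d) * e' ^ 3 * (1 + d)) * c = c + d * c + d * c + d * c * c -
      (e * d * c + d * e * d * c) * (u + u * u + u * u * u) := by
    have h1 : ((1 + d) * e' ^ 3 * (1 + d)) * c =
        (1 + d) * (e' * (e' * (e' * ((1 + d) * c)))) := by
      simp only [pow_succ, pow_zero, one_mul, mul_assoc]
    have h2 : e' * (c + d * c) = c + d * c - e * d * c * u := by
      rw [mul_add, q5, q6]; abel
    have h3 : e' * (c + d * c - e * d * c * u) = c + d * c - e * d * c * (u + u * u) := by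
      have : e' * (c + d * c - e * d * c * u) = e' * (c + d * c) - e' * (e * d * c) * u := by
        noncomm_ring
      rw [this, h2, q7]; noncomm_ring
    have h4 : e' * (c + d * c - e * d * c * (u + u * u)) =
        c + d * c - e * d * c * (u + u * u + u * u * u) := by
      have : e' * (c + d * c - e * d * c * (u + u * u)) =
          e' * (c + d * c) - e' * (e * d * c) * (u + u * u) := by
        noncomm_ring
      rw [this, h2, q7]; noncomm_ring
    rw [h1, show (1 + d) * c = c + d * c by noncomm_ring, h2, h3, h4, ← ddc]; noncomm_ring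
  -- put together
  have main : ((1 + d) * e' ^ 3 * (1 + d)) * ((b' * (1 + a) ^ 3 * b') * c) =
      c + d * c + d * c + d * c * c - (e * d * c + d * e * d * c) * (u + u * u + u * u * u) -
      b * c * u - b * c * u * u - (a * b * c + b * c) * (u + 1 + (1 + c)) := by
    rw [Pc]
    have h1 : ((1 + d) * e' ^ 3 * (1 + d)) * (c - b * c * u - b * c * u * u -
        (a * b * c + b * c) * (u + 1 + (1 + c))) =
        ((1 + d) * e' ^ 3 * (1 + d)) * c - ((1 + d) * e' ^ 3 * (1 + d)) * (b * (c * u)) -
        ((1 + d) * e' ^ 3 * (1 + d)) * (b * (c * u * u)) -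
        ((1 + d) * e' ^ 3 * (1 + d)) * (a * (b * c * (u + 1 + (1 + c)))) -
        ((1 + d) * e' ^ 3 * (1 + d)) * (b * (c * (u + 1 + (1 + c)))) := by
      generalize ((1 + d) * e' ^ 3 * (1 + d)) = Q
      noncomm_ring
    rw [h1, Qc, Qb, Qb, Qa, Qb]; noncomm_ring
  have final : c * (((1 + d) * e' ^ 3 * (1 + d)) * (b' * (1 + a) ^ 3 * b')) * c =
      c * (((1 + d) * e' ^ 3 * (1 + d)) * ((b' * (1 + a) ^ 3 * b') * c)) := by
    simp only [mul_assoc]
  rw [final, main]
  have f1 : c * (c + d * c + d * c + d * c * c -
      (e * d * c + d * e * d * c) * (u + u * u + u * u * u) -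
      b * c * u - b * c * u * u - (a * b * c + b * c) * (u + 1 + (1 + c))) =
      c * c + c * d * c + c * d * c + c * d * c * c - (c * e * (d * c) + c * (d * e * d) * c) *
        (u + u * u + u * u * u) - c * b * c * u - c * b * c * u * u -
        (c * a * (b * c) + c * b * c) * (u + 1 + (1 + c)) := by noncomm_ring
  rw [f1, hce, hca, hded, hcdc, hcbc]
  have f2 : c * -(d * (1 + d)) * c = c * (1 + c) * (1 + c) := by
    have : c * -(d * (1 + d)) * c = -(c * d * c) - c * (d * d * c) := by noncomm_ring
    rw [this, ddc]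
    have : -(c * d * c) - c * (d * c * c) = -(c * d * c) - c * d * c * c := by noncomm_ring
    rw [this, hcdc]; noncomm_ring
  rw [f2]
  have g1 : c * (1 + c) * (1 + c) * (u + u * u + u * u * u) = c * (1 + c) + c + c * u := by
    have : c * (1 + c) * (1 + c) * (u + u * u + u * u * u) =
        c * (1 + c) * ((1 + c) * u) + c * (1 + c) * ((1 + c) * u) * u +
        c * (1 + c) * ((1 + c) * u) * u * u := by noncomm_ring
    rw [this, hu, mul_one, cu]
  have g2 : c * (1 + c) * u = c := cu c
  have g3 : (0 * (d * c) + c * (1 + c) * (1 + c)) * (u + u * u + u * u * u) =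
      c * (1 + c) + c + c * u := by rw [zero_mul, zero_add, g1]
  rw [g3]
  have g4 : c * c + -(c * (1 + c)) + -(c * (1 + c)) + -(c * (1 + c)) * c -
      (c * (1 + c) + c + c * u) - -(c * (1 + c)) * u - -(c * (1 + c)) * u * u -
      (0 * (b * c) + -(c * (1 + c))) * (u + 1 + (1 + c)) =
      c * c + -(c * (1 + c)) + -(c * (1 + c)) + -(c * (1 + c)) * c -
      (c * (1 + c) + c + c * u) + c * (1 + c) * u + c * (1 + c) * u * u +
      c * (1 + c) * u + (c * (1 + c)) * (1 + (1 + c)) := by noncomm_ring
  rw [g4, g2]; noncomm_ring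

end Pool.Agent.H29R2.QD
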