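import Mathlib
import Pool.Agent.H29R2.QD.AlgZ

set_option autoImplicit false

/-! Cyclic systems of operators with `(t_a - 1)(t_b - 1) = 0` for non-adjacent `a, b`. -/

namespace Pool.Agent.H29R2.QD

/-- a cyclic system of invertible elements -/
structure Cyc (n : ℕ) (R : Type*) [Ring R] where
  t : ℤ → R
  t' : ℤ → R
  tt' : ∀ a, t a * t' a = 1
  t't : ∀ a, t' a * t a = 1
  period : ∀ a k : ℤ, t (a + k * n) = t a
  braid : ∀ a, t a * t (a + 1) * t a = t (a + 1) * t a * t (a + 1)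
  zero : ∀ a b : ℤ, a + 2 ≤ b → b + 2 ≤ a + n →
    (t a - 1) * (t b - 1) = 0 ∧ (t b - 1) * (t a - 1) = 0

namespace Cyc
variable {n : ℕ} {R : Type*} [Ring R] (C : Cyc n R)

/-- `s a = t a - 1` -/
def s (a : ℤ) : R := C.t a - 1

/-- the element `E a` -/
def E (a : ℤ) : R := C.s a + C.s a * C.s a + C.s a * C.s (a + 1) * C.s a

theorem t_eq (a : ℤ) : C.t a = 1 + C.s a := by unfold s; abel

theorem E_alt (a : ℤ) :
    C.E a = C.s (a + 1) + C.s (a + 1) * C.s (a + 1) + C.s (a + 1) * C.s a * C.s (a + 1) := by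
  have h := C.braid a
  rw [C.t_eq a, C.t_eq (a + 1)] at h
  unfold E
  generalize C.s a = x at *
  generalize C.s (a + 1) = y at *
  have h1 : (1 + x) * (1 + y) * (1 + x) - (1 + y) * (1 + x) * (1 + y) =
      (x + x * x + x * y * x) - (y + y * y + y * x * y) := by noncomm_ring
  rw [h, sub_self] at h1
  exact (sub_eq_zero.1 h1.symm)

theorem s_period (a k : ℤ) : C.s (a + k * n) = C.s a := by
  unfold s; rw [C.period]

theorem E_period (a k : ℤ) : C.E (a + k * n) = C.E a := by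
  unfold E
  rw [C.s_period, show a + k * n + 1 = (a + 1) + k * n by ring, C.s_period]

theorem sE (hn : 4 ≤ n) (a j : ℤ) (h1 : a + 2 ≤ j) (h2 : j + 1 ≤ a + n) :
    C.s j * C.E a = 0 ∧ C.E a * C.s j = 0 := by
  by_cases h : j + 2 ≤ a + n
  · obtain ⟨z1, z2⟩ := C.zero a j h1 h
    have z1' : C.s a * C.s j = 0 := z1
    have z2' : C.s j * C.s a = 0 := z2
    constructor
    · have : C.s j * C.E a = C.s j * C.s a * (1 + C.s a + C.s (a + 1) * C.s a) := by
        unfold E; noncomm_ring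
      rw [this, z2', zero_mul]
    · have : C.E a * C.s j = (1 + C.s a + C.s a * C.s (a + 1)) * (C.s a * C.s j) := by
        unfold E; noncomm_ring
      rw [this, z1', mul_zero]
  · obtain ⟨z1, z2⟩ := C.zero (a + 1) j (by omega) (by omega)
    have z1' : C.s (a + 1) * C.s j = 0 := z1
    have z2' : C.s j * C.s (a + 1) = 0 := z2
    constructor
    · have : C.s j * C.E a = C.s j * C.s (a + 1) * (1 + C.s (a + 1) + C.s a * C.s (a + 1)) := by
        rw [E_alt]; noncomm_ring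
      rw [this, z2', zero_mul]
    · have : C.E a * C.s j = (1 + C.s (a + 1) + C.s (a + 1) * C.s a) *
          (C.s (a + 1) * C.s j) := by
        rw [E_alt]; noncomm_ring
      rw [this, z1', mul_zero]

theorem tE (hn : 4 ≤ n) (a j k : ℤ) (h1 : a + 2 ≤ j + k * n) (h2 : j + k * n + 1 ≤ a + n) :
    C.t j * C.E a = C.E a ∧ C.t' j * C.E a = C.E a ∧ C.E a * C.t j = C.E a ∧
      C.E a * C.t' j = C.E a := by
  obtain ⟨z1, z2⟩ := C.sE hn a (j + k * n) h1 h2
  rw [C.s_period] at z1 z2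
  have e1 : C.t j * C.E a = C.E a := by rw [C.t_eq, add_mul, one_mul, z1, add_zero]
  have e2 : C.E a * C.t j = C.E a := by rw [C.t_eq, mul_add, mul_one, z2, add_zero]
  refine ⟨e1, ?_, e2, ?_⟩
  · conv_lhs => rw [← e1]
    rw [← mul_assoc, C.t't, one_mul]
  · conv_lhs => rw [← e2]
    rw [mul_assoc, C.tt', mul_one]

theorem comm2 (hn : 4 ≤ n) (a : ℤ) : C.t a * C.t (a + 2) = C.t (a + 2) * C.t a := by
  obtain ⟨z1, z2⟩ := C.zero a (a + 2) le_rfl (by omega)
  have e1 : C.t a * C.t (a + 2) = (C.t a - 1) * (C.t (a + 2) - 1) + C.t a + C.t (a + 2) - 1 := by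
    noncomm_ring
  have e2 : C.t (a + 2) * C.t a = (C.t (a + 2) - 1) * (C.t a - 1) + C.t a + C.t (a + 2) - 1 := by
    noncomm_ring
  rw [e1, e2, z1, z2]

theorem conjE (a : ℤ) (X : R) (h1 : X * C.t a = C.t (a + 1) * X)
    (h2 : X * C.t (a + 1) = C.t (a + 2) * X) : X * C.E a = C.E (a + 1) * X := by
  have s1 : X * C.s a = C.s (a + 1) * X := by
    unfold s; rw [mul_sub, sub_mul, h1, mul_one, one_mul]
  have s2 : X * C.s (a + 1) = C.s (a + 1 + 1) * X := by
    unfold s; rw [mul_sub, sub_mul, h2, mul_one, one_mul, add_assoc]; rfl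
  unfold E
  have : X * (C.s a + C.s a * C.s a + C.s a * C.s (a + 1) * C.s a) =
      X * C.s a + X * C.s a * C.s a + X * C.s a * C.s (a + 1) * C.s a := by noncomm_ring
  rw [this, s1]
  have e1 : C.s (a + 1) * X * C.s a = C.s (a + 1) * C.s (a + 1) * X := by
    rw [mul_assoc, s1, mul_assoc]
  have e2 : C.s (a + 1) * X * C.s (a + 1) * C.s a =
      C.s (a + 1) * C.s (a + 1 + 1) * C.s (a + 1) * X := by
    rw [mul_assoc (C.s (a + 1)) X, s2]
    simp only [mul_assoc]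
    rw [s1]
  rw [e1, e2]; noncomm_ring

theorem swap1 (hn : 4 ≤ n) (a : ℤ) : C.t (a + 1) * C.E a = C.E (a + 1) * C.t (a + 1) := by
  have hb := C.braid a
  have hb2 := C.braid (a + 1)
  have hc := C.comm2 hn a
  rw [show a + 1 + 1 = a + 2 by ring] at hb2
  have hX := C.conjE a (C.t a * C.t (a + 1) * C.t (a + 2)) (by
      calc C.t a * C.t (a + 1) * C.t (a + 2) * C.t a
          = C.t a * C.t (a + 1) * (C.t (a + 2) * C.t a) := by simp only [mul_assoc]
        _ = (C.t a * C.t (a + 1) * C.t a) * C.t (a + 2) := by rw [← hc]; simp only [mul_assoc]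
        _ = C.t (a + 1) * (C.t a * C.t (a + 1) * C.t (a + 2)) := by
            rw [hb]; simp only [mul_assoc]) (by
      calc C.t a * C.t (a + 1) * C.t (a + 2) * C.t (a + 1)
          = C.t a * (C.t (a + 1) * C.t (a + 2) * C.t (a + 1)) := by simp only [mul_assoc]
        _ = (C.t a * C.t (a + 2)) * C.t (a + 1) * C.t (a + 2) := by
            rw [hb2]; simp only [mul_assoc]
        _ = C.t (a + 2) * (C.t a * C.t (a + 1) * C.t (a + 2)) := by
            rw [hc]; simp only [mul_assoc])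
  obtain ⟨f1, _, _, f4⟩ := C.tE hn a (a + 2) 0 (by ring_nf; exact le_rfl) (by push_cast; linarith [(by exact_mod_cast hn : (4 : ℤ) ≤ n)])
  obtain ⟨_, g2, g3, _⟩ := C.tE hn (a + 1) a 1 (by push_cast; linarith [(by exact_mod_cast hn : (4 : ℤ) ≤ n)]) (by ring_nf; exact le_rfl)
  -- t a t(a+1) E a = E(a+1) t(a+1) t(a+2)
  have h1 : C.t a * C.t (a + 1) * C.E a = C.E (a + 1) * C.t (a + 1) * C.t (a + 2) := by
    calc C.t a * C.t (a + 1) * C.E a = C.t a * C.t (a + 1) * (C.t (a + 2) * C.E a) := by rw [f1]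
      _ = C.t a * C.t (a + 1) * C.t (a + 2) * C.E a := by simp only [mul_assoc]
      _ = C.E (a + 1) * (C.t a * C.t (a + 1) * C.t (a + 2)) := hX
      _ = (C.E (a + 1) * C.t a) * C.t (a + 1) * C.t (a + 2) := by simp only [mul_assoc]
      _ = C.E (a + 1) * C.t (a + 1) * C.t (a + 2) := by rw [g3]
  have h2 : C.t (a + 1) * C.E a = C.E (a + 1) * C.t (a + 1) * C.t (a + 2) := by
    calc C.t (a + 1) * C.E a = C.t' a * (C.t a * C.t (a + 1) * C.E a) := by
          rw [← mul_assoc, ← mul_assoc, C.t't, one_mul]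
      _ = (C.t' a * C.E (a + 1)) * C.t (a + 1) * C.t (a + 2) := by
          rw [h1]; simp only [mul_assoc]
      _ = C.E (a + 1) * C.t (a + 1) * C.t (a + 2) := by rw [g2]
  calc C.t (a + 1) * C.E a = C.t (a + 1) * (C.E a * C.t' (a + 2)) := by rw [f4]
    _ = C.E (a + 1) * C.t (a + 1) * C.t (a + 2) * C.t' (a + 2) := by rw [← mul_assoc, h2]
    _ = C.E (a + 1) * C.t (a + 1) := by rw [mul_assoc, C.tt', mul_one]

theorem swap2 (hn : 4 ≤ n) (a : ℤ) : C.t (a + 1) * C.E (a + 1) = C.E a * C.t (a + 1) := by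
  have hb := C.braid a
  have hb2 := C.braid (a + 1)
  have hc := C.comm2 hn a
  rw [show a + 1 + 1 = a + 2 by ring] at hb2
  -- Y = t(a+2) t(a+1) t a ; Y t(a+1) = t a Y, Y t(a+2) = t(a+1) Y
  have y1 : C.t (a + 2) * C.t (a + 1) * C.t a * C.t (a + 1) =
      C.t a * (C.t (a + 2) * C.t (a + 1) * C.t a) := by
    calc C.t (a + 2) * C.t (a + 1) * C.t a * C.t (a + 1)
        = C.t (a + 2) * (C.t (a + 1) * C.t a * C.t (a + 1)) := by simp only [mul_assoc]
      _ = (C.t (a + 2) * C.t a) * C.t (a + 1) * C.t a := by rw [← hb]; simp only [mul_assoc]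
      _ = C.t a * (C.t (a + 2) * C.t (a + 1) * C.t a) := by rw [← hc]; simp only [mul_assoc]
  have y2 : C.t (a + 2) * C.t (a + 1) * C.t a * C.t (a + 2) =
      C.t (a + 1) * (C.t (a + 2) * C.t (a + 1) * C.t a) := by
    calc C.t (a + 2) * C.t (a + 1) * C.t a * C.t (a + 2)
        = C.t (a + 2) * C.t (a + 1) * (C.t a * C.t (a + 2)) := by simp only [mul_assoc]
      _ = (C.t (a + 2) * C.t (a + 1) * C.t (a + 2)) * C.t a := by rw [hc]; simp only [mul_assoc]
      _ = C.t (a + 1) * (C.t (a + 2) * C.t (a + 1) * C.t a) := by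
          rw [← hb2]; simp only [mul_assoc]
  obtain ⟨Y, hY⟩ : ∃ Y, Y = C.t (a + 2) * C.t (a + 1) * C.t a := ⟨_, rfl⟩
  rw [← hY] at y1 y2
  have s1 : Y * C.s (a + 1) = C.s a * Y := by
    unfold s; rw [mul_sub, sub_mul, y1, mul_one, one_mul]
  have s2 : Y * C.s (a + 1 + 1) = C.s (a + 1) * Y := by
    rw [show a + 1 + 1 = a + 2 by ring]
    unfold s; rw [mul_sub, sub_mul, y2, mul_one, one_mul]
  have hYE : Y * C.E (a + 1) = C.E a * Y := by
    unfold E
    have : Y * (C.s (a + 1) + C.s (a + 1) * C.s (a + 1) + C.s (a + 1) * C.s (a + 1 + 1) *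
        C.s (a + 1)) = Y * C.s (a + 1) + Y * C.s (a + 1) * C.s (a + 1) +
        Y * C.s (a + 1) * C.s (a + 1 + 1) * C.s (a + 1) := by noncomm_ring
    rw [this, s1]
    have e1 : C.s a * Y * C.s (a + 1) = C.s a * C.s a * Y := by
      rw [mul_assoc, s1, mul_assoc]
    have e2 : C.s a * Y * C.s (a + 1 + 1) * C.s (a + 1) =
        C.s a * C.s (a + 1) * C.s a * Y := by
      rw [mul_assoc (C.s a) Y, s2]
      simp only [mul_assoc]
      rw [s1]
    rw [e1, e2]; noncomm_ring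
  obtain ⟨_, f2, f3, _⟩ := C.tE hn a (a + 2) 0 (by ring_nf; exact le_rfl) (by push_cast; linarith [(by exact_mod_cast hn : (4 : ℤ) ≤ n)])
  obtain ⟨g1, _, _, g4⟩ := C.tE hn (a + 1) a 1 (by push_cast; linarith [(by exact_mod_cast hn : (4 : ℤ) ≤ n)]) (by ring_nf; exact le_rfl)
  have h1 : C.t (a + 2) * C.t (a + 1) * C.E (a + 1) = C.E a * C.t (a + 1) * C.t a := by
    calc C.t (a + 2) * C.t (a + 1) * C.E (a + 1)
        = C.t (a + 2) * C.t (a + 1) * (C.t a * C.E (a + 1)) := by rw [g1]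
      _ = Y * C.E (a + 1) := by rw [hY]; simp only [mul_assoc]
      _ = C.E a * Y := hYE
      _ = (C.E a * C.t (a + 2)) * C.t (a + 1) * C.t a := by rw [hY]; simp only [mul_assoc]
      _ = C.E a * C.t (a + 1) * C.t a := by rw [f3]
  have h2 : C.t (a + 1) * C.E (a + 1) = C.E a * C.t (a + 1) * C.t a := by
    calc C.t (a + 1) * C.E (a + 1) = C.t' (a + 2) * (C.t (a + 2) * C.t (a + 1) * C.E (a + 1)) := by
          rw [← mul_assoc, ← mul_assoc, C.t't, one_mul]
      _ = (C.t' (a + 2) * C.E a) * C.t (a + 1) * C.t a := by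
          rw [h1]; simp only [mul_assoc]
      _ = C.E a * C.t (a + 1) * C.t a := by rw [f2]
  calc C.t (a + 1) * C.E (a + 1) = C.t (a + 1) * (C.E (a + 1) * C.t' a) := by rw [g4]
    _ = C.E a * C.t (a + 1) * C.t a * C.t' a := by rw [← mul_assoc, h2]
    _ = C.E a * C.t (a + 1) := by rw [mul_assoc, C.tt', mul_one]

theorem swap1' (hn : 4 ≤ n) (a : ℤ) : C.t' (a + 1) * C.E (a + 1) = C.E a * C.t' (a + 1) := by
  have h := C.swap1 hn a
  calc C.t' (a + 1) * C.E (a + 1) = C.t' (a + 1) * (C.E (a + 1) * C.t (a + 1)) * C.t' (a + 1) := by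
        simp only [mul_assoc, C.tt', mul_one]
    _ = C.t' (a + 1) * (C.t (a + 1) * C.E a) * C.t' (a + 1) := by rw [h]
    _ = C.E a * C.t' (a + 1) := by rw [← mul_assoc (C.t' (a + 1)), C.t't, one_mul]

theorem swap2' (hn : 4 ≤ n) (a : ℤ) : C.t' (a + 1) * C.E a = C.E (a + 1) * C.t' (a + 1) := by
  have h := C.swap2 hn a
  calc C.t' (a + 1) * C.E a = C.t' (a + 1) * (C.E a * C.t (a + 1)) * C.t' (a + 1) := by
        simp only [mul_assoc, C.tt', mul_one]
    _ = C.t' (a + 1) * (C.t (a + 1) * C.E (a + 1)) * C.t' (a + 1) := by rw [h]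
    _ = C.E (a + 1) * C.t' (a + 1) := by rw [← mul_assoc (C.t' (a + 1)), C.t't, one_mul]

/-- the element `x` -/
def X : R := (C.t 3 * C.t' 4 ^ 3 * C.t 3) * (C.t' 1 * C.t 0 ^ 3 * C.t' 1)

/-- its inverse -/
def X' : R := (C.t 1 * C.t' 0 ^ 3 * C.t 1) * (C.t' 3 * C.t 4 ^ 3 * C.t' 3)

theorem zero_case (hn : 14 ≤ n) (hE : ∀ a, C.E a = 0) :
    C.s 2 * C.X * C.s 2 = 0 ∧ C.s 2 * C.X' * C.s 2 = 0 := by
  have hn' : (14 : ℤ) ≤ n := by exact_mod_cast hn
  have r1 : ∀ a, C.s a * C.s (a + 1) * C.s a = -(C.s a * (1 + C.s a)) := by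
    intro a
    have h := hE a
    unfold E at h
    have : C.s a * C.s (a + 1) * C.s a = (C.s a + C.s a * C.s a + C.s a * C.s (a + 1) * C.s a) -
        C.s a * (1 + C.s a) := by noncomm_ring
    rw [this, h, zero_sub]
  have r2 : ∀ a, C.s (a + 1) * C.s a * C.s (a + 1) = -(C.s (a + 1) * (1 + C.s (a + 1))) := by
    intro a
    have h := hE a
    rw [E_alt] at h
    have : C.s (a + 1) * C.s a * C.s (a + 1) = (C.s (a + 1) + C.s (a + 1) * C.s (a + 1) +
        C.s (a + 1) * C.s a * C.s (a + 1)) - C.s (a + 1) * (1 + C.s (a + 1)) := by noncomm_ring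
    rw [this, h, zero_sub]
  have z : ∀ a b : ℤ, 0 ≤ a → a + 2 ≤ b → b ≤ 4 → C.s a * C.s b = 0 ∧ C.s b * C.s a = 0 := by
    intro a b h0 h1 h2
    exact C.zero a b h1 (by omega)
  have z02 := z 0 2 (by norm_num) (by norm_num) (by norm_num)
  have z03 := z 0 3 (by norm_num) (by norm_num) (by norm_num)
  have z04 := z 0 4 (by norm_num) (by norm_num) (by norm_num)
  have z13 := z 1 3 (by norm_num) (by norm_num) (by norm_num)
  have z14 := z 1 4 (by norm_num) (by norm_num) (by norm_num)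
  have z24 := z 2 4 (by norm_num) (by norm_num) (by norm_num)
  have a01 := r1 0
  have a12 := r1 1
  have a23 := r1 2
  have a34 := r1 3
  have b01 := r2 0
  have b12 := r2 1
  have b23 := r2 2
  have b34 := r2 3
  norm_num at a01 a12 a23 a34 b01 b12 b23 b34
  have t't := C.t't
  have tt' := C.tt'
  constructor
  · have := alg_identity (C.s 0) (C.s 1) (C.s 2) (C.s 3) (C.s 4) (C.t' 1) (C.t' 4) (C.t' 2)
      (by rw [← C.t_eq]; exact C.t't 1) (by rw [← C.t_eq]; exact C.t't 4)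
      (by rw [← C.t_eq]; exact C.tt' 2)
      z02.1 z03.2 z13.2 z04.2 z14.2 z02.2 z24.2 z24.1 a01 b01 a12 b12 a23 b23 a34 b34
    simp only [← C.t_eq] at this
    exact this
  · have := alg_identity (C.s 4) (C.s 3) (C.s 2) (C.s 1) (C.s 0) (C.t' 3) (C.t' 0) (C.t' 2)
      (by rw [← C.t_eq]; exact C.t't 3) (by rw [← C.t_eq]; exact C.t't 0)
      (by rw [← C.t_eq]; exact C.tt' 2)
      z24.2 z14.1 z13.1 z04.1 z03.1 z24.1 z02.1 z02.2 b34 a34 b23 a23 b12 a12 b01 a01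
    simp only [← C.t_eq] at this
    exact this

theorem lft {a b c d : R} (h : a * b = c * d) (y : R) : a * (b * y) = c * (d * y) := by
  rw [← mul_assoc, h, mul_assoc]

theorem lft1 {a b : R} (h : a * b = b) (y : R) : a * (b * y) = b * y := by
  rw [← mul_assoc, h]

theorem XE1 (hn : 14 ≤ n) : ∃ Z, C.X * C.E 1 = C.E (-1) * Z := by
  have hn4 : 4 ≤ n := by omega
  have hn' : (14 : ℤ) ≤ n := by exact_mod_cast hn
  have e1 : C.t' 1 * C.E 1 = C.E 0 * C.t' 1 := C.swap1' hn4 0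
  have e2 : C.t 0 * C.E 0 = C.E (-1) * C.t 0 := by simpa using C.swap2 hn4 (-1)
  have e3 : C.t 0 * C.E (-1) = C.E 0 * C.t 0 := by simpa using C.swap1 hn4 (-1)
  have e4 : C.t' 1 * C.E (-1) = C.E (-1) :=
    (C.tE hn4 (-1) 1 0 (by norm_num) (by push_cast; linarith)).2.1
  have e5 : C.t 3 * C.E (-1) = C.E (-1) :=
    (C.tE hn4 (-1) 3 0 (by norm_num) (by push_cast; linarith)).1
  have e6 : C.t' 4 * C.E (-1) = C.E (-1) :=
    (C.tE hn4 (-1) 4 0 (by norm_num) (by push_cast; linarith)).2.1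
  refine ⟨C.t 0 * (C.t 0 * (C.t 0 * C.t' 1)), ?_⟩
  simp only [X, pow_succ, pow_zero, one_mul, mul_assoc, e1, lft e2, lft e3, lft1 e4, lft1 e5,
    lft1 e6]

theorem XE2 (hn : 14 ≤ n) : ∃ Z, C.X * C.E 2 = C.E 4 * Z := by
  have hn4 : 4 ≤ n := by omega
  have hn' : (14 : ℤ) ≤ n := by exact_mod_cast hn
  have e1 : C.t' 1 * C.E 2 = C.E 2 :=
    (C.tE hn4 2 1 1 (by push_cast; linarith) (by push_cast; linarith)).2.1
  have e2 : C.t 0 * C.E 2 = C.E 2 :=
    (C.tE hn4 2 0 1 (by push_cast; linarith) (by push_cast; linarith)).1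
  have e3 : C.t 3 * C.E 2 = C.E 3 * C.t 3 := C.swap1 hn4 2
  have e4 : C.t' 4 * C.E 3 = C.E 4 * C.t' 4 := C.swap2' hn4 3
  have e5 : C.t' 4 * C.E 4 = C.E 3 * C.t' 4 := C.swap1' hn4 3
  have e6 : C.t 3 * C.E 4 = C.E 4 :=
    (C.tE hn4 4 3 1 (by push_cast; linarith) (by push_cast; linarith)).1
  refine ⟨C.t' 4 * (C.t' 4 * (C.t' 4 * C.t 3)), ?_⟩
  simp only [X, pow_succ, pow_zero, one_mul, mul_assoc, e1, e2, e3, lft e4, lft e5, lft1 e6]

theorem X'E1 (hn : 14 ≤ n) : ∃ Z, C.X' * C.E 1 = C.E (-1) * Z := by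
  have hn4 : 4 ≤ n := by omega
  have hn' : (14 : ℤ) ≤ n := by exact_mod_cast hn
  have e1 : C.t' 3 * C.E 1 = C.E 1 :=
    (C.tE hn4 1 3 0 (by norm_num) (by push_cast; linarith)).2.1
  have e2 : C.t 4 * C.E 1 = C.E 1 :=
    (C.tE hn4 1 4 0 (by norm_num) (by push_cast; linarith)).1
  have e3 : C.t 1 * C.E 1 = C.E 0 * C.t 1 := C.swap2 hn4 0
  have e4 : C.t' 0 * C.E 0 = C.E (-1) * C.t' 0 := by simpa using C.swap1' hn4 (-1)
  have e5 : C.t' 0 * C.E (-1) = C.E 0 * C.t' 0 := by simpa using C.swap2' hn4 (-1)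
  have e6 : C.t 1 * C.E (-1) = C.E (-1) :=
    (C.tE hn4 (-1) 1 0 (by norm_num) (by push_cast; linarith)).1
  refine ⟨C.t' 0 * (C.t' 0 * (C.t' 0 * C.t 1)), ?_⟩
  simp only [X', pow_succ, pow_zero, one_mul, mul_assoc, e1, e2, e3, lft e4, lft e5, lft1 e6]

theorem X'E2 (hn : 14 ≤ n) : ∃ Z, C.X' * C.E 2 = C.E 4 * Z := by
  have hn4 : 4 ≤ n := by omega
  have hn' : (14 : ℤ) ≤ n := by exact_mod_cast hn
  have e1 : C.t' 3 * C.E 2 = C.E 3 * C.t' 3 := C.swap2' hn4 2
  have e2 : C.t 4 * C.E 3 = C.E 4 * C.t 4 := C.swap1 hn4 3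
  have e3 : C.t 4 * C.E 4 = C.E 3 * C.t 4 := C.swap2 hn4 3
  have e4 : C.t' 3 * C.E 4 = C.E 4 :=
    (C.tE hn4 4 3 1 (by push_cast; linarith) (by push_cast; linarith)).2.1
  have e5 : C.t 1 * C.E 4 = C.E 4 :=
    (C.tE hn4 4 1 1 (by push_cast; linarith) (by push_cast; linarith)).1
  have e6 : C.t' 0 * C.E 4 = C.E 4 :=
    (C.tE hn4 4 0 1 (by push_cast; linarith) (by push_cast; linarith)).2.1
  refine ⟨C.t 4 * (C.t 4 * (C.t 4 * C.t' 3)), ?_⟩
  simp only [X', pow_succ, pow_zero, one_mul, mul_assoc, e1, lft e2, lft e3, lft1 e4, lft1 e5,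
    lft1 e6]

/-- the product `s₂ x s₂` kills all `E a`, for `x` moving the puncture positions suitably -/
theorem kill (hn : 14 ≤ n) (x : R) (h1 : ∃ Z, x * C.E 1 = C.E (-1) * Z)
    (h2 : ∃ Z, x * C.E 2 = C.E 4 * Z) (a : ℤ) : C.s 2 * x * C.s 2 * C.E a = 0 := by
  have hn4 : 4 ≤ n := by omega
  have hn' : (14 : ℤ) ≤ n := by exact_mod_cast hn
  have hr0 : 0 ≤ (2 - a) % n := Int.emod_nonneg _ (by omega)
  have hr1 : (2 - a) % n < n := Int.emod_lt_of_pos _ (by omega)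
  have hdiv : (2 - a) % n + n * ((2 - a) / n) = 2 - a := Int.emod_add_mul_ediv _ _
  obtain ⟨Z1, hZ1⟩ := h1
  obtain ⟨Z2, hZ2⟩ := h2
  have z4 : C.s 2 * C.E 4 = 0 := by
    have := (C.tE hn4 4 2 1 (by push_cast; linarith) (by push_cast; linarith)).1
    unfold s; rw [sub_mul, this, one_mul, sub_self]
  have z1 : C.s 2 * C.E (-1) = 0 := by
    have := (C.tE hn4 (-1) 2 0 (by norm_num) (by push_cast; linarith)).1
    unfold s; rw [sub_mul, this, one_mul, sub_self]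
  have k1 : ∀ y, C.s 2 * x * (C.E 1 * y) = 0 := by
    intro y
    have : C.s 2 * x * (C.E 1 * y) = C.s 2 * (x * C.E 1) * y := by simp only [mul_assoc]
    rw [this, hZ1, ← mul_assoc, z1, zero_mul, zero_mul]
  have k2 : ∀ y, C.s 2 * x * (C.E 2 * y) = 0 := by
    intro y
    have : C.s 2 * x * (C.E 2 * y) = C.s 2 * (x * C.E 2) * y := by simp only [mul_assoc]
    rw [this, hZ2, ← mul_assoc, z4, zero_mul, zero_mul]
  set r := (2 - a) % n with hr
  set q := (2 - a) / n with hq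
  have ha : a = 2 - r + (-q) * n := by linarith
  rcases (by omega : r = 0 ∨ r = 1 ∨ 2 ≤ r) with h | h | h
  · have e : C.E a = C.E 2 := by rw [ha, h, C.E_period]; norm_num
    have sw : C.t 2 * C.E 2 = C.E 1 * C.t 2 := C.swap2 hn4 1
    have e2 : C.s 2 * C.E 2 = C.E 1 * C.t 2 - C.E 2 * 1 := by
      unfold s; rw [sub_mul, sw, one_mul, mul_one]
    rw [e, mul_assoc (C.s 2 * x), e2, mul_sub, k1, k2, sub_zero]
  · have e : C.E a = C.E 1 := by rw [ha, h, C.E_period]; norm_num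
    have sw : C.t 2 * C.E 1 = C.E 2 * C.t 2 := C.swap1 hn4 1
    have e2 : C.s 2 * C.E 1 = C.E 2 * C.t 2 - C.E 1 * 1 := by
      unfold s; rw [sub_mul, sw, one_mul, mul_one]
    rw [e, mul_assoc (C.s 2 * x), e2, mul_sub, k1, k2, sub_zero]
  · have := (C.tE hn4 a 2 (-q) (by linarith) (by linarith)).1
    have e2 : C.s 2 * C.E a = 0 := by unfold s; rw [sub_mul, this, one_mul, sub_self]
    rw [mul_assoc (C.s 2 * x), e2, mul_zero]

/-- `t j` permutes the ranges of the `E a` -/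
theorem perm (hn : 14 ≤ n) (j a : ℤ) : ∃ b Z, C.t j * C.E a = C.E b * Z := by
  have hn4 : 4 ≤ n := by omega
  have hn' : (14 : ℤ) ≤ n := by exact_mod_cast hn
  have hr0 : 0 ≤ (j - a) % n := Int.emod_nonneg _ (by omega)
  have hr1 : (j - a) % n < n := Int.emod_lt_of_pos _ (by omega)
  have hdiv : (j - a) % n + n * ((j - a) / n) = j - a := Int.emod_add_mul_ediv _ _
  set r := (j - a) % n with hr
  set q := (j - a) / n with hq
  have hj : j = (a + r) + q * n := by linarith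
  rcases (by omega : r = 0 ∨ r = 1 ∨ 2 ≤ r) with h | h | h
  · refine ⟨a - 1, C.t a, ?_⟩
    have sw := C.swap2 hn4 (a - 1)
    rw [sub_add_cancel] at sw
    rw [hj, C.period, h, add_zero, sw]
  · refine ⟨a + 1, C.t (a + 1), ?_⟩
    rw [hj, C.period, h, C.swap1 hn4 a]
  · refine ⟨a, 1, ?_⟩
    have := (C.tE hn4 a j (-q) (by linarith) (by linarith)).1
    rw [this, mul_one]

end Cyc

/-- In an irreducible cyclic system the operator `s₂ x s₂` vanishes. -/
theorem cyc_irr {n : ℕ} (hn : 14 ≤ n) {K V : Type*} [Field K] [AddCommGroup V] [Module K V]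
    (C : Cyc n (Module.End K V))
    (hirr : ∀ W : Submodule K V, (∀ a, ∀ v ∈ W, C.t a v ∈ W) → W = ⊥ ∨ W = ⊤) :
    C.s 2 * C.X * C.s 2 = 0 ∧ C.s 2 * C.X' * C.s 2 = 0 := by
  rcases hirr (⨆ a : ℤ, LinearMap.range (C.E a)) (by
    intro j v hv
    induction hv using Submodule.iSup_induction' with
    | mem a x hx =>
      obtain ⟨y, rfl⟩ := hx
      obtain ⟨b, Z, h⟩ := C.perm hn j a
      have h1 : C.t j (C.E a y) = C.E b (Z y) := LinearMap.congr_fun h y
      rw [h1]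
      exact Submodule.mem_iSup_of_mem b ⟨_, rfl⟩
    | zero => simp
    | add x y _ _ hx hy => rw [map_add]; exact Submodule.add_mem _ hx hy) with h | h
  · apply C.zero_case hn
    intro a
    ext v
    have h1 : C.E a v ∈ ⨆ a : ℤ, LinearMap.range (C.E a) := Submodule.mem_iSup_of_mem a ⟨v, rfl⟩
    rw [h, Submodule.mem_bot] at h1
    rw [h1]; rfl
  · have key : ∀ x : Module.End K V, (∀ a, x * C.E a = 0) → x = 0 := by
      intro x hx
      ext v
      have hv : v ∈ ⨆ a : ℤ, LinearMap.range (C.E a) := by rw [h]; exact Submodule.mem_top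
      show x v = 0
      induction hv using Submodule.iSup_induction' with
      | mem a w hw =>
        obtain ⟨y, rfl⟩ := hw
        exact LinearMap.congr_fun (hx a) y
      | zero => simp
      | add x y _ _ hx hy => rw [map_add, hx, hy, add_zero]
    exact ⟨key _ (C.kill hn C.X (C.XE1 hn) (C.XE2 hn)),
      key _ (C.kill hn C.X' (C.X'E1 hn) (C.X'E2 hn))⟩

end Pool.Agent.H29R2.QD
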