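import Mathlib
import Pool.Agent.H29R2.QD.Kei
import Pool.Agent.H29R2.QD.Rot
import Pool.Agent.H29R2.QD.Blocks
import Pool.Agent.H29R2.QD.Cyc

set_option autoImplicit false

/-! Irreducible representations in which disjoint blocks do not interact kill `w0`. -/

namespace Pool.Agent.H29R2.QD

open Module
open Pool.Agent.Helper950.BG
open scoped commutatorElement

variable {K V : Type*} [Field K] [AddCommGroup V] [Module K V]

/-- a subspace invariant under the generators is invariant under the group -/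
theorem inv_of_gen [FiniteDimensional K V] {n : ℕ} (ρ : BraidGroup n →* Module.End K V)
    (W : Submodule K V) (h : ∀ r, r < n - 1 → ∀ v ∈ W, ρ (sg n r) v ∈ W) :
    ∀ g, ∀ v ∈ W, ρ g v ∈ W := by
  let S : Subgroup (BraidGroup n) :=
    { carrier := {g | W.map (ρ g) = W}
      mul_mem' := by
        intro a b ha hb
        have ha' : W.map (ρ a) = W := ha
        have hb' : W.map (ρ b) = W := hb
        show W.map (ρ (a * b)) = W
        rw [map_mul, Module.End.mul_eq_comp, Submodule.map_comp, hb', ha']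
      one_mem' := by
        show W.map (ρ 1) = W
        rw [map_one]; exact Submodule.map_id W
      inv_mem' := by
        intro a ha
        have ha' : W.map (ρ a) = W := ha
        show W.map (ρ a⁻¹) = W
        conv_lhs => rw [← ha', ← Submodule.map_comp, ← Module.End.mul_eq_comp, rho_inv_mul]
        exact Submodule.map_id W }
  have hS : ∀ g, g ∈ S := by
    apply gen_top
    intro i hi
    show W.map (ρ (sg n i)) = W
    apply Submodule.eq_of_le_of_finrank_eq
    · rintro _ ⟨v, hv, rfl⟩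
      exact h i hi v hv
    · have hinj : Function.Injective (ρ (sg n i)) := by
        intro a b hab
        have h1 := LinearMap.congr_fun (rho_inv_mul ρ (sg n i)) a
        have h2 := LinearMap.congr_fun (rho_inv_mul ρ (sg n i)) b
        rw [Module.End.mul_apply] at h1 h2
        rw [← show (1 : Module.End K V) a = a from rfl, ← show (1 : Module.End K V) b = b from rfl,
          ← h1, ← h2, hab]
      exact (Submodule.equivMapOfInjective _ hinj W).finrank_eq.symm
  intro g v hv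
  have h1 : W.map (ρ g) = W := hS g
  rw [← h1]
  exact ⟨v, hv, rfl⟩

/-- the action of an invertible element in terms of conjugation -/
theorem rho_conj {n : ℕ} (ρ : BraidGroup n →* Module.End K V) {x y z : BraidGroup n}
    (h : x * y = z * x) (c : K) (v : V) :
    ρ x (ρ y v - c • v) = ρ z (ρ x v) - c • ρ x v := by
  rw [map_sub, map_smul, ← Module.End.mul_apply, ← map_mul, h, map_mul, Module.End.mul_apply]

/-- the block on the first five strands -/
def blk0 {n : ℕ} (hn : 14 ≤ n) : BraidGroup 5 →* BraidGroup n := sh 0 (by omega)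

/-- the hypothesis: disjoint blocks do not interact -/
def NoInt {n : ℕ} (hn : 14 ≤ n) (ρ : BraidGroup n →* Module.End K V) : Prop :=
  ∀ j (h : j + 5 ≤ n), 5 ≤ j → ∀ g ∈ commutator (BraidGroup 5), ∀ k ∈ commutator (BraidGroup 5),
    (ρ (sh j h k) - 1) * (ρ (blk0 hn g) - 1) = 0

section
variable {n : ℕ} (hn : 14 ≤ n) (ρ : BraidGroup n →* Module.End K V)

/-- the space `[D_0, V]` -/
def VD : Submodule K V := brk (ρ.comp (blk0 hn)) (commutator (BraidGroup 5))

theorem blk0_sg (i : ℕ) (hi : i < 4) : blk0 hn (sg 5 i) = sg n i := by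
  unfold blk0
  rw [sh_sg _ i (by omega)]
  rfl

theorem VD_mem (g : BraidGroup 5) (hg : g ∈ commutator (BraidGroup 5)) (v : V) :
    ρ (blk0 hn g) v - v ∈ VD hn ρ := Submodule.subset_span ⟨g, hg, v, rfl⟩

/-- `VD` is invariant under the generators of the block -/
theorem VD_in (i : ℕ) (hi : i < 4) (y : V) (hy : y ∈ VD hn ρ) : ρ (sg n i) y ∈ VD hn ρ := by
  have := brk_inv (ρ.comp (blk0 hn)) (commutator (BraidGroup 5)) inferInstance (sg 5 i) y hy
  rw [MonoidHom.comp_apply, blk0_sg hn i hi] at this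
  exact this

/-- `VD` is invariant under the far generators -/
theorem VD_far (i : ℕ) (hi : 5 ≤ i) (y : V) (hy : y ∈ VD hn ρ) : ρ (sg n i) y ∈ VD hn ρ := by
  apply brk_inv' (ρ.comp (blk0 hn)) (commutator (BraidGroup 5)) (ρ (sg n i)) _ y hy
  intro g
  rw [MonoidHom.comp_apply, ← map_mul, ← map_mul]
  congr 1
  exact (sh_commute _ (sg n i) (fun j hj => sg_comm n i (j + 0) (by omega)) g).eq.symm

theorem agree (hZ : NoInt hn ρ) (r : ℕ) (h5 : 5 ≤ r) (hr : r + 2 ≤ n) (y : V)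
    (hy : y ∈ VD hn ρ) : ρ (sg n r) y = ρ (sg n 5) y := by
  have step : ∀ r, 5 ≤ r → r + 3 ≤ n → ∀ y ∈ VD hn ρ, ρ (sg n r) y = ρ (sg n (r + 1)) y := by
    intro r h5 hr y hy
    set j := min r (n - 5) with hj
    have hjn : j + 5 ≤ n := by omega
    have h1 : ∀ z ∈ VD hn ρ, (ρ (sh j hjn (sg 5 (r - j) * (sg 5 (r - j + 1))⁻¹)) - 1) z = 0 := by
      intro z hz
      apply brk_kill (ρ.comp (blk0 hn)) (commutator (BraidGroup 5)) _ _ z hz
      intro g hg
      exact hZ j hjn (by omega) g hg _ (diff_mem 5 (r - j) (by omega))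
    have h2 : sh j hjn (sg 5 (r - j) * (sg 5 (r - j + 1))⁻¹) = sg n r * (sg n (r + 1))⁻¹ := by
      rw [map_mul, map_inv, sh_sg hjn (r - j) (by omega), sh_sg hjn (r - j + 1) (by omega),
        show r - j + j = r by omega, show r - j + 1 + j = r + 1 by omega]
    have h3 := h1 (ρ (sg n (r + 1)) y) (VD_far hn ρ (r + 1) (by omega) y hy)
    rw [h2] at h3
    have h4 : ρ (sg n r * (sg n (r + 1))⁻¹) (ρ (sg n (r + 1)) y) - ρ (sg n (r + 1)) y = 0 := h3
    rw [sub_eq_zero, ← Module.End.mul_apply, ← map_mul, inv_mul_cancel_right] at h4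
    exact h4
  obtain ⟨k, rfl⟩ : ∃ k, r = 5 + k := ⟨r - 5, by omega⟩
  clear h5
  induction k with
  | zero => rfl
  | succ k ih =>
    have e := step (5 + k) (by omega) (by omega) y hy
    rw [show 5 + (k + 1) = 5 + k + 1 by omega, ← e]
    exact ih (by omega)

/-- the auxiliary subspace -/
def XX (c : K) : Submodule K V :=
  Submodule.span K {x | ∃ i : ℤ, ∃ y ∈ VD hn ρ, x = ρ (dd n ^ i) (ρ (sg n 5) y - c • y)}

theorem XX_mem (c : K) (y : V) (hy : y ∈ VD hn ρ) (i : ℤ) :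
    ρ (dd n ^ i) (ρ (sg n 5) y - c • y) ∈ XX hn ρ c :=
  Submodule.subset_span ⟨i, y, hy, rfl⟩

theorem XX_mem0 (c : K) (y : V) (hy : y ∈ VD hn ρ) :
    ρ (sg n 5) y - c • y ∈ XX hn ρ c := by
  have := XX_mem hn ρ c y hy 0
  rw [zpow_zero, map_one] at this
  exact this

theorem claimA (hZ : NoInt hn ρ) (c : K) (r : ℕ) (hr : r < n - 1) (y : V) (hy : y ∈ VD hn ρ) :
    ρ (sg n r) (ρ (sg n 5) y - c • y) ∈ XX hn ρ c := by
  rcases (by omega : r < 4 ∨ r = 4 ∨ 5 ≤ r) with h | h | h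
  · rw [rho_conj ρ (sg_comm n r 5 (by omega)).eq]
    exact XX_mem0 hn ρ c _ (VD_in hn ρ r h y hy)
  · subst h
    -- c0 = σ_4 σ_2⁻¹
    have hy2 := VD_in hn ρ 2 (by omega) y hy
    set y' := ρ (sg n 2) y with hy'
    have a1 : ρ (sg n 5) y - c • y = ρ (sg n 6) y - c • y := by
      rw [agree hn ρ hZ 6 (by omega) (by omega) y hy]
    have a2 : ρ (sg n 2) (ρ (sg n 6) y - c • y) = ρ (sg n 6) y' - c • y' :=
      rho_conj ρ (sg_comm n 2 6 (by omega)).eq c y
    have a3 : ρ (sg n 4) (ρ (sg n 5) y - c • y) =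
        ρ (sg n 4 * (sg n 2)⁻¹) (ρ (sg n 6) y' - c • y') := by
      rw [a1, ← a2, ← Module.End.mul_apply, ← map_mul, inv_mul_cancel_right]
    have cc : Commute (sg n 4 * (sg n 2)⁻¹) (sg n 6) :=
      (sg_comm n 4 6 (by omega)).mul_left (sg_comm n 2 6 (by omega)).inv_left
    rw [a3, rho_conj ρ cc.eq]
    -- split
    set d : BraidGroup 5 := sg 5 3 * (sg 5 1)⁻¹ with hd
    have hdc : d ∈ commutator (BraidGroup 5) := by
      have : d = (sg 5 2 * (sg 5 3)⁻¹)⁻¹ * (sg 5 1 * (sg 5 2)⁻¹)⁻¹ := by rw [hd]; group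
      rw [this]
      exact mul_mem (inv_mem (diff_mem 5 2 (by omega))) (inv_mem (diff_mem 5 1 (by omega)))
    have hd2 : sg n 4 * (sg n 2)⁻¹ = dd n * blk0 hn d * (dd n)⁻¹ := by
      rw [hd, map_mul, map_inv, blk0_sg hn 3 (by omega), blk0_sg hn 1 (by omega)]
      have e1 := dd_shift n 3 (by omega)
      have e2 := dd_shift n 1 (by omega)
      have e1' : sg n 4 = dd n * sg n 3 * (dd n)⁻¹ := by rw [e1]; group
      have e2' : sg n 2 = dd n * sg n 1 * (dd n)⁻¹ := by rw [e2]; group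
      rw [e1', e2']; group
    have e5 : dd n * sg n 5 = sg n 6 * dd n := dd_shift n 5 (by omega)
    have key : ρ (sg n 6) (ρ (sg n 4 * (sg n 2)⁻¹) y') - c • ρ (sg n 4 * (sg n 2)⁻¹) y' =
        (ρ (sg n 5) y' - c • y') + ρ (dd n ^ (1 : ℤ)) (ρ (sg n 5) (ρ (blk0 hn d) (ρ (dd n)⁻¹ y') -
          ρ (dd n)⁻¹ y') - c • (ρ (blk0 hn d) (ρ (dd n)⁻¹ y') - ρ (dd n)⁻¹ y')) := by
      rw [zpow_one, rho_conj ρ e5, ← agree hn ρ hZ 6 (by omega) (by omega) y' hy2, map_sub,
        ← Module.End.mul_apply (ρ (dd n)) (ρ (blk0 hn d)), ← map_mul,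
        ← Module.End.mul_apply (ρ (dd n * blk0 hn d)), ← map_mul, ← hd2,
        ← Module.End.mul_apply (ρ (dd n)), rho_mul_inv, Module.End.one_apply, map_sub, smul_sub]
      abel
    rw [key]
    exact Submodule.add_mem _ (XX_mem0 hn ρ c y' hy2)
      (XX_mem hn ρ c _ (VD_mem hn ρ d hdc _) 1)
  · have a1 : ρ (sg n 5) y - c • y = ρ (sg n r) y - c • y := by
      rw [agree hn ρ hZ r h (by omega) y hy]
    rw [a1, rho_conj ρ rfl, agree hn ρ hZ r h (by omega) _ (VD_far hn ρ r h y hy)]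
    exact XX_mem0 hn ρ c _ (VD_far hn ρ r h y hy)

theorem claimB (hZ : NoInt hn ρ) (c : K) (y : V) (hy : y ∈ VD hn ρ) :
    ρ ((dd n)⁻¹ * sg n 0 * dd n) (ρ (sg n 5) y - c • y) ∈ XX hn ρ c := by
  have hy2 := VD_in hn ρ 1 (by omega) y hy
  set y' := ρ (sg n 1) y with hy'
  set d : BraidGroup 5 := sg 5 0 * (sg 5 2)⁻¹ with hd
  have hdc : d ∈ commutator (BraidGroup 5) := by
    have : d = (sg 5 0 * (sg 5 1)⁻¹) * (sg 5 1 * (sg 5 2)⁻¹) := by rw [hd]; group
    rw [this]
    exact mul_mem (diff_mem 5 0 (by omega)) (diff_mem 5 1 (by omega))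
  have hblk : blk0 hn d = sg n 0 * (sg n 2)⁻¹ := by
    rw [hd, map_mul, map_inv, blk0_sg hn 0 (by omega), blk0_sg hn 2 (by omega)]
  have e1 := dd_shift n 1 (by omega)
  have hw : (dd n)⁻¹ * sg n 0 * dd n = ((dd n)⁻¹ * blk0 hn d * dd n) * sg n 1 := by
    rw [hblk]
    have e1' : (dd n) * sg n 1 * (dd n)⁻¹ = sg n 2 := by rw [e1]; group
    rw [← e1']; group
  have a2 : ρ (sg n 1) (ρ (sg n 5) y - c • y) = ρ (sg n 5) y' - c • y' :=
    rho_conj ρ (sg_comm n 1 5 (by omega)).eq c y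
  have e5 : dd n * sg n 5 = sg n 6 * dd n := dd_shift n 5 (by omega)
  have e5' : (dd n)⁻¹ * sg n 6 = sg n 5 * (dd n)⁻¹ := by
    have : sg n 6 = dd n * sg n 5 * (dd n)⁻¹ := by rw [e5]; group
    rw [this]; group
  have cb : Commute (blk0 hn d) (sg n 6) := by
    rw [hblk]
    exact (sg_comm n 0 6 (by omega)).mul_left (sg_comm n 2 6 (by omega)).inv_left
  have cc : ((dd n)⁻¹ * blk0 hn d * dd n) * sg n 5 = sg n 5 * ((dd n)⁻¹ * blk0 hn d * dd n) := by
    calc ((dd n)⁻¹ * blk0 hn d * dd n) * sg n 5 = (dd n)⁻¹ * blk0 hn d * (dd n * sg n 5) := by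
          simp only [mul_assoc]
      _ = (dd n)⁻¹ * (blk0 hn d * sg n 6) * dd n := by rw [e5]; simp only [mul_assoc]
      _ = ((dd n)⁻¹ * sg n 6) * blk0 hn d * dd n := by rw [cb.eq]; simp only [mul_assoc]
      _ = _ := by rw [e5']; simp only [mul_assoc]
  rw [hw, map_mul, Module.End.mul_apply, a2, rho_conj ρ cc]
  set z := ρ (blk0 hn d) (ρ (dd n) y') - ρ (dd n) y' with hz
  have hzm : z ∈ VD hn ρ := VD_mem hn ρ d hdc _
  have key : ρ (sg n 5) (ρ ((dd n)⁻¹ * blk0 hn d * dd n) y') -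
      c • ρ ((dd n)⁻¹ * blk0 hn d * dd n) y' =
      (ρ (sg n 5) y' - c • y') + ρ (dd n ^ (-1 : ℤ)) (ρ (sg n 5) z - c • z) := by
    rw [← agree hn ρ hZ 6 (by omega) (by omega) z hzm, zpow_neg, zpow_one, rho_conj ρ e5', hz,
      map_sub, ← Module.End.mul_apply (ρ (dd n)⁻¹) (ρ (blk0 hn d)), ← map_mul,
      ← Module.End.mul_apply (ρ ((dd n)⁻¹ * blk0 hn d)), ← map_mul,
      ← Module.End.mul_apply (ρ (dd n)⁻¹), rho_inv_mul, Module.End.one_apply, map_sub, smul_sub]
    abel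
  rw [key]
  exact Submodule.add_mem _ (XX_mem0 hn ρ c y' hy2) (XX_mem hn ρ c z hzm (-1))

theorem XX_dd (c : K) (j : ℤ) (x : V) (hx : x ∈ XX hn ρ c) : ρ (dd n ^ j) x ∈ XX hn ρ c := by
  unfold XX at *
  induction hx using Submodule.span_induction with
  | mem x hx =>
    obtain ⟨i, y, hy, rfl⟩ := hx
    refine Submodule.subset_span ⟨j + i, y, hy, ?_⟩
    rw [zpow_add, map_mul, Module.End.mul_apply]
  | zero => simp
  | add x y _ _ hx hy => rw [map_add]; exact Submodule.add_mem _ hx hy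
  | smul a x _ hx => rw [map_smul]; exact Submodule.smul_mem _ a hx

theorem XX_s0 (hZ : NoInt hn ρ) (c : K) (x : V) (hx : x ∈ XX hn ρ c) :
    ρ (sg n 0) x ∈ XX hn ρ c := by
  have hx' := hx
  unfold XX at hx
  induction hx using Submodule.span_induction with
  | mem x hx =>
    obtain ⟨i, y, hy, rfl⟩ := hx
    have h1 : sg n 0 * dd n ^ i = dd n ^ i * sc n (-i) := by
      unfold sc; rw [neg_neg]; group
    rw [← Module.End.mul_apply, ← map_mul, h1, map_mul, Module.End.mul_apply]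
    apply XX_dd
    rcases sc_cases n (by omega) (-i) with ⟨r, hr, h⟩ | h
    · rw [h]; exact claimA hn ρ hZ c r hr y hy
    · rw [h]; exact claimB hn ρ hZ c y hy
  | zero => simp
  | add x y hx1 hy1 hx hy =>
    rw [map_add]; exact Submodule.add_mem _ (hx hx1) (hy hy1)
  | smul a x hx1 hx => rw [map_smul]; exact Submodule.smul_mem _ a (hx hx1)

theorem XX_inv [FiniteDimensional K V] (hZ : NoInt hn ρ) (c : K) : ∀ g, ∀ v ∈ XX hn ρ c, ρ g v ∈ XX hn ρ c := by
  apply inv_of_gen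
  intro r hr v hv
  have h1 : sg n r = dd n ^ (r : ℤ) * sg n 0 * dd n ^ (-(r : ℤ)) := by
    rw [← sc_nat n r hr]; rfl
  rw [h1, map_mul, map_mul, Module.End.mul_apply, Module.End.mul_apply]
  exact XX_dd hn ρ c _ _ (XX_s0 hn ρ hZ c _ (XX_dd hn ρ c _ _ hv))

/-- if `XX = ⊤` then `σ_5 - c` is surjective on `VD` -/
theorem XX_top (hZ : NoInt hn ρ) (c : K) (h : XX hn ρ c = ⊤) (y : V) (hy : y ∈ VD hn ρ) :
    ∃ z ∈ VD hn ρ, ρ (sg n 5) z - c • z = y := by
  -- the image of `VD` under `σ_5 - c`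
  let I : Submodule K V := (VD hn ρ).map (ρ (sg n 5) - c • (1 : Module.End K V))
  suffices hle : VD hn ρ ≤ I by
    obtain ⟨z, hz, hzy⟩ := hle hy
    exact ⟨z, hz, hzy⟩
  unfold VD brk
  rw [Submodule.span_le]
  rintro _ ⟨g, hg, v, rfl⟩
  rw [SetLike.mem_coe]
  have hv : v ∈ XX hn ρ c := by rw [h]; exact Submodule.mem_top
  unfold XX at hv
  show ρ (blk0 hn g) v - v ∈ I
  induction hv using Submodule.span_induction with
  | mem x hx =>
    obtain ⟨i, y, hy, rfl⟩ := hx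
    -- choose r
    obtain ⟨r, s, hr5, hrn, hs5, hsn, hrs⟩ : ∃ r s : ℕ, 5 ≤ r ∧ r + 2 ≤ n ∧ 5 ≤ s ∧ s + 2 ≤ n ∧
        sc n (i + r) = sg n s := by
      have h0 : 0 ≤ i % n := Int.emod_nonneg _ (by omega)
      have h1 : i % n < n := Int.emod_lt_of_pos _ (by omega)
      obtain ⟨i0, hi0⟩ := Int.eq_ofNat_of_zero_le h0
      have hdiv : i % n + n * (i / n) = i := Int.emod_add_mul_ediv _ _
      by_cases hc : i0 + 7 ≤ n
      · refine ⟨5, i0 + 5, le_rfl, by omega, by omega, by omega, ?_⟩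
        rw [← sc_nat n (i0 + 5) (by omega), ← sc_mod n (by omega) (i + (5 : ℕ)),
          ← sc_mod n (by omega) ((i0 + 5 : ℕ) : ℤ)]
        congr 1
        rw [Int.add_emod, hi0]
        push_cast
        rw [Int.add_emod (i0 : ℤ) 5]
        have : ((i0 : ℤ) % n) = i0 := by
          rw [← hi0]; exact Int.emod_emod_of_dvd _ dvd_rfl
        rw [this]
      · refine ⟨n + 5 - i0, 5, by omega, by omega, le_rfl, by omega, ?_⟩
        rw [← sc_nat n 5 (by omega), ← sc_mod n (by omega) (i + ((n + 5 - i0 : ℕ) : ℤ)),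
          ← sc_mod n (by omega) ((5 : ℕ) : ℤ)]
        congr 1
        have e : i + ((n + 5 - i0 : ℕ) : ℤ) = 5 + n * (i / n + 1) := by
          have : ((n + 5 - i0 : ℕ) : ℤ) = n + 5 - i0 := by omega
          rw [this]
          rw [hi0] at hdiv
          linarith [hdiv, mul_add (n : ℤ) (i / n) 1]
        rw [e, Int.add_mul_emod_self_left]
        rfl
    have a1 : ρ (sg n 5) y - c • y = ρ (sg n r) y - c • y := by
      rw [agree hn ρ hZ r hr5 hrn y hy]
    have a2 : dd n ^ i * sg n r = sg n s * dd n ^ i := by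
      have e := sc_conj n r i
      rw [add_comm, hrs, sc_nat n r (by omega)] at e
      rw [← e]; group
    rw [a1, rho_conj ρ a2]
    set w := ρ (dd n ^ i) y with hw
    have a3 : Commute (blk0 hn g) (sg n s) :=
      (sh_commute _ (sg n s) (fun j hj => sg_comm n s (j + 0) (by omega)) g).symm
    rw [rho_conj ρ a3.eq]
    have hz := VD_mem hn ρ g hg w
    refine ⟨ρ (blk0 hn g) w - w, hz, ?_⟩
    show ρ (sg n 5) (ρ (blk0 hn g) w - w) - c • (ρ (blk0 hn g) w - w) = _
    rw [← agree hn ρ hZ s hs5 hsn _ hz, map_sub, smul_sub]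
    abel
  | zero => simp
  | add x y _ _ hx hy =>
    have : ρ (blk0 hn g) (x + y) - (x + y) = (ρ (blk0 hn g) x - x) + (ρ (blk0 hn g) y - y) := by
      rw [map_add]; abel
    rw [this]; exact Submodule.add_mem _ hx hy
  | smul a x _ hx =>
    have : ρ (blk0 hn g) (a • x) - a • x = a • (ρ (blk0 hn g) x - x) := by
      rw [map_smul, smul_sub]
    rw [this]; exact Submodule.smul_mem _ a hx

/-- Lemma B: all far generators act as one scalar on `VD` -/
theorem lemB [IsAlgClosed K] [FiniteDimensional K V] (hZ : NoInt hn ρ) (hirr : ∀ W : Submodule K V, (∀ g, ∀ v ∈ W, ρ g v ∈ W) →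
    W = ⊥ ∨ W = ⊤) (hna : ¬ commutator (BraidGroup n) ≤ ρ.ker) :
    ∃ c : K, c ≠ 0 ∧ ∀ r, 5 ≤ r → r + 2 ≤ n → ∀ y ∈ VD hn ρ, ρ (sg n r) y = c • y := by
  -- VD is nonzero
  have hVD : VD hn ρ ≠ ⊥ := by
    intro h
    apply hna
    have h1 := brk_bot _ _ h
    have h2 := h1 (diff_mem 5 0 (by omega))
    rw [MonoidHom.mem_ker, MonoidHom.comp_apply, map_mul, map_inv, blk0_sg hn 0 (by omega),
      blk0_sg hn (0 + 1) (by omega), map_mul] at h2
    apply adj_comm ρ 0 (by omega)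
    calc ρ (sg n 0) = ρ (sg n 0) * (ρ (sg n (0 + 1))⁻¹ * ρ (sg n (0 + 1))) := by
          rw [rho_inv_mul, mul_one]
      _ = ρ (sg n (0 + 1)) := by rw [← mul_assoc, h2, one_mul]
  have : Nontrivial (VD hn ρ) := Submodule.nontrivial_iff_ne_bot.mpr hVD
  let T : Module.End K (VD hn ρ) := (ρ (sg n 5)).restrict (VD_far hn ρ 5 le_rfl)
  obtain ⟨c, hc⟩ := Module.End.exists_eigenvalue T
  obtain ⟨y0, hy0⟩ := hc.exists_hasEigenvector
  have hy0e : ρ (sg n 5) (y0 : V) = c • (y0 : V) := congrArg Subtype.val hy0.apply_eq_smul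
  have hy0n : (y0 : V) ≠ 0 := fun h => hy0.2 (Subtype.ext h)
  have hc0 : c ≠ 0 := by
    rintro rfl
    apply hy0n
    have h1 := LinearMap.congr_fun (rho_inv_mul ρ (sg n 5)) (y0 : V)
    rw [Module.End.mul_apply, hy0e, zero_smul, map_zero] at h1
    exact h1.symm
  refine ⟨c, hc0, ?_⟩
  rcases hirr (XX hn ρ c) (XX_inv hn ρ hZ c) with h | h
  · intro r h5 hr y hy
    have h1 := XX_mem0 hn ρ c y hy
    rw [h, Submodule.mem_bot, sub_eq_zero] at h1
    rw [agree hn ρ hZ r h5 hr y hy, h1]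
  · exfalso
    have hsurj : Function.Surjective (T - c • (1 : Module.End K (VD hn ρ))) := by
      rintro ⟨y, hy⟩
      obtain ⟨z, hz, hzy⟩ := XX_top hn ρ hZ c h y hy
      exact ⟨⟨z, hz⟩, Subtype.ext hzy⟩
    have hinj := LinearMap.injective_iff_surjective.2 hsurj
    apply hy0.2
    apply hinj
    rw [map_zero]
    show T y0 - c • y0 = 0
    rw [hy0.apply_eq_smul, sub_self]

end

end Pool.Agent.H29R2.QD
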