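import Mathlib
import Pool.Agent.H29R2.QD.LemB

set_option autoImplicit false

/-! Irreducible representations in which disjoint blocks do not interact kill `w0`. -/

namespace Pool.Agent.H29R2.QD

open Module
open Pool.Agent.Helper950.BG
open scoped commutatorElement

variable {K V : Type*} [Field K] [AddCommGroup V] [Module K V]

section
variable {n : ℕ} (ρ : BraidGroup n →* Module.End K V) (c : K)

/-- `σ_a - c` -/
def sv (a : ℤ) : Module.End K V := ρ (sc n a) - c • 1

theorem sv_conj (a b : ℤ) : ρ (dd n ^ b) * sv ρ c a = sv ρ c (a + b) * ρ (dd n ^ b) := by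
  unfold sv
  have e : dd n ^ b * sc n a = sc n (a + b) * dd n ^ b := by
    rw [← sc_conj]; group
  rw [mul_sub, sub_mul, ← map_mul, e, map_mul]; simp

theorem sv_period (hn : 2 ≤ n) (a : ℤ) : sv ρ c (a + n) = sv ρ c a := by
  unfold sv; rw [sc_period n hn]

theorem sv_comm (a b : ℤ) (h1 : a + 2 ≤ b) (h2 : b + 2 ≤ a + n) :
    sv ρ c a * sv ρ c b = sv ρ c b * sv ρ c a := by
  have h3 : ρ (sc n a) * ρ (sc n b) = ρ (sc n b) * ρ (sc n a) := by
    obtain ⟨d, hd⟩ := Int.eq_ofNat_of_zero_le (show 0 ≤ b - a by omega)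
    rw [← map_mul, ← map_mul]
    congr 1
    exact (sc_comm n a b d (by omega) (by omega) (by omega)).eq
  unfold sv
  simp only [sub_mul, mul_sub, h3, smul_mul_assoc, mul_smul_comm, one_mul, mul_one, smul_sub]
  abel

/-- rotate an identity of products -/
theorem sv_rot (a b a' b' i : ℤ) (h : sv ρ c a * sv ρ c b = sv ρ c a' * sv ρ c b') :
    sv ρ c (a + i) * sv ρ c (b + i) = sv ρ c (a' + i) * sv ρ c (b' + i) := by
  have h1 := sv_conj ρ c a i
  have h2 := sv_conj ρ c b i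
  have h1' := sv_conj ρ c a' i
  have h2' := sv_conj ρ c b' i
  have e : sv ρ c (a + i) * sv ρ c (b + i) * ρ (dd n ^ i) =
      sv ρ c (a' + i) * sv ρ c (b' + i) * ρ (dd n ^ i) := by
    rw [mul_assoc, ← h2, ← mul_assoc, ← h1, mul_assoc, h, ← mul_assoc, h1', mul_assoc, h2',
      mul_assoc]
  have e2 := congrArg (fun x => x * ρ (dd n ^ i)⁻¹) e
  simp only [mul_assoc, rho_mul_inv, mul_one] at e2
  exact e2

end

section
variable [IsAlgClosed K] [FiniteDimensional K V] {n : ℕ} (hn : 14 ≤ n)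
  (ρ : BraidGroup n →* Module.End K V)

/-- the vanishing of the products of far operators -/
theorem far_zero (hZ : NoInt hn ρ) (hirr : ∀ W : Submodule K V, (∀ g, ∀ v ∈ W, ρ g v ∈ W) →
    W = ⊥ ∨ W = ⊤) (hna : ¬ commutator (BraidGroup n) ≤ ρ.ker) :
    ∃ c : K, c ≠ 0 ∧ ∀ a b : ℤ, a + 2 ≤ b → b + 2 ≤ a + n →
      sv ρ c a * sv ρ c b = 0 ∧ sv ρ c b * sv ρ c a = 0 := by
  obtain ⟨c, hc0, hB⟩ := lemB hn ρ hZ hirr hna
  refine ⟨c, hc0, ?_⟩
  have hnZ : (14 : ℤ) ≤ n := by exact_mod_cast hn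
  -- base relation
  have base : ∀ r : ℕ, 5 ≤ r → r + 2 ≤ n → ∀ i : ℕ, i ≤ 2 →
      sv ρ c r * sv ρ c i = sv ρ c r * sv ρ c (i + 1) := by
    intro r h5 hr i hi
    have e1 : sv ρ c r = ρ (sg n r) - c • 1 := by unfold sv; rw [sc_nat n r (by omega)]
    have e2 : sv ρ c i = ρ (sg n i) - c • 1 := by unfold sv; rw [sc_nat n i (by omega)]
    have e3 : sv ρ c ((i : ℤ) + 1) = ρ (sg n (i + 1)) - c • 1 := by
      unfold sv
      rw [← sc_nat n (i + 1) (by omega)]
      push_cast; rfl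
    have h1 : ∀ v, (ρ (sg n r) - c • 1) ((ρ (sg n i) - ρ (sg n (i + 1))) v) = 0 := by
      intro v
      have hm := VD_mem hn ρ (sg 5 i * (sg 5 (i + 1))⁻¹) (diff_mem 5 i (by omega))
        (ρ (sg n (i + 1)) v)
      rw [map_mul, map_inv, blk0_sg hn i (by omega), blk0_sg hn (i + 1) (by omega),
        ← Module.End.mul_apply, ← map_mul, inv_mul_cancel_right] at hm
      have := hB r h5 hr _ hm
      show ρ (sg n r) (ρ (sg n i) v - ρ (sg n (i + 1)) v) -
        c • (ρ (sg n i) v - ρ (sg n (i + 1)) v) = 0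
      rw [this, sub_self]
    have h2 : (ρ (sg n r) - c • 1) * (ρ (sg n i) - ρ (sg n (i + 1))) = 0 := LinearMap.ext h1
    rw [e1, e2, e3, ← sub_eq_zero, ← mul_sub, sub_sub_sub_cancel_right]
    exact h2
  -- relation with differences
  have diff1 : ∀ (a : ℤ) (q : ℕ), 3 ≤ q → q + 2 ≤ n →
      sv ρ c a * sv ρ c (a - q) = sv ρ c a * sv ρ c (a - q + 1) := by
    intro a q h3 hq
    set r := max q 5 with hr
    have h1 := base r (by omega) (by omega) (r - q) (by omega)
    have h2 := sv_rot ρ c _ _ _ _ (a - r) h1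
    have e1 : (r : ℤ) + (a - r) = a := by ring
    have e2 : ((r - q : ℕ) : ℤ) + (a - r) = a - q := by omega
    have e3 : ((r - q : ℕ) : ℤ) + 1 + (a - r) = a - q + 1 := by omega
    rw [e1, e2, e3] at h2
    exact h2
  have diff2 : ∀ (a : ℤ) (q : ℕ), 2 ≤ q → q + 2 ≤ n →
      sv ρ c a * sv ρ c (a - q) = sv ρ c a * sv ρ c (a - 2) := by
    intro a q h2
    obtain ⟨k, rfl⟩ : ∃ k, q = 2 + k := ⟨q - 2, by omega⟩
    clear h2
    induction k with
    | zero => intro _; rfl
    | succ k ih =>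
      intro hq
      rw [← ih (by omega), diff1 a (2 + (k + 1)) (by omega) hq]
      congr 2
      push_cast; ring
  -- the common product
  have P2 : ∀ a : ℤ, sv ρ c a * sv ρ c (a - 2) = sv ρ c (a - 2) * sv ρ c (a - 2 - 2) := by
    intro a
    have h1 := sv_comm ρ c (a - 2) a (by omega) (by omega)
    have h2 := diff2 (a - 2) (n - 2) (by omega) (by omega)
    have e : a - 2 - ((n - 2 : ℕ) : ℤ) + n = a := by omega
    have h3 := sv_period ρ c (by omega : 2 ≤ n) (a - 2 - ((n - 2 : ℕ) : ℤ))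
    rw [e] at h3
    rw [← h1, h3, h2]
  have P3 : ∀ a : ℤ, sv ρ c a * sv ρ c (a - 2) = sv ρ c (a - 3) * sv ρ c (a - 3 - 2) := by
    intro a
    have h0 := diff2 a 3 (by omega) (by omega)
    have h1 := sv_comm ρ c (a - 3) a (by omega) (by omega)
    have h2 := diff2 (a - 3) (n - 3) (by omega) (by omega)
    have e : a - 3 - ((n - 3 : ℕ) : ℤ) + n = a := by omega
    have h3 := sv_period ρ c (by omega : 2 ≤ n) (a - 3 - ((n - 3 : ℕ) : ℤ))
    rw [e] at h3
    rw [← h0]
    push_cast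
    rw [← h1, h3, h2]
  have P1 : ∀ a : ℤ, sv ρ c (a + 1) * sv ρ c (a + 1 - 2) = sv ρ c a * sv ρ c (a - 2) := by
    intro a
    rw [P3 (a + 1), P2 a]
    congr 2 <;> ring
  have Pall : ∀ (k : ℕ) (a : ℤ), sv ρ c (a + k) * sv ρ c (a + k - 2) =
      sv ρ c a * sv ρ c (a - 2) := by
    intro k
    induction k with
    | zero => intro a; simp
    | succ k ih =>
      intro a
      have := P1 (a + k)
      rw [ih a] at this
      rw [← this]
      congr 2 <;> push_cast <;> ring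
  have Pall' : ∀ a b : ℤ, sv ρ c a * sv ρ c (a - 2) = sv ρ c b * sv ρ c (b - 2) := by
    intro a b
    rcases le_total a b with h | h
    · obtain ⟨k, hk⟩ := Int.eq_ofNat_of_zero_le (show 0 ≤ b - a by omega)
      rw [← Pall k a, show a + (k : ℤ) = b by omega]
    · obtain ⟨k, hk⟩ := Int.eq_ofNat_of_zero_le (show 0 ≤ a - b by omega)
      rw [← Pall k b, show b + (k : ℤ) = a by omega]
  set P := sv ρ c 0 * sv ρ c (0 - 2) with hP
  -- P commutes with the group
  have Pdd : ∀ i : ℤ, ρ (dd n ^ i) * P = P * ρ (dd n ^ i) := by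
    intro i
    rw [hP, ← mul_assoc, sv_conj, mul_assoc, sv_conj, ← mul_assoc]
    congr 1
    rw [show (0 : ℤ) - 2 + i = (0 + i) - 2 by ring]
    exact Pall' _ _
  have Ps0 : ρ (sg n 0) * P = P * ρ (sg n 0) := by
    have e0 : ρ (sg n 0) = sv ρ c 0 + c • 1 := by
      unfold sv; rw [sc_zero]; abel
    have h1 := sv_comm ρ c (0 - 2) 0 (by norm_num) (by omega)
    rw [e0, hP, add_mul, mul_add, smul_mul_assoc, one_mul, mul_smul_comm, mul_one]
    congr 1
    rw [mul_assoc, h1]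
  have Pg : ∀ r, r < n - 1 → ρ (sg n r) * P = P * ρ (sg n r) := by
    intro r hr
    have h1 : sg n r = dd n ^ (r : ℤ) * sg n 0 * dd n ^ (-(r : ℤ)) := by
      rw [← sc_nat n r hr]; rfl
    rw [h1, map_mul, map_mul, mul_assoc, Pdd, ← mul_assoc, mul_assoc (ρ (dd n ^ (r : ℤ))), Ps0,
      ← mul_assoc, Pdd]
    simp only [mul_assoc]
  have hP0 : P = 0 := by
    rcases hirr (LinearMap.range P) (by
      apply inv_of_gen
      rintro r hr _ ⟨v, rfl⟩
      exact ⟨ρ (sg n r) v, (LinearMap.congr_fun (Pg r hr) v).symm⟩) with h | h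
    · exact LinearMap.range_eq_bot.1 h
    · exfalso
      have hs : Function.Surjective (sv ρ c 0) := by
        intro y
        obtain ⟨x, hx⟩ := (LinearMap.range_eq_top.1 h) y
        exact ⟨sv ρ c (0 - 2) x, hx⟩
      have hi := LinearMap.injective_iff_surjective.2 hs
      have h3 := diff2 0 3 (by omega) (by omega)
      have h4 : sv ρ c (0 - 3) = sv ρ c (0 - 2) := by
        ext v
        apply hi
        exact LinearMap.congr_fun h3 v
      have h5 : ρ (sg n 0) = ρ (sg n (0 + 1)) := by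
        have a1 := sv_conj ρ c (0 - 3) 3
        have a2 := sv_conj ρ c (0 - 2) 3
        rw [h4, a2] at a1
        have a3 := congrArg (fun x => x * ρ (dd n ^ (3 : ℤ))⁻¹) a1
        simp only [mul_assoc, rho_mul_inv, mul_one] at a3
        have a4 : sv ρ c 1 = sv ρ c 0 := by
          have e1 : (0 : ℤ) - 2 + 3 = 1 := by norm_num
          have e2 : (0 : ℤ) - 3 + 3 = 0 := by norm_num
          rw [e1, e2] at a3
          exact a3
        unfold sv at a4
        have a5 := sc_nat n 1 (by omega)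
        have a6 : sc n (1 : ℤ) = sg n 1 := by rw [← a5]; rfl
        rw [a6, sc_zero] at a4
        have := congrArg (fun x => x + c • (1 : Module.End K V)) a4
        simp only [sub_add_cancel] at this
        exact this.symm
      exact hna (adj_comm ρ 0 (by omega) h5)
  intro a b h1 h2
  have h3 : sv ρ c b * sv ρ c a = 0 := by
    obtain ⟨q, hq⟩ := Int.eq_ofNat_of_zero_le (show 0 ≤ b - a by omega)
    have h4 := diff2 b q (by omega) (by omega)
    rw [show b - (q : ℤ) = a by omega] at h4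
    rw [h4, Pall' b 0, ← hP, hP0]
  exact ⟨by rw [sv_comm ρ c a b h1 h2, h3], h3⟩

/-- the cyclic system attached to a representation -/
def cycOf (c : K) (hc : c ≠ 0)
    (hz : ∀ a b : ℤ, a + 2 ≤ b → b + 2 ≤ a + n →
      sv ρ c a * sv ρ c b = 0 ∧ sv ρ c b * sv ρ c a = 0) : Cyc n (Module.End K V) where
  t a := c⁻¹ • ρ (sc n a)
  t' a := c • ρ (sc n a)⁻¹
  tt' a := by
    rw [smul_mul_smul_comm, inv_mul_cancel₀ hc, one_smul, rho_mul_inv]
  t't a := by
    rw [smul_mul_smul_comm, mul_inv_cancel₀ hc, one_smul, rho_inv_mul]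
  period a k := by
    have : sc n (a + k * n) = sc n a := by
      rw [← sc_mod n (by omega) (a + k * n), ← sc_mod n (by omega) a]
      congr 1
      exact Int.add_mul_emod_self_right a k n
    rw [this]
  braid a := by
    have h := congrArg ρ (sc_braid n (by omega) a)
    simp only [map_mul] at h
    simp only [smul_mul_smul_comm, h]
  zero a b h1 h2 := by
    obtain ⟨z1, z2⟩ := hz a b h1 h2
    have e : ∀ x : ℤ, c⁻¹ • ρ (sc n x) - 1 = c⁻¹ • sv ρ c x := by
      intro x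
      unfold sv
      rw [smul_sub, smul_smul, inv_mul_cancel₀ hc, one_smul]
    rw [e, e, smul_mul_smul_comm, smul_mul_smul_comm, z1, z2]
    simp

/-- Irreducible representations without interaction kill `w0`. -/
theorem w0_ker (hZ : NoInt hn ρ) (hirr : ∀ W : Submodule K V, (∀ g, ∀ v ∈ W, ρ g v ∈ W) →
    W = ⊥ ∨ W = ⊤) : ρ (w0 n) = 1 := by
  by_cases hna : commutator (BraidGroup n) ≤ ρ.ker
  · exact hna (Subgroup.commutator_mem_commutator (Subgroup.mem_top _) (Subgroup.mem_top _))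
  obtain ⟨c, hc, hz⟩ := far_zero hn ρ hZ hirr hna
  set C := cycOf hn ρ c hc hz with hC
  have hCt : ∀ a, C.t a = c⁻¹ • ρ (sc n a) := fun a => rfl
  have hCt' : ∀ a, C.t' a = c • ρ (sc n a)⁻¹ := fun a => rfl
  obtain ⟨k1, k2⟩ := cyc_irr hn C (by
    intro W hW
    apply hirr
    apply inv_of_gen
    intro r hr v hv
    have h1 := hW r v hv
    rw [hCt, sc_nat n r hr] at h1
    have h2 := W.smul_mem c h1
    rw [LinearMap.smul_apply, smul_smul, mul_inv_cancel₀ hc, one_smul] at h2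
    exact h2)
  have t0 : ρ (sg n 0) = c • C.t 0 := by
    rw [hCt, smul_smul, mul_inv_cancel₀ hc, one_smul, sc_zero]
  have tk : ∀ i : ℕ, i < n - 1 → ρ (sg n i) = c • C.t i := by
    intro i hi
    rw [hCt, smul_smul, mul_inv_cancel₀ hc, one_smul, sc_nat n i hi]
  have tk' : ∀ i : ℕ, i < n - 1 → ρ (sg n i)⁻¹ = c⁻¹ • C.t' i := by
    intro i hi
    rw [hCt', smul_smul, inv_mul_cancel₀ hc, one_smul, sc_nat n i hi]
  have hX : ρ (xw n) = C.X := by
    unfold xw Cyc.X
    simp only [map_mul, map_pow]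
    rw [tk 3 (by omega), tk' 4 (by omega), tk' 1 (by omega), tk 0 (by omega)]
    simp only [smul_pow, smul_mul_smul_comm]
    have e1 : c * c⁻¹ ^ 3 * c * (c⁻¹ * c ^ 3 * c⁻¹) = 1 := by field_simp
    rw [e1, one_smul]
    push_cast
    rfl
  have hX' : ρ (xw n)⁻¹ = C.X' := by
    have e0 : (xw n)⁻¹ = (sg n 1 * (sg n 0)⁻¹ ^ 3 * sg n 1) *
        ((sg n 3)⁻¹ * sg n 4 ^ 3 * (sg n 3)⁻¹) := by
      unfold xw; group
    rw [e0]
    unfold Cyc.X'
    simp only [map_mul, map_pow]
    rw [tk 1 (by omega), tk' 0 (by omega), tk' 3 (by omega), tk 4 (by omega)]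
    simp only [smul_pow, smul_mul_smul_comm]
    have e1 : c * c⁻¹ ^ 3 * c * (c⁻¹ * c ^ 3 * c⁻¹) = 1 := by field_simp
    rw [e1, one_smul]
    push_cast
    rfl
  have h2 : ρ (sg n 2) = c • C.t 2 := by
    have := tk 2 (by omega)
    exact_mod_cast this
  have hXX' : C.X * C.X' = 1 := by rw [← hX, ← hX', rho_mul_inv]
  have hX'X : C.X' * C.X = 1 := by rw [← hX, ← hX', rho_inv_mul]
  unfold w0
  apply comm_ker
  rw [map_mul, map_mul, hX, hX', h2]
  have e : C.t 2 = 1 + C.s 2 := C.t_eq 2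
  simp only [smul_mul_assoc, mul_smul_comm, e]
  congr 2
  have f1 : C.X * (1 + C.s 2) * C.X' = 1 + C.X * C.s 2 * C.X' := by
    rw [mul_add, mul_one, add_mul, hXX']
  rw [f1]
  have f2 : (1 + C.s 2) * (1 + C.X * C.s 2 * C.X') =
      1 + C.s 2 + C.X * C.s 2 * C.X' + (C.s 2 * C.X * C.s 2) * C.X' := by noncomm_ring
  have f3 : (1 + C.X * C.s 2 * C.X') * (1 + C.s 2) =
      1 + C.s 2 + C.X * C.s 2 * C.X' + C.X * (C.s 2 * C.X' * C.s 2) := by noncomm_ring
  rw [f2, f3, k1, k2, zero_mul, mul_zero]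

end

end Pool.Agent.H29R2.QD
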