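import Mathlib
import Pool.Agent.H29R2.QD.Kernel
import Pool.Agent.H29R2.QD.EB
import Pool.Agent.Helper950.BG.Final

set_option autoImplicit false

/-! The quadratic lower bound. -/

namespace Pool.Agent.H29R2.QD

open Module
open Pool.Agent.Helper950.BG
open scoped commutatorElement

universe u

section
variable {K V : Type*} [Field K] [AddCommGroup V] [Module K V]

/-- blocks at positions `i`, `j` do not interact -/
def Zp {n : ℕ} (ρ : BraidGroup n →* Module.End K V) (i j : ℕ) (hi : i + 5 ≤ n)
    (hj : j + 5 ≤ n) : Prop :=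
  ∀ g ∈ commutator (BraidGroup 5), ∀ k ∈ commutator (BraidGroup 5),
    (ρ (sh j hj k) - 1) * (ρ (sh i hi g) - 1) = 0

theorem Zp_conj {n : ℕ} (ρ : BraidGroup n →* Module.End K V) {i j i' j' : ℕ} (hi : i + 5 ≤ n)
    (hj : j + 5 ≤ n) (hi' : i' + 5 ≤ n) (hj' : j' + 5 ≤ n) (x : BraidGroup n)
    (h1 : ∀ g : BraidGroup 5, x * sh i hi g = sh i' hi' g * x)
    (h2 : ∀ g : BraidGroup 5, x * sh j hj g = sh j' hj' g * x) :
    Zp ρ i j hi hj ↔ Zp ρ i' j' hi' hj' := by
  have key : ∀ g k, ρ x * ((ρ (sh j hj k) - 1) * (ρ (sh i hi g) - 1)) =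
      ((ρ (sh j' hj' k) - 1) * (ρ (sh i' hi' g) - 1)) * ρ x := by
    intro g k
    have e1 : ρ x * ρ (sh i hi g) = ρ (sh i' hi' g) * ρ x := by
      rw [← map_mul, h1, map_mul]
    have e2 : ρ x * ρ (sh j hj k) = ρ (sh j' hj' k) * ρ x := by
      rw [← map_mul, h2, map_mul]
    calc ρ x * ((ρ (sh j hj k) - 1) * (ρ (sh i hi g) - 1))
        = (ρ x * ρ (sh j hj k) - ρ x) * (ρ (sh i hi g) - 1) := by noncomm_ring
      _ = (ρ (sh j' hj' k) - 1) * (ρ x * ρ (sh i hi g) - ρ x) := by rw [e2]; noncomm_ring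
      _ = _ := by rw [e1]; noncomm_ring
  constructor
  · intro h g hg k hk
    have h3 := key g k
    rw [h g hg k hk, mul_zero] at h3
    calc (ρ (sh j' hj' k) - 1) * (ρ (sh i' hi' g) - 1)
        = ((ρ (sh j' hj' k) - 1) * (ρ (sh i' hi' g) - 1)) * ρ x * ρ x⁻¹ := by
          rw [mul_assoc _ (ρ x), rho_mul_inv, mul_one]
      _ = 0 := by rw [← h3, zero_mul]
  · intro h g hg k hk
    have h3 := key g k
    rw [h g hg k hk, zero_mul] at h3
    calc (ρ (sh j hj k) - 1) * (ρ (sh i hi g) - 1)
        = ρ x⁻¹ * (ρ x * ((ρ (sh j hj k) - 1) * (ρ (sh i hi g) - 1))) := by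
          rw [← mul_assoc, rho_inv_mul, one_mul]
      _ = 0 := by rw [h3, mul_zero]

theorem Zp_right {n : ℕ} (ρ : BraidGroup n →* Module.End K V) (i j : ℕ) (hij : i + 5 ≤ j)
    (hj : j + 1 + 5 ≤ n) :
    Zp ρ i j (by omega) (by omega) ↔ Zp ρ i (j + 1) (by omega) hj := by
  apply Zp_conj ρ _ _ _ _ (ls n j 5)
  · intro g
    exact (ls_comm (m := 5) (by omega) hij g).eq
  · intro g
    exact ls_shift (by omega) g

theorem Zp_both {n : ℕ} (ρ : BraidGroup n →* Module.End K V) (i j : ℕ) (hi : i + 1 + 5 ≤ n)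
    (hj : j + 1 + 5 ≤ n) :
    Zp ρ i j (by omega) (by omega) ↔ Zp ρ (i + 1) (j + 1) hi hj := by
  apply Zp_conj ρ _ _ _ _ (dd n)
  · intro g
    exact sh_dd hi g
  · intro g
    exact sh_dd hj g

theorem Zp_zero {n : ℕ} (ρ : BraidGroup n →* Module.End K V) (k : ℕ) :
    ∀ (h : 5 + k + 5 ≤ n), Zp ρ 0 5 (by omega) (by omega) ↔ Zp ρ 0 (5 + k) (by omega) h := by
  induction k with
  | zero => intro _; exact Iff.rfl
  | succ k ih =>
    intro h
    exact (ih (by omega)).trans (Zp_right ρ 0 (5 + k) (by omega) h)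

theorem Zp_all {n : ℕ} (ρ : BraidGroup n →* Module.End K V) (i j : ℕ) (hij : i + 5 ≤ j)
    (hj : j + 5 ≤ n) :
    Zp ρ 0 5 (by omega) (by omega) ↔ Zp ρ i j (by omega) hj := by
  obtain ⟨k, rfl⟩ : ∃ k, j = i + (5 + k) := ⟨j - i - 5, by omega⟩
  induction i with
  | zero =>
    have := Zp_zero ρ k (by omega)
    rw [this]
    simp only [zero_add]
  | succ i ih =>
    have h1 := ih (by omega) (by omega)
    rw [h1, Zp_both ρ i (i + (5 + k)) (by omega) (by omega)]
    have e : i + (5 + k) + 1 = i + 1 + (5 + k) := by omega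
    simp only [e]

theorem map_comm_mem {G H : Type*} [Group G] [Group H] (f : G →* H) (g : G)
    (hg : g ∈ commutator G) : f g ∈ commutator H := by
  have h1 : f g ∈ (commutator G).map f := ⟨g, hg, rfl⟩
  rw [commutator_def, Subgroup.map_commutator] at h1
  exact Subgroup.commutator_mono le_top le_top h1

end

/-- Irreducible representations in which `w0` acts nontrivially have large dimension. -/
theorem irr_bound {K : Type u} [Field K] [IsAlgClosed K] {n r k : ℕ} (hr : 2 ≤ r) (hk : 7 ≤ k)
    (hrk : r * k ≤ n) (V : Type u) [AddCommGroup V] [Module K V] [FiniteDimensional K V]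
    (ρ : BraidGroup n →* Module.End K V)
    (hirr : ∀ W : Submodule K V, (∀ g, ∀ v ∈ W, ρ g v ∈ W) → W = ⊥ ∨ W = ⊤)
    (hw : ρ (w0 n) ≠ 1) : (r * r - r) * (eB k) ^ 2 ≤ 2 * finrank K V := by
  have hn : 14 ≤ n := by nlinarith
  have hno : ¬ NoInt hn ρ := fun h => hw (w0_ker hn ρ h hirr)
  have h05 : ¬ Zp ρ 0 5 (by omega) (by omega) := by
    intro h
    apply hno
    intro j hj h5 g hg k' hk'
    have := (Zp_all ρ 0 j (by omega) hj).1 h g hg k' hk'
    exact this
  have hpos : ∀ p : Fin r, (p : ℕ) * k + k ≤ n := by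
    intro p
    have := p.2
    have h1 : ((p : ℕ) + 1) * k ≤ r * k := Nat.mul_le_mul_right _ this
    have h2 : ((p : ℕ) + 1) * k = p * k + k := by ring
    omega
  have hlt : ∀ p q : Fin r, p < q → (p : ℕ) * k + k ≤ q * k := by
    intro p q hpq
    have h1 : ((p : ℕ) + 1) * k ≤ q * k := Nat.mul_le_mul_right _ hpq
    have h2 : ((p : ℕ) + 1) * k = p * k + k := by ring
    omega
  have heB : 3 ≤ eB k := by unfold eB; omega
  have h := blocks (K := K) (commutator (BraidGroup k)) inferInstance (perfect k (by omega))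
    (eB k) heB (fun V _ _ _ σ hσ => eB_min k (by omega) V σ hσ) (ι := Fin r)
    (finrank K V) V (fun p => ρ.comp (sh ((p : ℕ) * k) (hpos p))) Finset.univ.offDiag
    (by
      intro p q hpq g g'
      rcases lt_or_gt_of_ne hpq with h | h
      · have := (sh_sh_commute (hpos p) (hpos q) (hlt p q h) g g').eq
        simp only [MonoidHom.comp_apply]
        rw [← map_mul, this, map_mul]
      · have := (sh_sh_commute (hpos q) (hpos p) (hlt q p h) g' g).eq
        simp only [MonoidHom.comp_apply]
        rw [← map_mul, ← this, map_mul])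
    (by
      intro pq hpq
      rw [Finset.mem_offDiag] at hpq
      obtain ⟨_, _, hne⟩ := hpq
      refine ⟨hne, ?_⟩
      obtain ⟨p, q⟩ := pq
      simp only at hne ⊢
      -- interaction between the first five strands of the blocks
      have key : ∀ p q : Fin r, p < q → ∃ g ∈ commutator (BraidGroup k),
          ∃ h ∈ commutator (BraidGroup k),
          (ρ (sh ((q : ℕ) * k) (hpos q) h) - 1) * (ρ (sh ((p : ℕ) * k) (hpos p) g) - 1) ≠ 0 := by
        intro p q hpq
        have h1 := hlt p q hpq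
        have h2 := hpos q
        have h3 := (Zp_all ρ ((p : ℕ) * k) ((q : ℕ) * k) (by omega) (by omega)).not.1 h05
        unfold Zp at h3
        push Not at h3
        obtain ⟨g, hg, h, hh, hne⟩ := h3
        refine ⟨sh 0 (by omega) g, map_comm_mem _ _ hg, sh 0 (by omega) h, map_comm_mem _ _ hh, ?_⟩
        rw [sh_comp, sh_comp]
        exact hne
      rcases lt_or_gt_of_ne hne with h | h
      · obtain ⟨g, hg, g', hg', hne⟩ := key p q h
        refine ⟨g, hg, g', hg', ?_⟩
        have cc := (sh_sh_commute (hpos p) (hpos q) (hlt p q h) g g').eq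
        have cc' : ρ (sh ((p : ℕ) * k) (hpos p) g) * ρ (sh ((q : ℕ) * k) (hpos q) g') =
            ρ (sh ((q : ℕ) * k) (hpos q) g') * ρ (sh ((p : ℕ) * k) (hpos p) g) := by
          rw [← map_mul, cc, map_mul]
        have e : (ρ (sh ((p : ℕ) * k) (hpos p) g) - 1) * (ρ (sh ((q : ℕ) * k) (hpos q) g') - 1) =
            (ρ (sh ((q : ℕ) * k) (hpos q) g') - 1) * (ρ (sh ((p : ℕ) * k) (hpos p) g) - 1) := by
          simp only [sub_mul, mul_sub, one_mul, mul_one, cc']
          abel
        simp only [MonoidHom.comp_apply]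
        rw [e]; exact hne
      · obtain ⟨g, hg, g', hg', hne⟩ := key q p h
        exact ⟨g', hg', g, hg, hne⟩)
    le_rfl
  rw [Finset.offDiag_card, Finset.card_univ, Fintype.card_fin] at h
  exact h

/-- Representations on which the normal closure of `w0` acts non-solvably have large dimension. -/
theorem ns_bound {K : Type u} [Field K] [IsAlgClosed K] {n r k : ℕ} (hr : 2 ≤ r) (hk : 7 ≤ k)
    (hrk : r * k ≤ n) (N : ℕ) : ∀ (V : Type u) [AddCommGroup V] [Module K V]
    [FiniteDimensional K V] (ρ : BraidGroup n →* Module.End K V),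
    (∀ m, ¬ DS (N0 n) m ≤ ρ.ker) → finrank K V ≤ N →
    (r * r - r) * (eB k) ^ 2 ≤ 2 * finrank K V := by
  induction N with
  | zero =>
    intro V _ _ _ ρ hns hN
    exfalso
    have h0 : finrank K V = 0 := by omega
    have hsub : Subsingleton V := finrank_zero_iff.mp h0
    apply hns 0
    intro g _
    rw [MonoidHom.mem_ker]
    exact Subsingleton.elim _ _
  | succ N ih =>
    intro V _ _ _ ρ hns hN
    by_cases hirr : ∀ W : Submodule K V, (∀ g, ∀ v ∈ W, ρ g v ∈ W) → W = ⊥ ∨ W = ⊤
    · apply irr_bound hr hk hrk V ρ hirr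
      intro hw
      apply hns 0
      show Subgroup.normalClosure {w0 n} ≤ ρ.ker
      apply Subgroup.normalClosure_le_normal
      intro x hx
      rw [Set.mem_singleton_iff] at hx
      rw [hx]
      exact hw
    · push Not at hirr
      obtain ⟨W, hW, hb, htop⟩ := hirr
      have hlt : finrank K W < finrank K V := Submodule.finrank_lt htop
      have hq : finrank K (V ⧸ W) + finrank K W = finrank K V :=
        Submodule.finrank_quotient_add_finrank W
      have hWpos : 0 < finrank K W := by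
        rw [Module.finrank_pos_iff]
        exact Submodule.nontrivial_iff_ne_bot.mpr hb
      rcases seq_split (DS (N0 n)) (fun _ => rfl) (by
          intro k
          show ⁅DS (N0 n) k, DS (N0 n) k⁆ ≤ DS (N0 n) k
          rw [Subgroup.commutator_le]
          intro g hg h hh
          rw [commutatorElement_def]
          exact mul_mem (mul_mem (mul_mem hg hh) (inv_mem hg)) (inv_mem hh)) ρ W hW hns with h | h
      · have := ih W (restr ρ W hW) h (by omega)
        omega
      · have := ih (V ⧸ W) (quo ρ W hW) h (by omega)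
        omega

/-- If `B_n` embeds in `GL_d(K)`, then `d` is at least `C(r,2) e(k)²` whenever `r k ≤ n`. -/
theorem faithful_bound {n r k d : ℕ} (hk : 7 ≤ k) (hrk : r * k ≤ n) (K : Type u) [Field K]
    (f : BraidGroup n →* Matrix.GeneralLinearGroup (Fin d) K) (hf : Function.Injective f) :
    r * (r - 1) * (2 * ((k - 3) / 2)) ^ 2 ≤ 2 * d := by
  by_cases hr : 2 ≤ r
  · have hn : 14 ≤ n := by nlinarith
    have hFi : Function.Injective ((glEnd d K).comp f) := by
      rw [MonoidHom.coe_comp]
      exact (glEnd_inj d K).comp hf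
    have h := ns_bound (K := AlgebraicClosure K) hr hk hrk d (Fin d → AlgebraicClosure K)
      ((glEnd d K).comp f) (by
        intro m hm
        rw [(MonoidHom.ker_eq_bot_iff _).2 hFi] at hm
        exact N0_not_solvable n (by omega) m hm) (by simp)
    have e : r * r - r = r * (r - 1) := by rw [Nat.mul_sub_one]
    rw [e] at h
    simpa [eB] using h
  · have : r = 0 ∨ r = 1 := by omega
    rcases this with rfl | rfl <;> simp

end Pool.Agent.H29R2.QD
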