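import Mathlib

set_option autoImplicit false

/-! From the block bound to the asymptotic bound. -/

namespace Pool.Agent.H29R2.QD

theorem asym (n d : ℕ)
    (h : ∀ r k : ℕ, 7 ≤ k → r * k ≤ n → r * (r - 1) * (2 * ((k - 3) / 2)) ^ 2 ≤ 2 * d) :
    (n : ℝ) ^ 2 / 2 - 5 * n * Real.sqrt n ≤ d := by
  have hn0 : (0 : ℝ) ≤ n := Nat.cast_nonneg n
  set x := Real.sqrt n with hx
  have hx0 : 0 ≤ x := Real.sqrt_nonneg _
  have hxx : x * x = n := Real.mul_self_sqrt hn0
  have hd0 : (0 : ℝ) ≤ d := Nat.cast_nonneg d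
  by_cases hsmall : n ≤ 100
  · have h1 : x ≤ 10 := by
      have : (n : ℝ) ≤ 100 := by exact_mod_cast hsmall
      nlinarith
    have h2 : (n : ℝ) ^ 2 / 2 ≤ 5 * n * x := by
      have : (n : ℝ) ^ 2 = n * x * x := by rw [pow_two, mul_assoc, hxx]
      rw [this]
      have h3 : (n : ℝ) * x * x ≤ n * x * 10 := by
        apply mul_le_mul_of_nonneg_left h1
        positivity
      linarith
    linarith
  · push Not at hsmall
    have hnR : (100 : ℝ) < n := by exact_mod_cast hsmall
    have hx10 : 10 < x := by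
      by_contra hcon
      push Not at hcon
      nlinarith
    -- y = sqrt (2 n)
    set y := Real.sqrt (2 * n) with hy
    have hy0 : 0 ≤ y := Real.sqrt_nonneg _
    have hyy : y * y = 2 * n := Real.mul_self_sqrt (by positivity)
    have hyx : y ≤ 1.415 * x := by
      by_contra hcon
      push Not at hcon
      have h1 : (1.415 * x) * (1.415 * x) < y * y := by
        apply mul_self_lt_mul_self (by positivity) hcon
      nlinarith
    have hy14 : 14 < y := by
      by_contra hcon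
      push Not at hcon
      nlinarith
    -- choose k
    obtain ⟨k, hk1, hk2, hk3⟩ : ∃ k : ℕ, y ≤ k ∧ (k : ℝ) ≤ y + 2 ∧ k % 2 = 1 := by
      set m := ⌈y⌉₊ with hm
      have m1 : y ≤ m := Nat.le_ceil y
      have m2 : (m : ℝ) < y + 1 := Nat.ceil_lt_add_one hy0
      rcases Nat.mod_two_eq_zero_or_one m with h0 | h0
      · exact ⟨m + 1, by push_cast; linarith, by push_cast; linarith, by omega⟩
      · exact ⟨m, m1, by linarith, h0⟩
    have hk14 : (14 : ℝ) < k := lt_of_lt_of_le hy14 hk1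
    have hk14' : 14 < k := by exact_mod_cast hk14
    set r := n / k with hr
    have hrk : r * k ≤ n := Nat.div_mul_le_self n k
    have hrk2 : n < (r + 1) * k := by
      have h2 := Nat.div_add_mod n k
      have h3 := Nat.mod_lt n (show 0 < k by omega)
      rw [← hr] at h2
      have h4 : (r + 1) * k = k * r + k := by ring
      omega
    have hb := h r k (by omega) hrk
    have he : 2 * ((k - 3) / 2) = k - 3 := by omega
    rw [he] at hb
    -- n ≥ 2k
    have hnk : (2 : ℝ) * k ≤ n := by nlinarith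
    have hr1 : 1 ≤ r := by
      rw [hr]
      apply Nat.div_pos _ (by omega)
      have : (k : ℝ) ≤ n := by linarith
      exact_mod_cast this
    have hbR : (r : ℝ) * (r - 1) * ((k : ℝ) - 3) ^ 2 ≤ 2 * d := by
      have e1 : ((r - 1 : ℕ) : ℝ) = (r : ℝ) - 1 := by
        rw [Nat.cast_sub hr1]; simp
      have e2 : ((k - 3 : ℕ) : ℝ) = (k : ℝ) - 3 := by
        rw [Nat.cast_sub (by omega)]; simp
      rw [← e1, ← e2]
      exact_mod_cast hb
    have hrkR : (n : ℝ) - k ≤ r * k := by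
      have : (n : ℝ) < (r + 1) * k := by exact_mod_cast hrk2
      linarith
    have hrR : (1 : ℝ) ≤ r := by exact_mod_cast hr1
    have hkpos : (0 : ℝ) < k := by linarith
    -- main estimate
    have h1 : ((n : ℝ) - k) * (n - 2 * k) ≤ (r * k) * (r * k - k) := by
      have a1 : (0 : ℝ) ≤ (n : ℝ) - 2 * k := by linarith
      have a2 : (n : ℝ) - 2 * k ≤ r * k - k := by linarith
      have a3 : (0 : ℝ) ≤ (n : ℝ) - k := by linarith
      nlinarith
    have h2 : (r : ℝ) * (r - 1) * ((k : ℝ) - 3) ^ 2 * k =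
        (r * k) * (r * k - k) * (((k : ℝ) - 3) ^ 2 / k) := by
      field_simp
    have h3 : (k : ℝ) - 6 ≤ ((k : ℝ) - 3) ^ 2 / k := by
      rw [le_div_iff₀ hkpos]; nlinarith
    have h4 : ((n : ℝ) - k) * (n - 2 * k) * (k - 6) ≤
        (r : ℝ) * (r - 1) * ((k : ℝ) - 3) ^ 2 * k := by
      rw [h2]
      have b1 : (0 : ℝ) ≤ ((n : ℝ) - k) * (n - 2 * k) := by
        apply mul_nonneg <;> linarith
      have b2 : (0 : ℝ) ≤ (k : ℝ) - 6 := by linarith
      calc ((n : ℝ) - k) * (n - 2 * k) * (k - 6) ≤ (r * k) * (r * k - k) * (k - 6) :=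
            mul_le_mul_of_nonneg_right h1 b2
        _ ≤ _ := mul_le_mul_of_nonneg_left h3 (le_trans b1 h1)
    -- conclude
    have h5 : ((n : ℝ) - k) * (n - 2 * k) * (k - 6) ≤ 2 * d * k :=
      le_trans h4 (mul_le_mul_of_nonneg_right hbR hkpos.le)
    -- n^2 k - 3 k^2 n - 6 n^2 ≤ LHS
    have h6 : (n : ℝ) ^ 2 * k - 3 * k ^ 2 * n - 6 * n ^ 2 ≤ ((n : ℝ) - k) * (n - 2 * k) * (k - 6) := by
      have : ((n : ℝ) - k) * (n - 2 * k) * (k - 6) - ((n : ℝ) ^ 2 * k - 3 * k ^ 2 * n - 6 * n ^ 2) =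
          2 * k ^ 3 - 12 * k ^ 2 + 18 * k * n := by ring
      have h7 : (0 : ℝ) ≤ 2 * k ^ 3 - 12 * k ^ 2 + 18 * k * n := by
        have : (0 : ℝ) ≤ k ^ 2 * (2 * k - 12) := by
          apply mul_nonneg (by positivity); linarith
        have h8 : (0 : ℝ) ≤ 18 * k * n := by positivity
        nlinarith
      linarith
    -- 3 k^2 n + 6 n^2 ≤ 10 n x k
    have h8 : 3 * (k : ℝ) ^ 2 * n + 6 * n ^ 2 ≤ 10 * n * x * k := by
      have c1 : 6 * (n : ℝ) ≤ 3 * y * k := by
        have : 6 * (n : ℝ) = 3 * y * y := by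
          rw [mul_assoc, hyy]; ring
        rw [this]
        apply mul_le_mul_of_nonneg_left hk1
        positivity
      have c2 : 3 * (k : ℝ) + 3 * y ≤ 10 * x := by linarith
      have c3 : 3 * (k : ℝ) ^ 2 + 6 * n ≤ 10 * x * k := by
        have c7 : 3 * (k : ℝ) ^ 2 + 3 * y * k ≤ 10 * x * k := by
          have c8 := mul_le_mul_of_nonneg_right c2 hkpos.le
          have c9 : (3 * (k : ℝ) + 3 * y) * k = 3 * (k : ℝ) ^ 2 + 3 * y * k := by ring
          rw [c9] at c8
          exact c8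
        linarith
      have c4 := mul_le_mul_of_nonneg_right c3 hn0
      have c5 : (3 * (k : ℝ) ^ 2 + 6 * n) * n = 3 * (k : ℝ) ^ 2 * n + 6 * n ^ 2 := by ring
      have c6 : 10 * x * k * (n : ℝ) = 10 * n * x * k := by ring
      rw [c5, c6] at c4
      exact c4
    have h9 : (n : ℝ) ^ 2 * k - 10 * n * x * k ≤ 2 * d * k := by linarith
    have h10 : (n : ℝ) ^ 2 - 10 * n * x ≤ 2 * d := by
      have : ((n : ℝ) ^ 2 - 10 * n * x) * k ≤ 2 * d * k := by linarith
      exact le_of_mul_le_mul_right this hkpos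
    linarith

end Pool.Agent.H29R2.QD
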